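import Pool.Agent.Lib_helper33.NI.Basic

/-!
# Amalgamation of symmetric systems
-/

set_option linter.unusedSectionVars false

namespace Pool.Agent.Lib_helper33.NI

open Set Cardinal
open Pool.Agent.Lib_helper27.Q (Om1)

variable {K : Type} [LinearOrder K] [WellFoundedLT K] {e : K → Mod K}

/-- the amalgam of `S` and `T` over `N` -/
def Am (e : K → Mod K) (S T : Set (Mod K)) (N : Mod K) : Set (Mod K) :=
  S ∪ {U | ∃ N' ∈ S, ∃ φ, Iso e N N' φ ∧ ∃ W ∈ T, U = img φ W}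

section

variable {S T : Set (Mod K)} {N : Mod K}

/-- elements of the amalgam of small height -/
theorem Am.small (hS : Sym e S) (hN : N ∈ S) (hTN : ∀ W ∈ T, In e W N)
    (hST : ∀ M ∈ S, In e M N → M ∈ T) {U : Mod K} (hU : U ∈ Am e S T N) (hlt : U.1 < N.1) :
    ∃ N' ∈ S, ∃ φ, Iso e N N' φ ∧ ∃ W ∈ T, U = img φ W := by
  rcases hU with hU | hU
  · obtain ⟨N', hN', hh, hin⟩ := hS.up U hU N hN hlt
    obtain ⟨-, φ, hφ⟩ := hS.iso N hN N' hN' hh.symm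
    obtain ⟨ψ, hψ, h1, h2⟩ := hφ.exists_symm (hS.good N hN)
    have h3 : img ψ U ∈ S := hS.cop N' hN' N hN ψ hψ U hU hin
    have h4 : In e (img ψ U) N := in_img' hψ hin
    refine ⟨N', hN', φ, hφ, img ψ U, hST _ h3 h4, ?_⟩
    rw [img_img, img_id]
    intro x hx
    exact h2 x (hin.sub (hS.good N' hN') hx)
  · exact hU

theorem Am.large (hS : Sym e S) (hN : N ∈ S) (hTN : ∀ W ∈ T, In e W N) {U : Mod K}
    (hU : U ∈ Am e S T N) (hle : N.1 ≤ U.1) : U ∈ S := by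
  rcases hU with hU | ⟨N', hN', φ, hφ, W, hW, rfl⟩
  · exact hU
  · exact absurd ((hTN W hW).lt (hS.good N hN)) (not_lt.2 hle)

/-- the key lemma -/
theorem Am.key (hS : Sym e S) {N1 N2 : Mod K} (h1 : N1 ∈ S) (h2 : N2 ∈ S)
    {φ1 φ2 : K → K} (hφ1 : Iso e N N1 φ1) (hφ2 : Iso e N N2 φ2) {x1 x2 : K} (hx1 : x1 ∈ N.2)
    (hx2 : x2 ∈ N.2) (he : φ1 x1 = φ2 x2) : x1 = x2 := by
  obtain ⟨hc, χ, hχ⟩ := hS.iso N1 h1 N2 h2 (hφ1.ht.symm.trans hφ2.ht)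
  have h3 : φ1 x1 ∈ N1.2 := hφ1.maps x1 hx1
  have h4 : φ1 x1 ∈ N2.2 := by
    rw [he]
    exact hφ2.maps x2 hx2
  have h5 : χ (φ1 x1) = φ1 x1 := hχ.toOIso.fix hc _ h3 h4
  have h6 : (χ ∘ φ1) x1 = φ2 x1 := (hφ1.toOIso.comp hχ.toOIso).unique hφ2.toOIso x1 hx1
  refine hφ2.toOIso.inj hx1 hx2 ?_
  rw [← h6, Function.comp_apply, h5, he]

/-- change of the isomorphism -/
theorem Am.change (hS : Sym e S) {N1 N3 : Mod K} (h1 : N1 ∈ S) (h3 : N3 ∈ S)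
    {φ1 φ3 : K → K} (hφ1 : Iso e N N1 φ1) (hφ3 : Iso e N N3 φ3) {W : Mod K} (hW : W.2 ⊆ N.2)
    (hsub : (img φ3 W).2 ⊆ N1.2) : img φ3 W = img φ1 W := by
  refine img_congr fun x hx => ?_
  have h4 : φ3 x ∈ N1.2 := hsub ⟨x, hx, rfl⟩
  obtain ⟨y, hy, hy'⟩ := hφ1.surj _ h4
  have h5 := Am.key hS h1 h3 hφ1 hφ3 hy (hW hx) hy'
  rw [← hy', h5]

end

/-- AMAL -/
theorem sym_amal {S T : Set (Mod K)} {N : Mod K} (hS : Sym e S) (hT : Sym e T) (hN : N ∈ S)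
    (hTN : ∀ W ∈ T, In e W N) (hST : ∀ M ∈ S, In e M N → M ∈ T) :
    Sym e (S ∪ {U | ∃ N' ∈ S, ∃ φ, Iso e N N' φ ∧ ∃ W ∈ T, U = img φ W}) := by
  have hGN := hS.good N hN
  have hsub : ∀ W ∈ T, W.2 ⊆ N.2 := fun W hW => (hTN W hW).sub hGN
  have small : ∀ U ∈ Am e S T N, U.1 < N.1 → ∃ N' ∈ S, ∃ φ, Iso e N N' φ ∧ ∃ W ∈ T, U = img φ W :=
    fun U hU hlt => Am.small hS hN hTN hST hU hlt
  have large : ∀ U ∈ Am e S T N, N.1 ≤ U.1 → U ∈ S := fun U hU hle => Am.large hS hN hTN hU hle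
  have good : ∀ U ∈ Am e S T N, Good e U := by
    rintro U (hU | ⟨N', hN', φ, hφ, W, hW, rfl⟩)
    · exact hS.good U hU
    · exact good_img hφ (hT.good W hW) (hsub W hW)
  have memr : ∀ {N' φ W}, N' ∈ S → Iso e N N' φ → W ∈ T → img φ W ∈ Am e S T N :=
    fun h1 h2 h3 => Or.inr ⟨_, h1, _, h2, _, h3, rfl⟩
  show Sym e (Am e S T N)
  refine ⟨good, ?_, ?_, ?_⟩
  · -- isomorphisms
    intro U1 hU1 U2 hU2 hh
    rcases le_or_gt N.1 U1.1 with hle | hlt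
    · exact hS.iso U1 (large U1 hU1 hle) U2 (large U2 hU2 (hh ▸ hle)) hh
    · obtain ⟨N1, hN1, φ1, hφ1, W1, hW1, rfl⟩ := small U1 hU1 hlt
      obtain ⟨N2, hN2, φ2, hφ2, W2, hW2, rfl⟩ := small U2 hU2 (hh ▸ hlt)
      have hh' : W1.1 = W2.1 := hh
      obtain ⟨hc, θ, hθ⟩ := hT.iso W1 hW1 W2 hW2 hh'
      have hcN := (hS.iso N1 hN1 N2 hN2 (hφ1.ht.symm.trans hφ2.ht)).1
      constructor
      · constructor
        · rintro _ ⟨x1, hx1, rfl⟩ ⟨x2, hx2, hx12⟩ _ ⟨y1, hy1, rfl⟩ hlt'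
          have hx : x1 = x2 := Am.key hS hN1 hN2 hφ1 hφ2 (hsub W1 hW1 hx1) (hsub W2 hW2 hx2) hx12.symm
          subst hx
          rw [hφ1.toOIso.lt_iff (hsub W1 hW1 hy1) (hsub W1 hW1 hx1)] at hlt'
          have hy2 : y1 ∈ W2.2 := hc.1 x1 hx1 hx2 y1 hy1 hlt'
          have hlt'' := hφ1.mono y1 (hsub W1 hW1 hy1) x1 (hsub W1 hW1 hx1) hlt'
          have h1 : φ1 y1 ∈ N2.2 := hcN.1 (φ1 x1) (hφ1.maps x1 (hsub W1 hW1 hx1))
            (hx12 ▸ hφ2.maps x1 (hsub W1 hW1 hx1)) (φ1 y1) (hφ1.maps y1 (hsub W1 hW1 hy1)) hlt''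
          obtain ⟨y2, hy2', hy22⟩ := hφ2.surj _ h1
          have hy : y1 = y2 := Am.key hS hN1 hN2 hφ1 hφ2 (hsub W1 hW1 hy1) hy2' hy22.symm
          subst hy
          exact ⟨y1, hy2, hy22⟩
        · rintro _ ⟨x1, hx1, rfl⟩ ⟨x2, hx2, hx12⟩ _ ⟨y2, hy2, rfl⟩ hlt'
          have hx : x1 = x2 := Am.key hS hN1 hN2 hφ1 hφ2 (hsub W1 hW1 hx1) (hsub W2 hW2 hx2) hx12.symm
          subst hx
          rw [← hx12, hφ2.toOIso.lt_iff (hsub W2 hW2 hy2) (hsub W2 hW2 hx2)] at hlt'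
          have hy1 : y2 ∈ W1.2 := hc.2 x1 hx1 hx2 y2 hy2 hlt'
          have hlt'' := hφ2.mono y2 (hsub W2 hW2 hy2) x1 (hsub W2 hW2 hx2) hlt'
          have h1 : φ2 y2 ∈ N1.2 := hcN.2 (φ1 x1) (hφ1.maps x1 (hsub W1 hW1 hx1))
            (hx12 ▸ hφ2.maps x1 (hsub W1 hW1 hx1)) (φ2 y2) (hφ2.maps y2 (hsub W2 hW2 hy2))
            (hx12 ▸ hlt'')
          obtain ⟨y1, hy1', hy11⟩ := hφ1.surj _ h1
          have hy : y1 = y2 := Am.key hS hN1 hN2 hφ1 hφ2 hy1' (hsub W2 hW2 hy2) hy11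
          subst hy
          exact ⟨y1, hy1, hy11⟩
      · obtain ⟨ψ, hψ, _, _⟩ := (hφ1.restr (hsub W1 hW1)).exists_symm (hT.good W1 hW1)
        exact ⟨φ2 ∘ (θ ∘ ψ), (hψ.comp hθ).comp (hφ2.restr (hsub W2 hW2))⟩
  · -- copies
    intro U1 hU1 U2 hU2 θ hθ W hW hin
    have hWU : W.2 ⊆ U1.2 := hin.sub (good U1 hU1)
    have hlt : W.1 < U1.1 := hin.lt (good U1 hU1)
    rcases lt_trichotomy U1.1 N.1 with h | h | h
    · -- small
      obtain ⟨N1, hN1, φ1, hφ1, W1, hW1, rfl⟩ := small U1 hU1 h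
      obtain ⟨N2, hN2, φ2, hφ2, W2, hW2, rfl⟩ := small U2 hU2 (hθ.ht ▸ h)
      obtain ⟨N3, hN3, φ3, hφ3, W3, hW3, rfl⟩ := small W hW (hlt.trans h)
      have hU1N : (img φ1 W1).2 ⊆ N1.2 := by
        rintro _ ⟨x, hx, rfl⟩
        exact hφ1.maps x (hsub W1 hW1 hx)
      have h3 : img φ3 W3 = img φ1 W3 :=
        Am.change hS hN1 hN3 hφ1 hφ3 (hsub W3 hW3) (hWU.trans hU1N)
      rw [h3] at hin hWU ⊢
      obtain ⟨ξ, ⟨ξ1, hξ1, rfl⟩, hξ⟩ := hin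
      have hin3 : In e W3 W1 := by
        refine ⟨ξ1, hξ1, ?_⟩
        rw [hφ1.code ξ1 (hsub W1 hW1 hξ1)] at hξ
        exact img_inj hφ1.toOIso ((hGN.cl ξ1 (hsub W1 hW1 hξ1)).2) (hsub W3 hW3) hξ
      have hr1 := hφ1.restr (hsub W1 hW1)
      have hr2 := hφ2.restr (hsub W2 hW2)
      obtain ⟨ψ, hψ, hψ1, hψ2⟩ := hr2.exists_symm (hT.good W2 hW2)
      have hθ' : Iso e W1 W2 (ψ ∘ (θ ∘ φ1)) := (hr1.comp hθ).comp hψ
      have h4 : img (ψ ∘ (θ ∘ φ1)) W3 ∈ T := hT.cop W1 hW1 W2 hW2 _ hθ' W3 hW3 hin3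
      have h5 : img θ (img φ1 W3) = img φ2 (img (ψ ∘ (θ ∘ φ1)) W3) := by
        rw [img_img, img_img]
        refine img_congr fun x hx => ?_
        have hx1 : x ∈ W1.2 := hin3.sub (hT.good W1 hW1) hx
        exact (hψ2 _ (hθ.maps _ (hr1.maps x hx1))).symm
      rw [h5]
      exact memr hN2 hφ2 h4
    · -- the height of `N`
      have hU1S := large U1 hU1 h.ge
      have hU2S := large U2 hU2 (hθ.ht ▸ h.ge)
      obtain ⟨N3, hN3, φ3, hφ3, W3, hW3, rfl⟩ := small W hW (hlt.trans_eq h)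
      obtain ⟨-, φ1, hφ1⟩ := hS.iso N hN U1 hU1S h.symm
      have h3 : img φ3 W3 = img φ1 W3 := Am.change hS hU1S hN3 hφ1 hφ3 (hsub W3 hW3) hWU
      rw [h3, img_img]
      exact memr hU2S (hφ1.comp hθ) hW3
    · -- large
      have hU1S := large U1 hU1 h.le
      have hU2S := large U2 hU2 (hθ.ht ▸ h.le)
      rcases hW with hW | ⟨N3, hN3, φ3, hφ3, W3, hW3, rfl⟩
      · exact Or.inl (hS.cop U1 hU1S U2 hU2S θ hθ W hW hin)
      · have h3 : N3.1 < U1.1 := hφ3.ht ▸ h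
        obtain ⟨U', hU', hh, hin3⟩ := hS.up N3 hN3 U1 hU1S h3
        obtain ⟨hc, η, hη⟩ := hS.iso U' hU' U1 hU1S hh
        have h4 : img η N3 ∈ S := hS.cop U' hU' U1 hU1S η hη N3 hN3 hin3
        have h5 : In e (img η N3) U1 := in_img' hη hin3
        have hN3U' : N3.2 ⊆ U'.2 := hin3.sub (hS.good U' hU')
        have h6 : ∀ x ∈ W3.2, η (φ3 x) = φ3 x := by
          intro x hx
          exact hη.toOIso.fix hc _ (hN3U' (hφ3.maps x (hsub W3 hW3 hx))) (hWU ⟨x, hx, rfl⟩)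
        have h7 : img φ3 W3 = img (η ∘ φ3) W3 := img_congr fun x hx => (h6 x hx).symm
        rw [h7, img_img]
        have h8 : Iso e N (img η N3) (η ∘ φ3) := hφ3.comp (hη.restr hN3U')
        have h9 : img θ (img η N3) ∈ S := hS.cop U1 hU1S U2 hU2S θ hθ _ h4 h5
        exact memr h9 (h8.comp (hθ.restr (h5.sub (hS.good U1 hU1S)))) hW3
  · -- up
    intro M hM U hU hlt
    rcases le_or_gt N.1 M.1 with hle | hMN
    · have h1 := large M hM hle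
      have h2 := large U hU (hle.trans hlt.le)
      obtain ⟨N', hN', h3, h4⟩ := hS.up M h1 U h2 hlt
      exact ⟨N', Or.inl hN', h3, h4⟩
    · obtain ⟨N1, hN1, φ1, hφ1, W1, hW1, rfl⟩ := small M hM hMN
      have hin1 : In e (img φ1 W1) N1 := in_img' hφ1 (hTN W1 hW1)
      rcases lt_trichotomy U.1 N.1 with h | h | h
      · obtain ⟨N2, hN2, φ2, hφ2, W2, hW2, rfl⟩ := small U hU h
        obtain ⟨W', hW', h3, h4⟩ := hT.up W1 hW1 W2 hW2 hlt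
        exact ⟨img φ1 W', memr hN1 hφ1 hW', h3, in_img hφ1 (hsub W' hW') h4⟩
      · exact ⟨N1, Or.inl hN1, hφ1.ht.symm.trans h.symm, hin1⟩
      · have hUS := large U hU h.le
        have h3 : N1.1 < U.1 := hφ1.ht ▸ h
        obtain ⟨U', hU', h4, h5⟩ := hS.up N1 hN1 U hUS h3
        exact ⟨U', Or.inl hU', h4, hin1.trans_sub (h5.sub (hS.good U' hU'))⟩

end Pool.Agent.Lib_helper33.NI
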