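import Pool.Agent.Lib_helper33.NI.Amal

/-!
# Amalgamation of conditions
-/

set_option linter.unusedSectionVars false

namespace Pool.Agent.Lib_helper33.NI

open Set Cardinal
open Pool.Agent.Lib_helper27.Q (Om1)

variable {K : Type} [LinearOrder K] [WellFoundedLT K] {e : K → Mod K}

/-- the threshold of the common initial segment -/
theorem exists_threshold {A B : Set K} (h : Coh A B) :
    ∃ t : WithTop K, ∀ i ∈ B, (i : WithTop K) < t ↔ i ∈ A := by
  by_cases hne : (B \ A).Nonempty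
  · refine ⟨((wellFounded_lt (α := K)).min _ hne : K), fun i hi => ?_⟩
    have h1 := (wellFounded_lt (α := K)).min_mem _ hne
    rw [WithTop.coe_lt_coe]
    constructor
    · intro h2
      by_contra h3
      exact (wellFounded_lt (α := K)).not_lt_min (B \ A) (x := i) ⟨hi, h3⟩ h2
    · intro h2
      by_contra h3
      rcases (not_lt.1 h3).lt_or_eq with h4 | h4
      · exact h1.2 (h.2 i h2 hi _ h1.1 h4)
      · exact h1.2 (h4 ▸ h2)
  · refine ⟨⊤, fun i hi => ⟨fun _ => ?_, fun _ => WithTop.coe_lt_top i⟩⟩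
    by_contra h2
    exact hne ⟨i, hi, h2⟩

/-- AMC -/
theorem exists_amal {q q' : Pre K} {N : Mod K} (hq : IsCond e q) (hq' : IsCond e q')
    (hN : N ∈ q.mods) (hNi : ∀ i ∈ N.2, N ∈ q.act i) (hin : Inside e q' N)
    (h1 : ∀ M ∈ q.mods, In e M N → M ∈ q'.mods)
    (h2 : ∀ i, ∀ M ∈ q.act i, In e M N → M ∈ q'.act i)
    (h3 : ∀ j c d, (j, c, d) ∈ q.I → j ∈ N.2 → c < N.1 → d < N.1 → (j, c, d) ∈ q'.I) :
    ∃ r, IsCond e r ∧ r.Le q ∧ r.Le q' := by
  classical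
  have hGN := hq.sym.good N hN
  have hsub : ∀ W ∈ q'.mods, W.2 ⊆ N.2 := fun W hW => (hin.1 W hW).sub hGN
  have actmods : ∀ (p : Pre K) i, p.act i ⊆ p.mods := fun p i M hM => by
    obtain ⟨a, ha, _⟩ := hM
    exact ⟨a, ha⟩
  -- the chosen isomorphisms and thresholds
  have hφ' : ∀ N' : Mod K, ∃ φ : K → K, N' ∈ q.mods → N.1 = N'.1 → Iso e N N' φ := by
    intro N'
    by_cases h : N' ∈ q.mods ∧ N.1 = N'.1
    · obtain ⟨φ, hφ⟩ := (hq.sym.iso N hN N' h.1 h.2).2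
      exact ⟨φ, fun _ _ => hφ⟩
    · exact ⟨id, fun h4 h5 => (h ⟨h4, h5⟩).elim⟩
  choose φ hφ using hφ'
  have ht' : ∀ N' : Mod K, ∃ t : WithTop K, N' ∈ q.mods → N.1 = N'.1 →
      ∀ i ∈ N'.2, (i : WithTop K) < t ↔ i ∈ N.2 := by
    intro N'
    by_cases h : N' ∈ q.mods ∧ N.1 = N'.1
    · obtain ⟨t, ht⟩ := exists_threshold (hq.sym.iso N hN N' h.1 h.2).1
      exact ⟨t, fun _ _ => ht⟩
    · exact ⟨⊤, fun h4 h5 => (h ⟨h4, h5⟩).elim⟩
  choose t ht using ht'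
  let S3 : Finset (Mod K × WithTop K) :=
    ((q.S.filter fun z => N.1 = z.1.1) ×ˢ q'.S).image
      fun z => (img (φ z.1.1) z.2.1, min z.2.2 (min z.1.2 (t z.1.1)))
  let r : Pre K := ⟨q.S ∪ q'.S ∪ S3, q.I ∪ q'.I⟩
  have memS3 : ∀ U b, (U, b) ∈ S3 ↔ ∃ N' a', (N', a') ∈ q.S ∧ N.1 = N'.1 ∧ ∃ W a, (W, a) ∈ q'.S ∧
      U = img (φ N') W ∧ b = min a (min a' (t N')) := by
    intro U b
    constructor
    · intro h
      obtain ⟨⟨⟨N', a'⟩, ⟨W, a⟩⟩, hz, hz'⟩ := Finset.mem_image.1 h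
      obtain ⟨h4, h5⟩ := Finset.mem_product.1 hz
      obtain ⟨h6, h7⟩ := Finset.mem_filter.1 h4
      exact ⟨N', a', h6, h7, W, a, h5, (congrArg Prod.fst hz').symm, (congrArg Prod.snd hz').symm⟩
    · rintro ⟨N', a', h4, h5, W, a, h6, rfl, rfl⟩
      exact Finset.mem_image.2 ⟨⟨⟨N', a'⟩, ⟨W, a⟩⟩, Finset.mem_product.2
        ⟨Finset.mem_filter.2 ⟨h4, h5⟩, h6⟩, rfl⟩
  have memr : ∀ U b, (U, b) ∈ r.S ↔ (U, b) ∈ q.S ∨ (U, b) ∈ q'.S ∨ (U, b) ∈ S3 := by
    intro U b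
    simp only [r, Finset.mem_union, or_assoc]
  -- the models
  have hmods : r.mods = Am e q.mods q'.mods N := by
    ext U
    constructor
    · rintro ⟨b, hb⟩
      rcases (memr U b).1 hb with h | h | h
      · exact Or.inl ⟨b, h⟩
      · exact Or.inr ⟨N, hN, id, Iso.refl N, U, ⟨b, h⟩, (img_id fun _ _ => rfl).symm⟩
      · obtain ⟨N', a', h4, h5, W, a, h6, h7, -⟩ := (memS3 U b).1 h
        exact Or.inr ⟨N', ⟨a', h4⟩, φ N', hφ N' ⟨a', h4⟩ h5, W, ⟨a, h6⟩, h7⟩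
    · rintro (⟨b, hb⟩ | ⟨N', hN', ψ, hψ, W, hW, rfl⟩)
      · exact ⟨b, (memr U b).2 (Or.inl hb)⟩
      · obtain ⟨a', ha'⟩ := id hN'
        obtain ⟨a, ha⟩ := id hW
        refine ⟨min a (min a' (t N')), (memr _ _).2 (Or.inr (Or.inr ((memS3 _ _).2
          ⟨N', a', ha', hψ.ht, W, a, ha, ?_, rfl⟩)))⟩
        exact img_congr fun x hx =>
          hψ.toOIso.unique (hφ N' hN' hψ.ht).toOIso x (hsub W hW hx)
  have hact : ∀ i ∈ N.2, r.act i = Am e (q.act i) (q'.act i) N := by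
    intro i hi
    ext U
    constructor
    · rintro ⟨b, hb, hiU, hib⟩
      rcases (memr U b).1 hb with h | h | h
      · exact Or.inl ⟨b, h, hiU, hib⟩
      · exact Or.inr ⟨N, hNi i hi, id, Iso.refl N, U, ⟨b, h, hiU, hib⟩, (img_id fun _ _ => rfl).symm⟩
      · obtain ⟨N', a', h4, h5, W, a, h6, rfl, rfl⟩ := (memS3 U b).1 h
        have hN' : N' ∈ q.mods := ⟨a', h4⟩
        have hW : W ∈ q'.mods := ⟨a, h6⟩
        have hI := hφ N' hN' h5
        obtain ⟨w, hw, hwi⟩ := hiU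
        have hiN' : i ∈ N'.2 := hwi ▸ hI.maps w (hsub W hW hw)
        have h7 : i < a ∧ i < a' := by
          rw [lt_min_iff, lt_min_iff] at hib
          exact ⟨hib.1, hib.2.1⟩
        have h8 : φ N' i = i := hI.toOIso.fix (hq.sym.iso N hN N' hN' h5).1 i hi hiN'
        have h9 : w = i := hI.toOIso.inj (hsub W hW hw) hi (hwi.trans h8.symm)
        subst h9
        exact Or.inr ⟨N', ⟨a', h4, hiN', h7.2⟩, φ N', hI, W, ⟨a, h6, hw, h7.1⟩, rfl⟩
    · rintro (⟨b, hb, hiU, hib⟩ | ⟨N', hN', ψ, hψ, W, hW, rfl⟩)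
      · exact ⟨b, (memr U b).2 (Or.inl hb), hiU, hib⟩
      · obtain ⟨a', ha', hiN', hia'⟩ := hN'
        obtain ⟨a, ha, hiW, hia⟩ := hW
        have hN'm : N' ∈ q.mods := ⟨a', ha'⟩
        have hI := hφ N' hN'm hψ.ht
        have h8 : φ N' i = i := hI.toOIso.fix (hq.sym.iso N hN N' hN'm hψ.ht).1 i hi hiN'
        have h9 : img ψ W = img (φ N') W := img_congr fun x hx =>
          hψ.toOIso.unique hI.toOIso x (hsub W ⟨a, ha⟩ hx)
        refine ⟨min a (min a' (t N')), (memr _ _).2 (Or.inr (Or.inr ((memS3 _ _).2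
          ⟨N', a', ha', hψ.ht, W, a, ha, h9, rfl⟩))), ?_, ?_⟩
        · rw [h9]
          exact ⟨i, hiW, h8⟩
        · rw [lt_min_iff, lt_min_iff]
          exact ⟨hia, hia', (ht N' hN'm hψ.ht i hiN').2 hi⟩
  have hact' : ∀ i, i ∉ N.2 → r.act i = q.act i := by
    intro i hi
    ext U
    constructor
    · rintro ⟨b, hb, hiU, hib⟩
      rcases (memr U b).1 hb with h | h | h
      · exact ⟨b, h, hiU, hib⟩
      · exact (hi (hsub U ⟨b, h⟩ hiU)).elim
      · obtain ⟨N', a', h4, h5, W, a, h6, rfl, rfl⟩ := (memS3 U b).1 h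
        have hN' : N' ∈ q.mods := ⟨a', h4⟩
        have hI := hφ N' hN' h5
        obtain ⟨w, hw, hwi⟩ := hiU
        have hiN' : i ∈ N'.2 := hwi ▸ hI.maps w (hsub W ⟨a, h6⟩ hw)
        rw [lt_min_iff, lt_min_iff] at hib
        exact (hi ((ht N' hN' h5 i hiN').1 hib.2.2)).elim
    · rintro ⟨b, hb, hiU, hib⟩
      exact ⟨b, (memr U b).2 (Or.inl hb), hiU, hib⟩
  refine ⟨r, ⟨?_, ?_, ?_⟩, ⟨?_, ?_, ?_⟩, ⟨?_, ?_, ?_⟩⟩
  · rw [hmods]
    exact sym_amal hq.sym hq'.sym hN hin.1 h1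
  · intro i
    by_cases hi : i ∈ N.2
    · rw [hact i hi]
      exact sym_amal (hq.symi i) (hq'.symi i) (hNi i hi) (fun W hW => hin.1 W (actmods _ _ hW)) (h2 i)
    · rw [hact' i hi]
      exact hq.symi i
  · intro j c d hI U hU
    have hI' : (j, c, d) ∈ q.I ∨ (j, c, d) ∈ q'.I := Finset.mem_union.1 hI
    by_cases hj : j ∈ N.2
    · rw [hact j hj] at hU
      rcases le_or_gt N.1 U.1 with hle | hlt
      · have hUq : U ∈ q.act j := Am.large (hq.symi j) (hNi j hj)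
          (fun W hW => hin.1 W (actmods _ _ hW)) hU hle
        rcases hI' with h | h
        · exact hq.prom j c d h U hUq
        · exact Or.inr ((hin.2 j c d h).2.2.trans_le hle)
      · obtain ⟨N', hN', ψ, hψ, W, hW, rfl⟩ := Am.small (hq.symi j) (hNi j hj)
          (fun W hW => hin.1 W (actmods _ _ hW)) (h2 j) hU hlt
        rcases hI' with h | h
        · rcases hq.prom j c d h N (hNi j hj) with h4 | h4
          · exact Or.inl (hlt.trans h4)
          · rcases lt_or_ge c N.1 with h5 | h5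
            · exact hq'.prom j c d (h3 j c d h hj h5 h4) W hW
            · exact Or.inl (hlt.trans_le h5)
        · exact hq'.prom j c d h W hW
    · rw [hact' j hj] at hU
      rcases hI' with h | h
      · exact hq.prom j c d h U hU
      · exact (hj (hin.2 j c d h).1).elim
  · rintro U ⟨b, hb⟩
    exact ⟨b, (memr U b).2 (Or.inl hb)⟩
  · rintro i U ⟨b, hb, h4⟩
    exact ⟨b, (memr U b).2 (Or.inl hb), h4⟩
  · exact Finset.subset_union_left
  · rintro U ⟨b, hb⟩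
    exact ⟨b, (memr U b).2 (Or.inr (Or.inl hb))⟩
  · rintro i U ⟨b, hb, h4⟩
    exact ⟨b, (memr U b).2 (Or.inr (Or.inl hb)), h4⟩
  · exact Finset.subset_union_right

end Pool.Agent.Lib_helper33.NI
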