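import Pool.Agent.Lib_helper33.NI.Defs

/-!
# Isomorphisms of models
-/

set_option linter.unusedSectionVars false

namespace Pool.Agent.Lib_helper33.NI

open Set Cardinal
open Pool.Agent.Lib_helper27.Q (Om1)

variable {K : Type} [LinearOrder K] [WellFoundedLT K]

/-! ### Order isomorphisms -/

theorem OIso.lt_iff {A B : Set K} {φ : K → K} (h : OIso A B φ) {x y : K} (hx : x ∈ A) (hy : y ∈ A) :
    φ x < φ y ↔ x < y := by
  refine ⟨fun hlt => ?_, h.mono x hx y hy⟩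
  rcases lt_trichotomy x y with h1 | h1 | h1
  · exact h1
  · rw [h1] at hlt
    exact (lt_irrefl _ hlt).elim
  · exact (lt_asymm hlt (h.mono y hy x hx h1)).elim

theorem OIso.inj {A B : Set K} {φ : K → K} (h : OIso A B φ) {x y : K} (hx : x ∈ A) (hy : y ∈ A)
    (he : φ x = φ y) : x = y := by
  rcases lt_trichotomy x y with h1 | h1 | h1
  · exact absurd he (h.mono x hx y hy h1).ne
  · exact h1
  · exact absurd he (h.mono y hy x hx h1).ne'

theorem OIso.injOn {A B : Set K} {φ : K → K} (h : OIso A B φ) : InjOn φ A :=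
  fun _ hx _ hy he => h.inj hx hy he

theorem OIso.image {A B : Set K} {φ : K → K} (h : OIso A B φ) : φ '' A = B := by
  ext y
  constructor
  · rintro ⟨x, hx, rfl⟩
    exact h.maps x hx
  · intro hy
    obtain ⟨x, hx, rfl⟩ := h.surj y hy
    exact ⟨x, hx, rfl⟩

theorem OIso.refl (A : Set K) : OIso A A id :=
  ⟨fun _ h => h, fun y h => ⟨y, h, rfl⟩, fun _ _ _ _ h => h⟩

theorem OIso.congr {A B : Set K} {φ ψ : K → K} (h : OIso A B φ) (he : ∀ x ∈ A, ψ x = φ x) :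
    OIso A B ψ := by
  refine ⟨fun x hx => ?_, fun y hy => ?_, fun x hx y hy hxy => ?_⟩
  · rw [he x hx]
    exact h.maps x hx
  · obtain ⟨x, hx, hxy⟩ := h.surj y hy
    exact ⟨x, hx, (he x hx).trans hxy⟩
  · rw [he x hx, he y hy]
    exact h.mono x hx y hy hxy

theorem OIso.comp {A B C : Set K} {φ ψ : K → K} (h : OIso A B φ) (h' : OIso B C ψ) :
    OIso A C (ψ ∘ φ) := by
  refine ⟨fun x hx => h'.maps _ (h.maps x hx), fun z hz => ?_, fun x hx y hy hxy => ?_⟩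
  · obtain ⟨y, hy, rfl⟩ := h'.surj z hz
    obtain ⟨x, hx, rfl⟩ := h.surj y hy
    exact ⟨x, hx, rfl⟩
  · exact h'.mono _ (h.maps x hx) _ (h.maps y hy) (h.mono x hx y hy hxy)

theorem OIso.restr {A B C : Set K} {φ : K → K} (h : OIso A B φ) (hC : C ⊆ A) :
    OIso C (φ '' C) φ :=
  ⟨fun x hx => ⟨x, hx, rfl⟩, fun _ ⟨x, hx, hxy⟩ => ⟨x, hx, hxy⟩,
    fun x hx y hy => h.mono x (hC hx) y (hC hy)⟩

/-- the inverse -/
theorem OIso.exists_symm {A B : Set K} {φ : K → K} (h : OIso A B φ) :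
    ∃ ψ, OIso B A ψ ∧ (∀ x ∈ A, ψ (φ x) = x) ∧ ∀ y ∈ B, φ (ψ y) = y := by
  classical
  have h1 : ∀ y, ∃ x, y ∈ B → x ∈ A ∧ φ x = y := by
    intro y
    by_cases hy : y ∈ B
    · obtain ⟨x, hx, hxy⟩ := h.surj y hy
      exact ⟨x, fun _ => ⟨hx, hxy⟩⟩
    · exact ⟨y, fun h => (hy h).elim⟩
  choose ψ hψ using h1
  refine ⟨ψ, ⟨fun y hy => (hψ y hy).1, fun x hx => ?_, fun x hx y hy hxy => ?_⟩, fun x hx => ?_,
    fun y hy => (hψ y hy).2⟩
  · have := hψ (φ x) (h.maps x hx)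
    exact ⟨φ x, h.maps x hx, h.inj this.1 hx this.2⟩
  · rw [← h.lt_iff (hψ x hx).1 (hψ y hy).1, (hψ x hx).2, (hψ y hy).2]
    exact hxy
  · have := hψ (φ x) (h.maps x hx)
    exact h.inj this.1 hx this.2

theorem OIso.unique {A B : Set K} {φ ψ : K → K} (h : OIso A B φ) (h' : OIso A B ψ) :
    ∀ x ∈ A, φ x = ψ x := by
  intro x
  induction x using WellFoundedLT.induction with
  | ind x ih =>
    intro hx
    rcases lt_trichotomy (φ x) (ψ x) with h1 | h1 | h1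
    · obtain ⟨z, hz, hz'⟩ := h'.surj (φ x) (h.maps x hx)
      rw [← hz', h'.lt_iff hz hx] at h1
      rw [← ih z h1 hz] at hz'
      exact absurd (h.inj hz hx hz') h1.ne
    · exact h1
    · obtain ⟨z, hz, hz'⟩ := h.surj (ψ x) (h'.maps x hx)
      rw [← hz', h.lt_iff hz hx] at h1
      rw [ih z h1 hz] at hz'
      exact absurd (h'.inj hz hx hz') h1.ne

/-- an order isomorphism is the identity on a common initial segment -/
theorem OIso.fix {A B : Set K} {φ : K → K} (h : OIso A B φ) (hc : Coh A B) :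
    ∀ x ∈ A, x ∈ B → φ x = x := by
  intro x
  induction x using WellFoundedLT.induction with
  | ind x ih =>
    intro hx hxB
    rcases lt_trichotomy (φ x) x with h1 | h1 | h1
    · have h2 := hc.2 x hx hxB (φ x) (h.maps x hx) h1
      have h3 := ih (φ x) h1 h2 (h.maps x hx)
      exact absurd (h.inj h2 hx h3) h1.ne
    · exact h1
    · obtain ⟨z, hz, hz'⟩ := h.surj x hxB
      have h1' : φ z < φ x := by rwa [hz']
      rw [h.lt_iff hz hx] at h1'
      have h2 := hc.1 x hx hxB z hz h1'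
      rw [ih z h1' hz h2] at hz'
      exact absurd hz' h1'.ne

theorem Coh.symm {A B : Set K} (h : Coh A B) : Coh B A :=
  ⟨fun x hx hx' => h.2 x hx' hx, fun x hx hx' => h.1 x hx' hx⟩

theorem Coh.refl (A : Set K) : Coh A A := ⟨fun _ _ _ _ h _ => h, fun _ _ _ _ h _ => h⟩

/-! ### Models -/

variable {e : K → Mod K}

omit [LinearOrder K] [WellFoundedLT K] in
theorem img_img (φ ψ : K → K) (M : Mod K) : img ψ (img φ M) = img (ψ ∘ φ) M := by
  simp [img, image_image]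

omit [LinearOrder K] [WellFoundedLT K] in
theorem img_congr {φ ψ : K → K} {M : Mod K} (h : ∀ x ∈ M.2, φ x = ψ x) : img φ M = img ψ M := by
  unfold img
  rw [image_congr h]

omit [LinearOrder K] [WellFoundedLT K] in
theorem img_id {φ : K → K} {M : Mod K} (h : ∀ x ∈ M.2, φ x = x) : img φ M = M := by
  rw [img_congr (ψ := id) h, img, image_id]

omit [LinearOrder K] [WellFoundedLT K] in
theorem In.sub {M N : Mod K} (h : In e M N) (hN : Good e N) : M.2 ⊆ N.2 := by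
  obtain ⟨ξ, hξ, rfl⟩ := h
  exact (hN.cl ξ hξ).2

omit [LinearOrder K] [WellFoundedLT K] in
theorem In.lt {M N : Mod K} (h : In e M N) (hN : Good e N) : M.1 < N.1 := by
  obtain ⟨ξ, hξ, rfl⟩ := h
  exact (hN.cl ξ hξ).1

omit [LinearOrder K] [WellFoundedLT K] in
theorem In.trans_sub {M N L : Mod K} (h : In e M N) (hN : N.2 ⊆ L.2) : In e M L := by
  obtain ⟨ξ, hξ, rfl⟩ := h
  exact ⟨ξ, hN hξ, rfl⟩

theorem Iso.refl (M : Mod K) : Iso e M M id :=
  ⟨OIso.refl _, rfl, fun _ _ => (img_id fun _ _ => rfl).symm⟩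

theorem Iso.comp {L M N : Mod K} {φ ψ : K → K} (h : Iso e L M φ)
    (h' : Iso e M N ψ) : Iso e L N (ψ ∘ φ) := by
  refine ⟨h.toOIso.comp h'.toOIso, h.ht.trans h'.ht, fun ξ hξ => ?_⟩
  rw [Function.comp_apply, h'.code _ (h.maps ξ hξ), h.code ξ hξ, img_img]

theorem Iso.congr {M N : Mod K} {φ ψ : K → K} (hM : Good e M) (h : Iso e M N φ)
    (he : ∀ x ∈ M.2, ψ x = φ x) : Iso e M N ψ := by
  refine ⟨h.toOIso.congr he, h.ht, fun ξ hξ => ?_⟩
  rw [he ξ hξ, h.code ξ hξ]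
  exact img_congr fun x hx => (he x ((hM.cl ξ hξ).2 hx)).symm

theorem Iso.img_eq {M N : Mod K} {φ : K → K} (h : Iso e M N φ) : img φ M = N := by
  unfold img
  rw [h.toOIso.image, h.ht]

theorem Iso.exists_symm {M N : Mod K} {φ : K → K} (hM : Good e M) (h : Iso e M N φ) :
    ∃ ψ, Iso e N M ψ ∧ (∀ x ∈ M.2, ψ (φ x) = x) ∧ ∀ y ∈ N.2, φ (ψ y) = y := by
  obtain ⟨ψ, h1, h2, h3⟩ := h.toOIso.exists_symm
  refine ⟨ψ, ⟨h1, h.ht.symm, fun η hη => ?_⟩, h2, h3⟩
  have h4 := h.code (ψ η) (h1.maps η hη)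
  rw [h3 η hη] at h4
  rw [h4, img_img]
  refine (img_id fun x hx => ?_).symm
  exact h2 x ((hM.cl _ (h1.maps η hη)).2 hx)

/-- the image of a good submodel is good -/
theorem good_img {M N W : Mod K} {φ : K → K} (h : Iso e M N φ) (hW : Good e W)
    (hWM : W.2 ⊆ M.2) : Good e (img φ W) := by
  refine ⟨hW.cnt.image _, ?_⟩
  rintro _ ⟨ξ, hξ, rfl⟩
  rw [h.code ξ (hWM hξ)]
  exact ⟨(hW.cl ξ hξ).1, image_mono (hW.cl ξ hξ).2⟩

theorem in_img {M N W V : Mod K} {φ : K → K} (h : Iso e M N φ) (hWM : W.2 ⊆ M.2)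
    (hV : In e V W) : In e (img φ V) (img φ W) := by
  obtain ⟨ξ, hξ, rfl⟩ := hV
  exact ⟨φ ξ, ⟨ξ, hξ, rfl⟩, h.code ξ (hWM hξ)⟩

/-- the image of an element of `M` is an element of `N` -/
theorem in_img' {M N V : Mod K} {φ : K → K} (h : Iso e M N φ) (hV : In e V M) :
    In e (img φ V) N := by
  obtain ⟨ξ, hξ, rfl⟩ := hV
  exact ⟨φ ξ, h.maps ξ hξ, h.code ξ hξ⟩

/-- restriction of an isomorphism to a submodel -/
theorem Iso.restr {M N W : Mod K} {φ : K → K} (h : Iso e M N φ) (hWM : W.2 ⊆ M.2) :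
    Iso e W (img φ W) φ :=
  ⟨h.toOIso.restr hWM, rfl, fun ξ hξ => h.code ξ (hWM hξ)⟩

theorem img_inj {A B : Set K} {φ : K → K} (h : OIso A B φ) {V W : Mod K} (hV : V.2 ⊆ A)
    (hW : W.2 ⊆ A) (he : img φ V = img φ W) : V = W := by
  have h1 : (img φ V).1 = (img φ W).1 := by rw [he]
  have h2 : (img φ V).2 = (img φ W).2 := by rw [he]
  refine Prod.ext h1 ?_
  exact (h.injOn.image_eq_image_iff hV hW).1 h2

theorem sym_empty : Sym e ∅ :=
  ⟨fun _ h => h.elim, fun _ h => h.elim, fun _ h => h.elim, fun _ h => h.elim⟩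

end Pool.Agent.Lib_helper33.NI
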