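import Pool.Agent.Lib_helper27.Fml

/-!
# The formulas: C-sequences, guessing, and the types `0^k 1 0 1^k`

`W` is `ω`, `K` is `ω₁`.
-/

namespace Pool.Agent.Lib_helper27.Fml

universe v

variable {U : Type v}

/-- the ordinal `x` is a limit ordinal (`0` is not counted as a limit) -/
def isLimit (x : U) : Fml U := and (ex fun y => mem y x) (ball x fun y => bex x fun z => mem y z)

/-- `x` has no elements -/
def isZero (x : U) : Fml U := all fun y => neg (mem y x)

/-- `c` is a strictly increasing function from `W` to `a` with cofinal range, i.e. the increasing
enumeration of a cofinal subset of the ordinal `a` of order type `W = ω` -/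
def isLadder (W a c : U) : Fml U :=
  and (isFunc c W a)
    (and (all fun m => all fun n => all fun x => all fun y =>
        imp (and (mem m n) (and (app c m x) (app c n y))) (mem x y))
      (ball a fun x => ex fun n => ex fun y => and (app c n y) (mem x y)))

/-- `C` assigns to every limit ordinal `a` in `K` a unique set, and this set is the increasing
enumeration of a cofinal subset of `a` of order type `W = ω` -/
def isCSeq (W K C : U) : Fml U :=
  ball K fun a => imp (isLimit a)
    (and (ex fun c => and (app C a c) (isLadder W a c))
      (all fun c => all fun c' => imp (and (app C a c) (app C a c')) (eq c c')))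

/-- `c` and `d` are increasing sequences of ordinals, `k` is a natural number, and the first
`k + 1` values of `c` and the first `k + 1` values of `d` satisfy
`c(0) < ... < c(k - 1) < d(0) < c(k) < d(1) < ... < d(k)`; that is, the sets
`a = {c(0), ..., c(k)}` and `b = {d(0), ..., d(k)}` are disjoint and `type(a, b) = 0^k 1 0 1^k` -/
def isStar (k c d : U) : Fml U :=
  and (all fun i => all fun z => all fun x => all fun y =>
      imp (and (mem i k) (and (isZero z) (and (app c i x) (app d z y)))) (mem x y))
    (and (all fun z => all fun x => all fun y =>
        imp (and (isZero z) (and (app c k x) (app d z y))) (mem y x))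
      (all fun i => all fun z => all fun x => all fun y =>
        imp (and (or (mem i k) (eq i k)) (and (mem z i) (and (app c k x) (app d i y)))) (mem x y)))

/-- The C-sequence `C` is guessing for the sequence of the types `t_k = 0^k 1 0 1^k`: for every
function `f` from `K = ω₁` to `W = ω` there are limit ordinals `a < b` in `K` and `k` in `W` with
`f(a) = f(b) = k` such that for `n = k + 1 = width(t_k)` the sets `C_a[n]` and `C_b[n]` are disjoint
and `type(C_a[n], C_b[n])` is `t_k` or its opposite, i.e. `type(C_a[n], C_b[n]) = t_k` or
`type(C_b[n], C_a[n]) = t_k`. -/
def isStarGuessing (W K C : U) : Fml U :=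
  all fun f => imp (isFunc f K W)
    (bex K fun a => bex K fun b => bex W fun k => ex fun c => ex fun d =>
      and (and (isLimit a) (and (isLimit b) (mem a b)))
        (and (and (app f a k) (app f b k)) (and (and (app C a c) (app C b d))
          (or (isStar k c d) (isStar k d c)))))

/-- No C-sequence is guessing for the sequence of the types `0^k 1 0 1^k`. -/
def noStarGuessing : Fml U :=
  ex fun W => ex fun K => and (isOmega W) (and (isHartogs W K)
    (all fun C => imp (isCSeq W K C) (neg (isStarGuessing W K C))))

end Pool.Agent.Lib_helper27.Fml
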