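import Pool.Agent.Lib_helper33.NI.Defs
import Pool.Agent.Lib_helper33.NI.Fm
import Pool.Agent.Lib_helper27.Q.Uni
import Pool.Agent.Lib_helper27.Q.Clo
import Pool.Agent.Lib_helper27.V.Chk

/-!
# Blocks CNAME and LIM: the name of a C-sequence
-/

set_option linter.unusedSectionVars false
set_option linter.unusedVariables false

namespace Pool.Agent.Lib_helper33.NI

open Set Cardinal
open Pool.Agent.Lib_helper27.Q (Om1)
open Pool.Agent.Lib_helper27 Pool.Agent.Lib_helper27.V Fml

section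

variable {P : Type} [Preorder P]

/-- `p` forces that the `k`-th element of the `α`-th set of `C` is `v` -/
def cnm_pr (C : Name P) (α : Om1) (k : ℕ) (v : Om1) (p : P) : Prop :=
  Fc p (ex fun c => and (app C (onm P α) c) (app c (onm P k) (onm P v)))

theorem lim_of_forces_pr {p : P} {α : Om1} (h : Fc p (isLimit (onm P α))) : Lim α := by
  constructor
  · obtain ⟨q, hq, y, hy⟩ := (forces_ex.1 h.1).exists
    obtain ⟨r, hr, x, hx, _⟩ := (fmem_onm.1 hy).exists
    exact ⟨x, hx⟩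
  · intro x hx
    obtain ⟨q, hq, z, hz, hz'⟩ :=
      (forces_bex.1 ((forces_ball nf_basic).1 h.2 (onm P x) p le_rfl (onm_mem hx p))).exists
    obtain ⟨r, hr, y, hy, he⟩ := (fmem_onm.1 hz).exists
    exact ⟨y, hy, onm_mem_iff.1 (fmem_congr_right he (fmem_mono hr hz'))⟩

theorem forces_of_lim {α : Om1} (h : Lim α) (p : P) : Fc p (isLimit (onm P α)) := by
  constructor
  · obtain ⟨x, hx⟩ := h.1
    exact forces_ex.2 (Loc.pure fun q _ => ⟨onm P x, onm_mem hx q⟩)
  · refine (forces_ball nf_basic).2 fun y q hq hy => ?_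
    refine forces_bex.2 ?_
    refine (fmem_onm.1 hy).imp ?_
    rintro r hr ⟨x, hx, he⟩
    obtain ⟨z, hz, hxz⟩ := h.2 x hx
    exact ⟨onm P z, onm_mem hz r, fmem_congr_left (feq_symm he) (onm_mem hxz r)⟩

variable {p0 : P} {C : Name P}

theorem cseq_ex (h : Fc p0 (isCSeq (oall P ℕ) (oall P Om1) C)) {p : P} (hp : p ≤ p0) {α : Om1}
    (hα : Lim α) : Loc p fun r => ∃ c, Fc r (app C (onm P α) c) ∧
      Fc r (isLadder (oall P ℕ) (onm P α) c) := by
  have h1 := (forces_imp nf_basic).1 ((forces_ball nf_basic).1 h (onm P α) p hp (onm_mem_oall α p))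
    p le_rfl (forces_of_lim hα p)
  exact forces_ex.1 h1.1

theorem cseq_uniq (h : Fc p0 (isCSeq (oall P ℕ) (oall P Om1) C)) {p : P} (hp : p ≤ p0) {α : Om1}
    (hα : Lim α) {c c' : Name P} (h1 : Fc p (app C (onm P α) c)) (h2 : Fc p (app C (onm P α) c')) :
    feq c c' p := by
  have h3 := (forces_imp nf_basic).1 ((forces_ball nf_basic).1 h (onm P α) p hp (onm_mem_oall α p))
    p le_rfl (forces_of_lim hα p)
  exact (forces_imp nf_basic).1 (h3.2 c c') p le_rfl ⟨h1, h2⟩

theorem fc_app_congr_fn {f g x y : Name P} {p : P} (h : feq f g p) (h' : Fc p (app f x y)) :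
    Fc p (app g x y) := by
  refine forces_bex.2 ((forces_bex.1 h').imp ?_)
  rintro r hr ⟨z, hz, hz'⟩
  exact ⟨z, fmem_congr_right (feq_mono hr h) hz, hz'⟩

theorem fc_dense {φ : Fml (Name P)} {p : P} (h : Loc p fun r => Fc r φ) : Fc p φ :=
  Forces.dense nf_basic h

/-- a decided value is a value of the given function -/
theorem cnm_app (h : Fc p0 (isCSeq (oall P ℕ) (oall P Om1) C)) {p : P} (hp : p ≤ p0) {α : Om1}
    (hα : Lim α) {c : Name P} (h1 : Fc p (app C (onm P α) c)) {k : ℕ} {v : Om1}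
    (h2 : cnm_pr C α k v p) : Fc p (app c (onm P k) (onm P v)) := by
  refine fc_dense ((forces_ex.1 h2).imp ?_)
  rintro r hr ⟨c', h3, h4⟩
  exact fc_app_congr_fn (cseq_uniq h (hr.trans hp) hα h3 (Forces.mono nf_basic hr h1)) h4

theorem cname_of_forces_pr (h : Fc p0 (isCSeq (oall P ℕ) (oall P Om1) C)) :
    CName p0 (cnm_pr C) := by
  refine ⟨?_, ?_, ?_, ?_, ?_, ?_⟩
  · intro α k v p q hq h1
    exact Forces.mono nf_basic hq h1
  · intro α k v w p hp hα h1 h2
    obtain ⟨r, hr, c, hc, hl⟩ := (cseq_ex h hp hα).exists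
    have h3 := cnm_app h (hr.trans hp) hα hc (Forces.mono nf_basic hr h1)
    have h4 := cnm_app h (hr.trans hp) hα hc (Forces.mono nf_basic hr h2)
    exact onm_inj (func_single hl.1 h3 h4)
  · intro α k p hp hα
    obtain ⟨r, hr, c, hc, hl⟩ := (cseq_ex h hp hα).exists
    obtain ⟨s, hs, y, hy, hy'⟩ := (func_total hl.1 (onm_mem_oall k r)).exists
    obtain ⟨t, ht, v, hv, he⟩ := (fmem_onm.1 hy).exists
    refine ⟨t, ht.trans (hs.trans hr), v, forces_ex.2 (Loc.pure fun w hw => ⟨c, ?_, ?_⟩)⟩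
    · exact Forces.mono nf_basic (hw.trans (ht.trans hs)) hc
    · exact Forces.mono nf_basic hw (app_congr' (feq_refl _ _) he (Forces.mono nf_basic ht hy'))
  · intro α k l v w p hp hα hkl h1 h2
    obtain ⟨r, hr, c, hc, hl⟩ := (cseq_ex h hp hα).exists
    have h3 := cnm_app h (hr.trans hp) hα hc (Forces.mono nf_basic hr h1)
    have h4 := cnm_app h (hr.trans hp) hα hc (Forces.mono nf_basic hr h2)
    have h5 := (forces_imp nf_basic).1 (hl.2.1 (onm P k) (onm P l) (onm P v) (onm P w)) r le_rfl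
      ⟨onm_mem hkl r, h3, h4⟩
    exact onm_mem_iff.1 h5
  · intro α k v p hp hα h1
    obtain ⟨r, hr, c, hc, hl⟩ := (cseq_ex h hp hα).exists
    have h3 := cnm_app h (hr.trans hp) hα hc (Forces.mono nf_basic hr h1)
    exact onm_mem_iff.1 (func_dom hl.1 h3).2
  · intro α x p hp hα hx
    obtain ⟨r, hr, c, hc, hl⟩ := (cseq_ex h hp hα).exists
    obtain ⟨s, hs, n, hn⟩ := (forces_ex.1 ((forces_ball nf_basic).1 hl.2.2 (onm P x) r le_rfl
      (onm_mem hx r))).exists
    obtain ⟨t, ht, y, hy, hxy⟩ := (forces_ex.1 hn).exists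
    have hd := func_dom (Forces.mono nf_basic (ht.trans hs) hl.1) hy
    obtain ⟨u, hu, k, hk⟩ := (fmem_oall.1 hd.1).exists
    obtain ⟨w, hw, v, hv, he⟩ := (fmem_onm.1 (fmem_mono hu hd.2)).exists
    refine ⟨w, hw.trans (hu.trans (ht.trans (hs.trans hr))), k, v, ?_, ?_⟩
    · refine forces_ex.2 (Loc.pure fun w' hw' => ⟨c, ?_, ?_⟩)
      · exact Forces.mono nf_basic (hw'.trans (hw.trans (hu.trans (ht.trans hs)))) hc
      · exact Forces.mono nf_basic hw'
          (app_congr' (feq_mono hw hk) he (Forces.mono nf_basic (hw.trans hu) hy))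
    · exact onm_mem_iff.1 (fmem_congr_right he (fmem_mono (hw.trans hu) hxy))

end

end Pool.Agent.Lib_helper33.NI
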