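import Pool.Agent.Lib_helper33.NI.Kcc

/-!
# Closure points
-/

set_option linter.unusedSectionVars false

namespace Pool.Agent.Lib_helper33.NI

open Set Cardinal
open Pool.Agent.Lib_helper27.Q (Om1)

variable {K : Type} [LinearOrder K] [WellFoundedLT K] {e : K → Mod K}

/-- countable subsets of `Om1` are bounded -/
theorem om1_bdd {S : Set Om1} (hS : S.Countable) : ∃ b, ∀ x ∈ S, x < b := by
  have h1 : ¬ IsCofinal S := by
    intro h
    have h2 := Order.cof_le h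
    have h4 : (ℵ₀ : Cardinal.{0}) < (aleph 1 : Cardinal.{0}).ord.cof := by
      rw [isRegular_aleph_one.cof_ord]
      exact aleph0_lt_aleph_one
    rw [← Ordinal.cof_toType] at h4
    exact absurd (h2.trans hS.le_aleph0) (not_le.2 h4)
  rw [not_isCofinal_iff] at h1
  obtain ⟨ζ, hζ⟩ := h1
  exact ⟨ζ, fun x hx => hζ x hx⟩

theorem mk_om1_Iio (x : Om1) : #(Iio x) ≤ ℵ₀ := by
  have h := mk_Iio_lt (α := Om1) x (by simp)
  rw [Pool.Agent.Lib_helper27.Q.mk_om1] at h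
  have h1 : (aleph 1 : Cardinal.{0}) = Order.succ ℵ₀ := by simp
  exact Order.lt_succ_iff.1 (h.trans_eq h1)

theorem om1_Iio_countable (x : Om1) : (Iio x).Countable :=
  le_aleph0_iff_set_countable.1 (mk_om1_Iio x)

/-- CLZ -/
theorem exists_closed (hK : Fra e) {τ : Type} (hτ : #τ ≤ 𝔠) (F : Set K → τ → K) :
    ∃ z : K, ∀ Y : Set K, Y.Countable → (∀ y ∈ Y, y < z) → ∀ t, F Y t ≤ z := by
  classical
  -- one step
  have hstep : ∀ z : K, ∃ b, z < b ∧ ∀ Y : Set K, Y.Countable → (∀ y ∈ Y, y < z) → ∀ t, F Y t < b := by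
    intro z
    obtain ⟨b, hb⟩ := hK.bdd (insert z (range fun w : {Y : Set K // Y.Countable ∧ ∀ y ∈ Y, y < z} × τ =>
      F w.1.1 w.2)) (by
        refine (mk_insert_le).trans (add_le_of_le aleph0_le_c ?_ (one_le_aleph0.trans aleph0_le_c))
        refine mk_range_le.trans ?_
        rw [mk_prod, lift_id, lift_id]
        exact mul_le_of_le aleph0_le_c (mk_countable_sub hK z) hτ)
    exact ⟨b, hb z (mem_insert _ _), fun Y hY hYz t =>
      hb _ (mem_insert_of_mem _ ⟨(⟨Y, hY, hYz⟩, t), rfl⟩)⟩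
  choose s hs1 hs2 using hstep
  -- bounds of countable families
  have hbd : ∀ (ν : Om1) (f : Iio ν → K), ∃ b, ∀ μ, s (f μ) < b := by
    intro ν f
    obtain ⟨b, hb⟩ := hK.bdd (range fun μ => s (f μ))
      (mk_range_le.trans ((mk_om1_Iio ν).trans aleph0_le_c))
    exact ⟨b, fun μ => hb _ ⟨μ, rfl⟩⟩
  choose B hB using hbd
  let x : Om1 → K := (wellFounded_lt (α := Om1)).fix fun ν ih => B ν fun μ => ih μ.1 μ.2
  have hx : ∀ ν, x ν = B ν fun μ => x μ.1 := by
    intro ν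
    simp only [x]
    rw [WellFounded.fix_eq]
  have hx2 : ∀ μ ν, μ < ν → s (x μ) < x ν := by
    intro μ ν h
    rw [hx ν]
    exact hB ν (fun μ => x μ.1) ⟨μ, h⟩
  -- the least upper bound
  have hne : {z : K | ∀ ν, x ν < z}.Nonempty := by
    obtain ⟨b, hb⟩ := hK.bdd (range x) (mk_range_le.trans om1_le_c)
    exact ⟨b, fun ν => hb _ ⟨ν, rfl⟩⟩
  set z := (wellFounded_lt (α := K)).min _ hne with hz
  have hz1 : ∀ ν, x ν < z := (wellFounded_lt (α := K)).min_mem _ hne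
  have hz2 : ∀ y < z, ∃ ν, y ≤ x ν := by
    intro y hy
    by_contra hcon
    push Not at hcon
    exact (wellFounded_lt (α := K)).not_lt_min {z : K | ∀ ν, x ν < z} (x := y) hcon hy
  refine ⟨z, fun Y hY hYz t => ?_⟩
  have h1 : ∀ y : Y, ∃ ν, y.1 ≤ x ν := fun y => hz2 y.1 (hYz y.1 y.2)
  choose ν hν using h1
  have : Countable Y := hY.to_subtype
  obtain ⟨μ, hμ⟩ := om1_bdd (countable_range ν)
  have h2 : ∀ y ∈ Y, y < x μ := by
    intro y hy
    exact (hν ⟨y, hy⟩).trans_lt ((hs1 _).trans (hx2 _ _ (hμ _ ⟨⟨y, hy⟩, rfl⟩)))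
  obtain ⟨μ', hμ'⟩ := om1_bdd (countable_singleton μ)
  exact (((hs2 (x μ) Y hY h2 t).trans (hx2 μ μ' (hμ' μ rfl))).trans (hz1 μ')).le

end Pool.Agent.Lib_helper33.NI
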