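import Pool.Agent.Lib_helper33.NI.Basic

/-! Blocks ADDN, ADDI, RES, GRAFT (helper76). -/

set_option linter.unusedSectionVars false

namespace Pool.Agent.Lib_helper33.NI.H76

open Set Cardinal
open Pool.Agent.Lib_helper27.Q (Om1)

variable {K : Type} [LinearOrder K] [WellFoundedLT K] {e : K → Mod K}

theorem sym_insert {S : Set (Mod K)} {N : Mod K} (hS : Sym e S) (hN : Good e N)
    (hin : ∀ M ∈ S, In e M N) : Sym e (insert N S) := by
  have hlt : ∀ M ∈ S, M.1 < N.1 := fun M hM => (hin M hM).lt hN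
  refine ⟨?_, ?_, ?_, ?_⟩
  · rintro M (rfl | hM)
    · exact hN
    · exact hS.good M hM
  · rintro M (rfl | hM) N' (rfl | hN') hht
    · exact ⟨Coh.refl _, id, Iso.refl _⟩
    · exact absurd hht (hlt N' hN').ne'
    · exact absurd hht (hlt M hM).ne
    · exact hS.iso M hM N' hN' hht
  · rintro M (rfl | hM) N' hN' φ hφ W hW hWM
    · rcases hN' with rfl | hN'
      · have hid : ∀ x ∈ N'.2, φ x = id x := hφ.toOIso.unique (OIso.refl _)
        have hsub := hWM.sub hN
        rw [img_id fun x hx => hid x (hsub hx)]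
        exact hW
      · exact absurd hφ.ht (hlt N' hN').ne'
    · rcases hN' with rfl | hN'
      · exact absurd hφ.ht (hlt M hM).ne
      · rcases hW with rfl | hW
        · exact absurd ((hWM.lt (hS.good M hM)).trans (hlt M hM)) (lt_irrefl _)
        · exact Or.inr (hS.cop M hM N' hN' φ hφ W hW hWM)
  · rintro M hM N' (rfl | hN') hht
    · rcases hM with rfl | hM
      · exact absurd hht (lt_irrefl _)
      · exact ⟨N', Or.inl rfl, rfl, hin M hM⟩
    · rcases hM with rfl | hM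
      · exact absurd (hht.trans (hlt N' hN')) (lt_irrefl _)
      · obtain ⟨N'', h, h'⟩ := hS.up M hM N' hN' hht
        exact ⟨N'', Or.inr h, h'⟩

/-- ADDN -/
theorem exists_addN {p : Pre K} {N : Mod K} (hp : IsCond e p) (hN : Good e N)
    (hin : Inside e p N) :
    ∃ q, IsCond e q ∧ q.Le p ∧ N ∈ q.mods ∧ ∀ i ∈ N.2, N ∈ q.act i := by
  classical
  set q : Pre K := ⟨insert (N, ⊤) p.S, p.I⟩ with hq
  have hm : q.mods = insert N p.mods := by
    ext M
    constructor
    · rintro ⟨a, ha⟩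
      rw [hq] at ha
      rcases Finset.mem_insert.1 ha with h | h
      · exact Or.inl (congrArg Prod.fst h)
      · exact Or.inr ⟨a, h⟩
    · rintro (rfl | ⟨a, ha⟩)
      · exact ⟨⊤, Finset.mem_insert_self _ _⟩
      · exact ⟨a, Finset.mem_insert_of_mem ha⟩
  have ha1 : ∀ i ∈ N.2, q.act i = insert N (p.act i) := by
    intro i hi
    ext M
    constructor
    · rintro ⟨a, ha, hiM, hia⟩
      rcases Finset.mem_insert.1 ha with h | h
      · exact Or.inl (congrArg Prod.fst h)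
      · exact Or.inr ⟨a, h, hiM, hia⟩
    · rintro (rfl | ⟨a, ha, hiM, hia⟩)
      · exact ⟨⊤, Finset.mem_insert_self _ _, hi, WithTop.coe_lt_top i⟩
      · exact ⟨a, Finset.mem_insert_of_mem ha, hiM, hia⟩
  have ha2 : ∀ i, i ∉ N.2 → q.act i = p.act i := by
    intro i hi
    ext M
    constructor
    · rintro ⟨a, ha, hiM, hia⟩
      rcases Finset.mem_insert.1 ha with h | h
      · have : M = N := congrArg Prod.fst h
        rw [this] at hiM
        exact absurd hiM hi
      · exact ⟨a, h, hiM, hia⟩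
    · rintro ⟨a, ha, hiM, hia⟩
      exact ⟨a, Finset.mem_insert_of_mem ha, hiM, hia⟩
  have hact : ∀ i, p.act i ⊆ p.mods := fun i M ⟨a, ha, _⟩ => ⟨a, ha⟩
  refine ⟨q, ⟨?_, ?_, ?_⟩, ⟨?_, ?_, ?_⟩, ?_, ?_⟩
  · rw [hm]
    exact sym_insert hp.sym hN hin.1
  · intro i
    by_cases hi : i ∈ N.2
    · rw [ha1 i hi]
      exact sym_insert (hp.symi i) hN fun M hM => hin.1 M (hact i hM)
    · rw [ha2 i hi]
      exact hp.symi i
  · intro j c d hj M hM
    have hjp : (j, c, d) ∈ p.I := hj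
    obtain ⟨h1, h2, h3⟩ := hin.2 j c d hjp
    rw [ha1 j h1] at hM
    rcases hM with rfl | hM
    · exact Or.inr h3
    · exact hp.prom j c d hjp M hM
  · rw [hm]
    exact subset_insert _ _
  · intro i
    by_cases hi : i ∈ N.2
    · rw [ha1 i hi]
      exact subset_insert _ _
    · rw [ha2 i hi]
  · exact subset_rfl
  · rw [hm]
    exact mem_insert _ _
  · intro i hi
    rw [ha1 i hi]
    exact mem_insert _ _

/-- ADDI -/
theorem exists_addI {p : Pre K} {j : K} {c d : Om1} (hp : IsCond e p)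
    (h : ∀ M ∈ p.act j, M.1 < c ∨ d < M.1) :
    ∃ q, IsCond e q ∧ q.Le p ∧ (j, c, d) ∈ q.I := by
  classical
  refine ⟨⟨p.S, insert (j, c, d) p.I⟩, ⟨hp.sym, hp.symi, ?_⟩,
    ⟨subset_rfl, fun _ => subset_rfl, Finset.subset_insert _ _⟩, Finset.mem_insert_self _ _⟩
  intro j' c' d' hj M hM
  rcases Finset.mem_insert.1 hj with h' | h'
  · obtain ⟨rfl, h2⟩ := Prod.ext_iff.1 h'
    obtain ⟨rfl, rfl⟩ := Prod.ext_iff.1 h2
    exact h M hM
  · exact hp.prom j' c' d' h' M hM

theorem res_mods (γ : K) (p : Pre K) : (res γ p).mods = p.mods := by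
  classical
  ext M
  constructor
  · rintro ⟨a, ha⟩
    unfold res at ha
    obtain ⟨z, hz, hz'⟩ := Finset.mem_image.1 ha
    have : z.1 = M := congrArg Prod.fst hz'
    exact ⟨z.2, by rw [← this]; exact hz⟩
  · rintro ⟨a, ha⟩
    exact ⟨min a (γ : WithTop K), Finset.mem_image.2 ⟨(M, a), ha, rfl⟩⟩

theorem res_mem_act (γ : K) (p : Pre K) (i : K) (M : Mod K) :
    M ∈ (res γ p).act i ↔ M ∈ p.act i ∧ i < γ := by
  classical
  constructor
  · rintro ⟨a, ha, hiM, hia⟩
    unfold res at ha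
    obtain ⟨z, hz, hz'⟩ := Finset.mem_image.1 ha
    have h1 : z.1 = M := congrArg Prod.fst hz'
    have h2 : min z.2 (γ : WithTop K) = a := congrArg Prod.snd hz'
    rw [← h2, lt_min_iff] at hia
    exact ⟨⟨z.2, by rw [← h1]; exact hz, hiM, hia.1⟩, WithTop.coe_lt_coe.1 hia.2⟩
  · rintro ⟨⟨a, ha, hiM, hia⟩, hiγ⟩
    exact ⟨min a (γ : WithTop K), Finset.mem_image.2 ⟨(M, a), ha, rfl⟩, hiM,
      lt_min hia (WithTop.coe_lt_coe.2 hiγ)⟩

theorem res_act_lt {γ : K} (p : Pre K) {i : K} (hi : i < γ) : (res γ p).act i = p.act i := by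
  ext M
  rw [res_mem_act]
  exact ⟨fun h => h.1, fun h => ⟨h, hi⟩⟩

theorem res_act_ge {γ : K} (p : Pre K) {i : K} (hi : ¬ i < γ) : (res γ p).act i = ∅ := by
  ext M
  rw [res_mem_act]
  exact ⟨fun h => (hi h.2).elim, fun h => h.elim⟩

theorem res_mem_I (γ : K) (p : Pre K) (z : K × Om1 × Om1) :
    z ∈ (res γ p).I ↔ z ∈ p.I ∧ z.1 < γ := by
  classical
  unfold res
  simp only [Finset.mem_filter]

/-- RES -/
theorem res_cond {p : Pre K} (hp : IsCond e p) (γ : K) : IsCond e (res γ p) := by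
  refine ⟨?_, ?_, ?_⟩
  · rw [res_mods]
    exact hp.sym
  · intro i
    by_cases hi : i < γ
    · rw [res_act_lt p hi]
      exact hp.symi i
    · rw [res_act_ge p hi]
      exact sym_empty
  · intro j c d hj M hM
    exact hp.prom j c d ((res_mem_I γ p _).1 hj).1 M ((res_mem_act γ p j M).1 hM).1

/-- RES2 -/
theorem res_le {γ : K} {p q : Pre K} (h : q.Le p) (hp : Below γ p) : (res γ q).Le p := by
  refine ⟨?_, ?_, ?_⟩
  · rw [res_mods]
    exact h.1
  · intro i M hM
    rw [res_mem_act]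
    refine ⟨h.2.1 i hM, hp i ?_⟩
    obtain ⟨a, ha, hiM, _⟩ := hM
    exact Or.inl ⟨M, ⟨a, ha⟩, hiM⟩
  · intro z hz
    rw [res_mem_I]
    exact ⟨h.2.2 hz, hp z.1 (Or.inr ⟨z.2.1, z.2.2, hz⟩)⟩

/-- GRAFT -/
theorem exists_graft {γ : K} {p q : Pre K} (hp : IsCond e p) (hq : IsCond e q)
    (h : q.Le (res γ p)) : ∃ r, IsCond e r ∧ r.Le p ∧ r.Le (res γ q) ∧ r.act γ = p.act γ := by
  classical
  set r : Pre K := ⟨(res γ q).S ∪ p.S, (res γ q).I ∪ p.I⟩ with hr
  have hpm : p.mods ⊆ q.mods := by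
    have := h.1
    rwa [res_mods] at this
  have hpa : ∀ i, i < γ → p.act i ⊆ q.act i := by
    intro i hi
    have := h.2.1 i
    rwa [res_act_lt p hi] at this
  have hm' : r.mods = (res γ q).mods ∪ p.mods := by
    ext M
    constructor
    · rintro ⟨a, ha⟩
      rcases Finset.mem_union.1 ha with h | h
      · exact Or.inl ⟨a, h⟩
      · exact Or.inr ⟨a, h⟩
    · rintro (⟨a, ha⟩ | ⟨a, ha⟩)
      · exact ⟨a, Finset.mem_union_left _ ha⟩
      · exact ⟨a, Finset.mem_union_right _ ha⟩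
  have ha' : ∀ i, r.act i = (res γ q).act i ∪ p.act i := by
    intro i
    ext M
    constructor
    · rintro ⟨a, ha, hiM, hia⟩
      rcases Finset.mem_union.1 ha with h | h
      · exact Or.inl ⟨a, h, hiM, hia⟩
      · exact Or.inr ⟨a, h, hiM, hia⟩
    · rintro (⟨a, ha, hiM, hia⟩ | ⟨a, ha, hiM, hia⟩)
      · exact ⟨a, Finset.mem_union_left _ ha, hiM, hia⟩
      · exact ⟨a, Finset.mem_union_right _ ha, hiM, hia⟩
  have hm : r.mods = q.mods := by
    rw [hm', res_mods, union_eq_left]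
    exact hpm
  have ha1 : ∀ i, i < γ → r.act i = q.act i := by
    intro i hi
    rw [ha' i, res_act_lt q hi, union_eq_left]
    exact hpa i hi
  have ha2 : ∀ i, ¬ i < γ → r.act i = p.act i := by
    intro i hi
    rw [ha' i, res_act_ge q hi, empty_union]
  refine ⟨r, ⟨?_, ?_, ?_⟩, ⟨?_, ?_, ?_⟩, ⟨?_, ?_, ?_⟩, ?_⟩
  · rw [hm]
    exact hq.sym
  · intro i
    by_cases hi : i < γ
    · rw [ha1 i hi]
      exact hq.symi i
    · rw [ha2 i hi]
      exact hp.symi i
  · intro j c d hj M hM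
    rcases Finset.mem_union.1 hj with hj | hj
    · rw [res_mem_I] at hj
      rw [ha1 j hj.2] at hM
      exact hq.prom j c d hj.1 M hM
    · by_cases hjγ : j < γ
      · rw [ha1 j hjγ] at hM
        exact hq.prom j c d (h.2.2 ((res_mem_I γ p _).2 ⟨hj, hjγ⟩)) M hM
      · rw [ha2 j hjγ] at hM
        exact hp.prom j c d hj M hM
  · rw [hm]
    exact hpm
  · intro i
    rw [ha' i]
    exact subset_union_right
  · exact Finset.subset_union_right
  · rw [hm, res_mods]
  · intro i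
    rw [ha' i]
    exact subset_union_left
  · exact Finset.subset_union_left
  · exact ha2 γ (lt_irrefl γ)

end Pool.Agent.Lib_helper33.NI.H76
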