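import Pool.Agent.Lib_helper27.Q.Comb

/-!
# Symmetric systems and the poset

`K` is a well-order (of cardinality the successor of the continuum), and `e ξ` (`ξ` in `K`) is a
list of all pairs `(δ, A)` where `δ` is a countable ordinal and `A` is a countable subset of `K`.
-/

namespace Pool.Agent.Lib_helper33.NI

open Set Cardinal
open Pool.Agent.Lib_helper27.Q (Om1)

/-- A model: a countable ordinal (the height) and a set of points. -/
abbrev Mod (K : Type) : Type := Om1 × Set K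

/-- the image of a model -/
def img {K : Type} (φ : K → K) (M : Mod K) : Mod K := (M.1, φ '' M.2)

section

variable {K : Type} [LinearOrder K]

/-- `φ` is an order isomorphism from `A` onto `B`. -/
structure OIso (A B : Set K) (φ : K → K) : Prop where
  maps : ∀ x ∈ A, φ x ∈ B
  surj : ∀ y ∈ B, ∃ x ∈ A, φ x = y
  mono : ∀ x ∈ A, ∀ y ∈ A, x < y → φ x < φ y

/-- `A ∩ B` is an initial segment of `A` and of `B`. -/
def Coh (A B : Set K) : Prop :=
  (∀ x ∈ A, x ∈ B → ∀ y ∈ A, y < x → y ∈ B) ∧ (∀ x ∈ A, x ∈ B → ∀ y ∈ B, y < x → y ∈ A)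

variable (e : K → Mod K)

omit [LinearOrder K] in
/-- `M` is a good model. -/
structure Good (M : Mod K) : Prop where
  cnt : M.2.Countable
  cl : ∀ ξ ∈ M.2, (e ξ).1 < M.1 ∧ (e ξ).2 ⊆ M.2

/-- `M` belongs to `N`: `M` has a code in `N`. -/
def In (M N : Mod K) : Prop := ∃ ξ ∈ N.2, e ξ = M

/-- `φ` is an isomorphism from `M` to `N`. -/
structure Iso (M N : Mod K) (φ : K → K) : Prop extends OIso M.2 N.2 φ where
  ht : M.1 = N.1
  code : ∀ ξ ∈ M.2, e (φ ξ) = img φ (e ξ)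

/-- `S` is a symmetric system of models. -/
structure Sym (S : Set (Mod K)) : Prop where
  good : ∀ M ∈ S, Good e M
  iso : ∀ M ∈ S, ∀ N ∈ S, M.1 = N.1 → Coh M.2 N.2 ∧ ∃ φ, Iso e M N φ
  cop : ∀ M ∈ S, ∀ N ∈ S, ∀ φ, Iso e M N φ → ∀ W ∈ S, In e W M → img φ W ∈ S
  up : ∀ M ∈ S, ∀ N ∈ S, M.1 < N.1 → ∃ N' ∈ S, N'.1 = N.1 ∧ In e M N'

omit [LinearOrder K] in
/-- Finite data: a finite set of pairs (model, marker), and a finite set of promises `(j, c, d)`
(no model active at `j` will have its height in `[c, d]`). -/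
structure Pre (K : Type) : Type where
  S : Finset (Mod K × WithTop K)
  I : Finset (K × Om1 × Om1)

/-- the models of `p` -/
def Pre.mods {K : Type} (p : Pre K) : Set (Mod K) := {M | ∃ a, (M, a) ∈ p.S}

/-- the models of `p` which are active at `i` -/
def Pre.act (p : Pre K) (i : K) : Set (Mod K) :=
  {M | ∃ a, (M, a) ∈ p.S ∧ i ∈ M.2 ∧ (i : WithTop K) < a}

/-- `q` is stronger than `p` -/
def Pre.Le (q p : Pre K) : Prop :=
  p.mods ⊆ q.mods ∧ (∀ i, p.act i ⊆ q.act i) ∧ p.I ⊆ q.I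

/-- Conditions. -/
structure IsCond (p : Pre K) : Prop where
  sym : Sym e p.mods
  symi : ∀ i, Sym e (p.act i)
  prom : ∀ j c d, (j, c, d) ∈ p.I → ∀ M ∈ p.act j, M.1 < c ∨ d < M.1

/-- The poset. -/
def Pc : Type := {p : Pre K // IsCond e p}

theorem Pre.Le.refl (p : Pre K) : p.Le p := ⟨subset_rfl, fun _ => subset_rfl, subset_rfl⟩

theorem Pre.Le.trans {r q p : Pre K} (h : r.Le q) (h' : q.Le p) : r.Le p :=
  ⟨h'.1.trans h.1, fun i => (h'.2.1 i).trans (h.2.1 i), h'.2.2.trans h.2.2⟩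

instance : Preorder (Pc e) where
  le q p := q.1.Le p.1
  le_refl p := Pre.Le.refl _
  le_trans _ _ _ h h' := Pre.Le.trans h h'

/-- all models and promises of `p` are in the model `N` -/
def Inside (p : Pre K) (N : Mod K) : Prop :=
  (∀ M ∈ p.mods, In e M N) ∧ ∀ j c d, (j, c, d) ∈ p.I → j ∈ N.2 ∧ c < N.1 ∧ d < N.1

/-- the markers of `p` are in the model `N` -/
def MarkIn (p : Pre K) (N : Mod K) : Prop :=
  ∀ M a, (M, a) ∈ p.S → a = ⊤ ∨ ∃ x ∈ N.2, a = (x : WithTop K)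

/-- the points used by `p` -/
def supp (p : Pre K) : Set K := {x | (∃ M ∈ p.mods, x ∈ M.2) ∨ ∃ c d, (x, c, d) ∈ p.I}

/-- The properties of `K` and `e`. -/
structure Fra : Prop where
  seg : ∀ x : K, #(Iio x) ≤ 𝔠
  bdd : ∀ S : Set K, #S ≤ 𝔠 → ∃ b, ∀ x ∈ S, x < b
  cnt : ∀ x, (e x).2.Countable
  onto : ∀ M : Mod K, M.2.Countable → ∃ x, e x = M

/-- all of `p` is below `γ` -/
def Below (γ : K) (p : Pre K) : Prop := ∀ x ∈ supp p, x < γ

open Classical in
/-- the restriction of `p` to `γ` -/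
noncomputable def res (γ : K) (p : Pre K) : Pre K where
  S := p.S.image fun z => (z.1, min z.2 (γ : WithTop K))
  I := p.I.filter fun z => z.1 < γ

/-- `α` is a limit -/
def Lim (α : Om1) : Prop := (∃ x, x < α) ∧ ∀ x < α, ∃ y < α, x < y

/-- `g δ` is an injection from the predecessors of `δ` to the natural numbers -/
def GInj (g : Om1 → Om1 → ℕ) : Prop := ∀ δ, ∀ x < δ, ∀ y < δ, g δ x = g δ y → x = y

/-- `p` decides that the value of the `γ`-th coloring at `z.1` is `z.2` -/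
def JQ (g : Om1 → Om1 → ℕ) (γ : K) (z : Om1 × ℕ) (p : Pc e) : Prop :=
  ∃ δ, z.1 < δ ∧ (∃ M ∈ p.1.act γ, M.1 = δ) ∧
    (∀ q ≤ p, ∀ M ∈ q.1.act γ, ¬ (z.1 < M.1 ∧ M.1 < δ)) ∧ g δ z.1 = z.2

end

/-- the color of `k` -/
def kap (k : ℕ) : ℕ := (Nat.unpair ((k - 1) / 2)).1

/-- `c α k v p` says that `p` decides that the `k`-th element of the `α`-th set of a fixed
C-sequence is `v` -/
structure CName {P : Type} [Preorder P] (p0 : P) (c : Om1 → ℕ → Om1 → P → Prop) : Prop where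
  down : ∀ α k v p q, q ≤ p → c α k v p → c α k v q
  uniq : ∀ α k v w p, p ≤ p0 → Lim α → c α k v p → c α k w p → v = w
  tot : ∀ α k p, p ≤ p0 → Lim α → ∃ q ≤ p, ∃ v, c α k v q
  mono : ∀ α k l v w p, p ≤ p0 → Lim α → k < l → c α k v p → c α l w p → v < w
  lt : ∀ α k v p, p ≤ p0 → Lim α → c α k v p → v < α
  cof : ∀ α x p, p ≤ p0 → Lim α → x < α → ∃ q ≤ p, ∃ k v, c α k v q ∧ x < v

/-- `p` knows that `k` is a good color of `α` -/
def PSI {K : Type} [LinearOrder K] (e : K → Mod K) (g : Om1 → Om1 → ℕ) (γ : K)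
    (c : Om1 → ℕ → Om1 → Pc e → Prop) (α : Om1) (k : ℕ) (p : Pc e) : Prop :=
  1 ≤ k ∧ ∃ x₀ u v, c α 0 x₀ p ∧ c α k u p ∧ c α (k - 1) v p ∧ JQ e g γ (x₀, kap k) p ∧
    ∀ y, v < y → y < u → ∀ r ≤ p, ¬ JQ e g γ (y, kap k) r

/-- the part of properness which we need -/
def Proper' (P : Type) [Preorder P] : Prop :=
  ∀ (D : ℕ → Set P) (v : ℕ → P → Om1), (∀ n p, ∃ q ≤ p, q ∈ D n) → ∀ p, ∃ q ≤ p, ∃ δ : Om1,
    ∀ n, ∀ r ≤ q, ∃ s ≤ r, ∃ t ∈ D n, s ≤ t ∧ v n t < δ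

end Pool.Agent.Lib_helper33.NI
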