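import Pool.Agent.Lib_helper33.NI.Clz

/-!
# Existence of the frame
-/

set_option linter.unusedSectionVars false

namespace Pool.Agent.Lib_helper33.NI

open Set Cardinal
open Pool.Agent.Lib_helper27.Q (Om1)

/-- GINJ -/
theorem exists_ginj : ∃ g : Om1 → Om1 → ℕ, GInj g := by
  have h : ∀ δ : Om1, ∃ f : Om1 → ℕ, ∀ x < δ, ∀ y < δ, f x = f y → x = y := by
    intro δ
    obtain ⟨f, hf⟩ := Set.countable_iff_exists_injOn.1 (om1_Iio_countable δ)
    exact ⟨f, fun x hx y hy h => hf hx hy h⟩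
  choose g hg using h
  exact ⟨g, hg⟩

/-- a well-order of type the initial ordinal of the successor of the continuum -/
abbrev Kc : Type := (Order.succ (𝔠 : Cardinal.{0})).ord.ToType

theorem mk_kc : #Kc = Order.succ (𝔠 : Cardinal.{0}) := by simp

theorem kc_seg (x : Kc) : #(Iio x) ≤ 𝔠 := by
  have h := mk_Iio_lt (α := Kc) x (by simp)
  rw [mk_kc] at h
  exact Order.lt_succ_iff.1 h

theorem kc_bdd (S : Set Kc) (hS : #S ≤ 𝔠) : ∃ b, ∀ x ∈ S, x < b := by
  have h1 : ¬ IsCofinal S := by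
    intro h
    have h2 := Order.cof_le h
    have h4 : (𝔠 : Cardinal.{0}) < (Order.succ (𝔠 : Cardinal.{0})).ord.cof := by
      rw [(isRegular_succ aleph0_le_c).cof_ord]
      exact Order.lt_succ _
    rw [← Ordinal.cof_toType] at h4
    exact absurd (h2.trans hS) (not_le.2 h4)
  rw [not_isCofinal_iff] at h1
  obtain ⟨ζ, hζ⟩ := h1
  exact ⟨ζ, fun x hx => hζ x hx⟩

theorem mk_seq : #(ℕ → Kc) ≤ #Kc := by
  classical
  have h1 : ∀ f : ℕ → Kc, ∃ b, ∀ n, f n < b := by
    intro f
    obtain ⟨b, hb⟩ := kc_bdd (range f) (mk_range_le.trans (by rw [mk_nat]; exact aleph0_le_c))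
    exact ⟨b, fun n => hb _ ⟨n, rfl⟩⟩
  choose b hb using h1
  let F : (ℕ → Kc) → Σ z : Kc, (ℕ → Iio z) := fun f => ⟨b f, fun n => ⟨f n, hb f n⟩⟩
  have hF : Function.Injective F := by
    intro f g h
    have h1 : b f = b g := congrArg Sigma.fst h
    funext n
    have h2 : ∀ (z w : Σ z : Kc, (ℕ → Iio z)), z = w → (z.2 n).1 = (w.2 n).1 := by
      rintro z w rfl
      rfl
    exact h2 _ _ h
  refine (mk_le_of_injective hF).trans ?_
  rw [mk_sigma]
  refine (sum_le_sum _ (fun _ => 𝔠) fun z => ?_).trans ?_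
  · rw [← power_def, mk_nat]
    calc #(Iio z) ^ (ℵ₀ : Cardinal) ≤ 𝔠 ^ (ℵ₀ : Cardinal) := power_le_power_right (kc_seg z)
      _ = 𝔠 := continuum_power_aleph0
  · rw [sum_const, lift_id, lift_id, mk_kc]
    exact mul_le_of_le (aleph0_le_c.trans (Order.le_succ _)) le_rfl (Order.le_succ _)

theorem exists_code : ∃ e : Kc → Mod Kc, Fra e := by
  classical
  let T : Type := Om1 × {A : Set Kc // A.Countable}
  obtain ⟨o⟩ : Nonempty Om1 := inferInstance
  have hT : #T ≤ #Kc := by
    have h1 : #{A : Set Kc // A.Countable} ≤ #(Option (ℕ → Kc)) := by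
      refine mk_le_of_surjective (f := fun w => match w with
        | none => ⟨∅, countable_empty⟩
        | some f => ⟨range f, countable_range f⟩) ?_
      rintro ⟨A, hA⟩
      by_cases h : A.Nonempty
      · obtain ⟨f, hf⟩ := hA.exists_eq_range h
        exact ⟨some f, Subtype.ext hf.symm⟩
      · rw [not_nonempty_iff_eq_empty] at h
        exact ⟨none, Subtype.ext h.symm⟩
    have h2 : ℵ₀ ≤ #Kc := by
      rw [mk_kc]
      exact aleph0_le_c.trans (Order.le_succ _)
    rw [mk_prod, lift_id, lift_id]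
    refine mul_le_of_le h2 (om1_le_c.trans ?_) (h1.trans ?_)
    · rw [mk_kc]
      exact Order.le_succ _
    · rw [mk_option]
      exact add_le_of_le h2 mk_seq (one_le_aleph0.trans h2)
  have hne : Nonempty T := ⟨(o, ⟨∅, countable_empty⟩)⟩
  rw [Cardinal.le_def] at hT
  obtain ⟨i⟩ := hT
  let e : Kc → Mod Kc := fun x => ((Function.invFun i x).1, (Function.invFun i x).2.1)
  refine ⟨e, kc_seg, kc_bdd, fun x => (Function.invFun i x).2.2, ?_⟩
  rintro ⟨δ, A⟩ hA
  refine ⟨i (δ, ⟨A, hA⟩), ?_⟩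
  simp only [e]
  rw [Function.leftInverse_invFun i.injective]

/-- FRAME -/
theorem exists_fra : ∃ (K : Type) (_ : LinearOrder K) (_ : WellFoundedLT K) (e : K → Mod K),
    Fra e := by
  obtain ⟨e, he⟩ := exists_code
  exact ⟨Kc, inferInstance, inferInstance, e, he⟩

end Pool.Agent.Lib_helper33.NI
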