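import Pool.Agent.Lib_helper33.NI.Basic
import Pool.Agent.Lib_helper27.V.Los

/-!
# Names of C-sequences are bounded
-/

set_option linter.unusedSectionVars false

namespace Pool.Agent.Lib_helper33.NI

open Set Cardinal
open Pool.Agent.Lib_helper27.Q (Om1)

variable {K : Type} [LinearOrder K] [WellFoundedLT K] {e : K → Mod K}

theorem supp_countable (p : Pc e) : (supp p.1).Countable := by
  have h1 : (⋃ z ∈ p.1.S, z.1.2).Countable := by
    refine Set.Countable.biUnion p.1.S.countable_toSet fun z hz => ?_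
    exact (p.2.sym.good z.1 ⟨z.2, hz⟩).cnt
  have h2 : ((fun z : K × Om1 × Om1 => z.1) '' (p.1.I : Set (K × Om1 × Om1))).Countable :=
    p.1.I.countable_toSet.image _
  refine (h1.union h2).mono ?_
  rintro x (⟨M, ⟨a, ha⟩, hx⟩ | ⟨c, d, h⟩)
  · left
    exact mem_biUnion (x := (M, a)) ha hx
  · right
    exact ⟨(x, c, d), h, rfl⟩

theorem aleph0_le_c : (ℵ₀ : Cardinal.{0}) ≤ 𝔠 := aleph0_le_continuum

theorem om1_le_c : #Om1 ≤ 𝔠 := by
  rw [Pool.Agent.Lib_helper27.Q.mk_om1]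
  exact aleph_one_le_continuum

/-- GAMMA -/
theorem exists_gamma' (hK : Fra e) (hkcc : ∀ A : Set (Pc e),
    (∀ a ∈ A, ∀ b ∈ A, (∃ r, r ≤ a ∧ r ≤ b) → a = b) → #A ≤ 𝔠)
    {p0 : Pc e} {c : Om1 → ℕ → Om1 → Pc e → Prop}
    (hc : CName p0 c) : ∃ γ : K, Below γ p0.1 ∧ ∀ α, Lim α → ∀ k, ∀ p ≤ p0, ∃ q ≤ p,
      ∃ a : Pc e, q ≤ a ∧ Below γ a.1 ∧ ∃ v, c α k v a := by
  have h1 : ∀ z : Om1 × ℕ, ∃ A : Set (Pc e), A ⊆ {a | a ≤ p0 ∧ ∃ v, c z.1 z.2 v a} ∧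
      (∀ a ∈ A, ∀ b ∈ A, Pool.Agent.Lib_helper27.V.Cpt a b → a = b) ∧
      ∀ d ∈ {a | a ≤ p0 ∧ ∃ v, c z.1 z.2 v a}, ∃ a ∈ A, Pool.Agent.Lib_helper27.V.Cpt d a :=
    fun z => Pool.Agent.Lib_helper27.V.exists_max_antichain _
  choose A hA1 hA2 hA3 using h1
  let B : Set K := supp p0.1 ∪ ⋃ z : Om1 × ℕ, ⋃ a : A z, supp a.1.1
  have hB : #B ≤ 𝔠 := by
    refine (mk_union_le _ _).trans (add_le_of_le aleph0_le_c ?_ ?_)
    · exact ((supp_countable p0).le_aleph0).trans aleph0_le_c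
    · refine (mk_iUnion_le _).trans ?_
      refine mul_le_of_le aleph0_le_c ?_ ?_
      · rw [mk_prod]
        simp only [lift_id]
        refine mul_le_of_le aleph0_le_c ?_ ?_
        · exact om1_le_c
        · rw [mk_nat]
          exact aleph0_le_c
      · refine ciSup_le' fun z => ?_
        refine (mk_iUnion_le _).trans ?_
        refine mul_le_of_le aleph0_le_c ?_ ?_
        · exact hkcc (A z) fun a ha b hb h => hA2 z a ha b hb h
        · exact ciSup_le' fun a => ((supp_countable a.1).le_aleph0).trans aleph0_le_c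
  obtain ⟨γ, hγ⟩ := hK.bdd B hB
  refine ⟨γ, fun x hx => hγ x (Or.inl hx), fun α hα k p hp => ?_⟩
  obtain ⟨q, hq, v, hv⟩ := hc.tot α k p hp hα
  obtain ⟨a, ha, r, hr1, hr2⟩ := hA3 (α, k) q ⟨hq.trans hp, v, hv⟩
  refine ⟨r, hr1.trans hq, a, hr2, fun x hx => ?_, (hA1 (α, k) ha).2⟩
  exact hγ x (Or.inr (mem_iUnion.2 ⟨(α, k), mem_iUnion.2 ⟨⟨a, ha⟩, hx⟩⟩))

end Pool.Agent.Lib_helper33.NI
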