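import Pool.Agent.Lib_helper33.NI.Amc

/-!
# The poset is proper
-/

set_option linter.unusedSectionVars false

namespace Pool.Agent.Lib_helper33.NI

open Set Cardinal
open Pool.Agent.Lib_helper27.Q (Om1)

variable {K : Type} [LinearOrder K] [WellFoundedLT K] {e : K → Mod K}

/-- UNB -/
theorem exists_higher' (hmod : ∀ (G : ℕ → Pre K → Pre K) (v : ℕ → Pre K → Om1),
      (∀ n t, ∀ M ∈ (G n t).mods, M.2.Countable) → ∀ (p : Pre K),
      (∀ M ∈ p.mods, M.2.Countable) → ∀ (z : K) (x : Om1),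
      ∃ N : Mod K, Good e N ∧ Inside e p N ∧ z ∈ N.2 ∧ x < N.1 ∧
        ∀ n t, Inside e t N → MarkIn t N → Inside e (G n t) N ∧ v n (G n t) < N.1)
    (hadd : ∀ {p : Pre K} {N : Mod K}, IsCond e p → Good e N → Inside e p N →
      ∃ q, IsCond e q ∧ q.Le p ∧ N ∈ q.mods ∧ ∀ i ∈ N.2, N ∈ q.act i)
    (p : Pc e) (γ : K) (x : Om1) : ∃ q ≤ p, ∃ M ∈ q.1.act γ, x < M.1 := by
  obtain ⟨N, h1, h2, h3, h4, -⟩ := hmod (fun _ _ => ⟨∅, ∅⟩) (fun _ _ => x) (by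
    rintro n t M ⟨a, ha⟩
    simp at ha) p.1 (fun M hM => (p.2.sym.good M hM).cnt) γ x
  obtain ⟨q, hq, hqp, -, h5⟩ := hadd p.2 h1 h2
  exact ⟨⟨q, hq⟩, hqp, N, h5 γ h3, h4⟩

/-- GEN -/
theorem proper' (hmod : ∀ (G : ℕ → Pre K → Pre K) (v : ℕ → Pre K → Om1),
      (∀ n t, ∀ M ∈ (G n t).mods, M.2.Countable) → ∀ (p : Pre K),
      (∀ M ∈ p.mods, M.2.Countable) → ∀ (z : K) (x : Om1),
      ∃ N : Mod K, Good e N ∧ Inside e p N ∧ z ∈ N.2 ∧ x < N.1 ∧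
        ∀ n t, Inside e t N → MarkIn t N → Inside e (G n t) N ∧ v n (G n t) < N.1)
    (hadd : ∀ {p : Pre K} {N : Mod K}, IsCond e p → Good e N → Inside e p N →
      ∃ q, IsCond e q ∧ q.Le p ∧ N ∈ q.mods ∧ ∀ i ∈ N.2, N ∈ q.act i)
    (hcan : ∀ (M : Mod K) (a : WithTop K), ∃ b : WithTop K,
      (b = ⊤ ∨ ∃ x ∈ M.2, b = (x : WithTop K)) ∧
        ∀ i ∈ M.2, (i : WithTop K) < b ↔ (i : WithTop K) < a)
    (z₀ : K) (x₀ : Om1) : Proper' (Pc e) := by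
  classical
  intro D v hD p
  choose can hcan1 hcan2 using hcan
  -- the Skolem function
  let ext : ℕ → Pre K → Pc e → Prop := fun n t q' => q' ∈ D n ∧ t.mods ⊆ q'.1.mods ∧
    (∀ i, t.act i ⊆ q'.1.act i) ∧ t.I ⊆ q'.1.I
  let G : ℕ → Pre K → Pre K := fun n t => if h : ∃ q', ext n t q' then h.choose.1 else ⟨∅, ∅⟩
  let w : ℕ → Pre K → Om1 := fun n t => if h : IsCond e t then v n ⟨t, h⟩ else x₀
  have hG : ∀ n t, ∀ M ∈ (G n t).mods, M.2.Countable := by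
    intro n t M hM
    by_cases h : ∃ q', ext n t q'
    · simp only [G, dif_pos h] at hM
      exact (h.choose.2.sym.good M hM).cnt
    · simp only [G, dif_neg h] at hM
      obtain ⟨a, ha⟩ := hM
      simp at ha
  obtain ⟨N, hN, hpN, -, -, hcl⟩ := hmod G w hG p.1 (fun M hM => (p.2.sym.good M hM).cnt) z₀ x₀
  obtain ⟨q, hq, hqp, hNq, hNi⟩ := hadd p.2 hN hpN
  refine ⟨⟨q, hq⟩, hqp, N.1, fun n r hr => ?_⟩
  obtain ⟨r', hr', hr'D⟩ := hD n r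
  have hr'q : r'.1.Le q := Pre.Le.trans hr' hr
  -- the trace
  let t : Pre K := ⟨(r'.1.S.filter fun z => In e z.1 N).image fun z => (z.1, can z.1 z.2),
    r'.1.I.filter fun z => z.1 ∈ N.2 ∧ z.2.1 < N.1 ∧ z.2.2 < N.1⟩
  have memt : ∀ M b, (M, b) ∈ t.S ↔ ∃ a, (M, a) ∈ r'.1.S ∧ In e M N ∧ b = can M a := by
    intro M b
    constructor
    · intro h
      obtain ⟨⟨M', a⟩, h1, h2⟩ := Finset.mem_image.1 h
      obtain ⟨h3, h4⟩ := Finset.mem_filter.1 h1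
      have h5 : M' = M := congrArg Prod.fst h2
      subst h5
      exact ⟨a, h3, h4, (congrArg Prod.snd h2).symm⟩
    · rintro ⟨a, h1, h2, rfl⟩
      exact Finset.mem_image.2 ⟨(M, a), Finset.mem_filter.2 ⟨h1, h2⟩, rfl⟩
  have htin : Inside e t N := by
    refine ⟨?_, ?_⟩
    · rintro M ⟨b, hb⟩
      obtain ⟨a, _, h2, _⟩ := (memt M b).1 hb
      exact h2
    · intro j c d h
      exact (Finset.mem_filter.1 h).2
  have htm : MarkIn t N := by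
    intro M b hb
    obtain ⟨a, _, h2, rfl⟩ := (memt M b).1 hb
    rcases hcan1 M a with h | ⟨x, hx, h⟩
    · exact Or.inl h
    · exact Or.inr ⟨x, h2.sub hN hx, h⟩
  obtain ⟨hGin, hGv⟩ := hcl n t htin htm
  have hex : ∃ q', ext n t q' := by
    refine ⟨r', hr'D, ?_, ?_, ?_⟩
    · rintro M ⟨b, hb⟩
      obtain ⟨a, h1, _, _⟩ := (memt M b).1 hb
      exact ⟨a, h1⟩
    · rintro i M ⟨b, hb, hi, hib⟩
      obtain ⟨a, h1, _, rfl⟩ := (memt M b).1 hb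
      exact ⟨a, h1, hi, (hcan2 M a i hi).1 hib⟩
    · exact Finset.filter_subset _ _
  have hGe : G n t = hex.choose.1 := by
    simp only [G, dif_pos hex]
  obtain ⟨hc1, hc2, hc3, hc4⟩ := hex.choose_spec
  set q' : Pc e := hex.choose with hq'
  rw [hGe] at hGin hGv
  obtain ⟨s, hs, hs1, hs2⟩ := exists_amal (q := r'.1) (q' := q'.1) (N := N) r'.2 q'.2
    (hr'q.1 hNq) (fun i hi => hr'q.2.1 i (hNi i hi)) hGin
    (by
      rintro M ⟨a, ha⟩ hM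
      exact hc2 ⟨can M a, (memt M _).2 ⟨a, ha, hM, rfl⟩⟩)
    (by
      rintro i M ⟨a, ha, hi, hia⟩ hM
      exact hc3 i ⟨can M a, (memt M _).2 ⟨a, ha, hM, rfl⟩, hi, (hcan2 M a i hi).2 hia⟩)
    (by
      intro j c d h1 h2 h3 h4
      exact hc4 (Finset.mem_filter.2 ⟨h1, h2, h3, h4⟩))
  refine ⟨⟨s, hs⟩, Pre.Le.trans hs1 hr', q', hc1, hs2, ?_⟩
  have : w n q'.1 = v n q' := by
    simp only [w, dif_pos q'.2]
    rfl
  rw [← this]
  exact hGv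

end Pool.Agent.Lib_helper33.NI
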