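import Pool.Agent.Lib_helper33.NI.Defs
import Pool.Agent.Lib_helper27.Q.Uni
import Pool.Agent.Lib_helper27.Q.Clo
import Pool.Agent.Lib_helper27.V.Chk

/-!
# Block HART: a poset with the weak form of properness preserves `ω₁`
-/

set_option linter.unusedSectionVars false
set_option linter.unusedVariables false

namespace Pool.Agent.Lib_helper33.NI

open Set Cardinal
open Pool.Agent.Lib_helper27.Q (Om1 mk_om1)
open Pool.Agent.Lib_helper27 Pool.Agent.Lib_helper27.V Fml

theorem hart_proper_pr {P : Type} [Preorder P] (h : Proper' P) (p : P) :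
    Fc p (isHartogs (oall P ℕ) (oall P Om1)) := by
  classical
  refine ⟨oall_ord p, ?_, ?_⟩
  · intro q hq hex
    obtain ⟨q', hq', f, hf⟩ := (forces_ex.1 hex).exists
    have hne : Nonempty Om1 := by
      rw [← mk_ne_zero_iff, mk_om1]
      exact (aleph_pos 1).ne'
    let D : ℕ → Set P := fun n => {t : P | (∃ x : Om1, Fc t (app f (onm P x) (onm P n))) ∨
      ∀ s ≤ t, ∀ x : Om1, ¬ Fc s (app f (onm P x) (onm P n))}
    have hex1 : ∀ (n : ℕ) (t : P), ∃ x : Om1, (∃ x' : Om1, Fc t (app f (onm P x') (onm P n))) →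
        Fc t (app f (onm P x) (onm P n)) := by
      intro n t
      by_cases hx : ∃ x' : Om1, Fc t (app f (onm P x') (onm P n))
      · obtain ⟨x, hx⟩ := hx
        exact ⟨x, fun _ => hx⟩
      · exact ⟨hne.some, fun h => (hx h).elim⟩
    choose v hv using hex1
    obtain ⟨r, hr, δ, hδ⟩ := h D v (by
      intro n s
      by_cases h1 : ∃ s' ≤ s, ∃ x : Om1, Fc s' (app f (onm P x) (onm P n))
      · obtain ⟨s', h1, h2⟩ := h1
        exact ⟨s', h1, Or.inl h2⟩
      · push Not at h1
        exact ⟨s, le_rfl, Or.inr h1⟩) q'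
    have hfr := Forces.mono nf_basic hr hf
    obtain ⟨s, hs, y, hy, hy'⟩ := (func_total hfr.1 (onm_mem_oall δ r)).exists
    obtain ⟨s', hs', n, hn⟩ := (fmem_oall.1 hy).exists
    have h1 : Fc s' (app f (onm P δ) (onm P n)) :=
      app_congr' (feq_refl _ _) hn (Forces.mono nf_basic hs' hy')
    obtain ⟨w, hw, t, ht, hwt, hvt⟩ := hδ n s' (hs'.trans hs)
    have h2 := Forces.mono nf_basic hw h1
    rcases ht with hx | hx
    · have h3 := Forces.mono nf_basic hwt (hv n t hx)
      have h4 := inj_single (Forces.mono nf_basic (hw.trans (hs'.trans hs)) hfr) h3 h2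
      exact absurd (onm_inj h4) hvt.ne
    · exact hx w hwt δ h2
  · refine (forces_ball nf_basic).2 fun c q hq hc => ?_
    refine forces_ex.2 ?_
    refine (fmem_oall.1 hc).imp ?_
    rintro r hr ⟨x, hx⟩
    obtain ⟨e, he⟩ : ∃ e : {y : Om1 // y < x} → ℕ, Function.Injective e := by
      have h := mk_Iio_lt (α := Om1) x (by simp)
      rw [mk_om1] at h
      have h1 : (aleph 1 : Cardinal.{0}) = Order.succ ℵ₀ := by simp
      have h2 : #{y : Om1 // y < x} ≤ #ℕ := by
        rw [mk_nat]
        exact Order.lt_succ_iff.1 (h.trans_eq h1)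
      rw [Cardinal.le_def] at h2
      obtain ⟨e⟩ := h2
      exact ⟨e, e.injective⟩
    have hQ : Down (P := P) (fun (_ : {y : Om1 // y < x}) _ => True) := down_true
    have hfun : Fc r (isFunc (mkFn {y : Om1 // y < x} (fun y => onm P y.1) (fun y => onm P (e y))
        fun _ _ => True) (onm P x) (oall P ℕ)) := by
      refine fc_isFunc hQ ?_ ?_ ?_
      · intro y s _ _
        exact ⟨onm_mem y.2 s, onm_mem_oall _ s⟩
      · intro z s hs hz
        refine (fmem_onm.1 hz).imp ?_
        rintro t _ ⟨y, hy, he'⟩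
        exact ⟨⟨y, hy⟩, trivial, he'⟩
      · intro y y' s _ _ _ h
        rw [Subtype.ext (onm_inj h)]
        exact feq_refl _ _
    refine ⟨mkFn {y : Om1 // y < x} (fun y => onm P y.1) (fun y => onm P (e y))
        fun _ _ => True, ?_⟩
    have hinj := fc_isInj hQ hfun (by
      intro y y' s _ _ _ h
      rw [he (onm_inj h)]
      exact feq_refl _ _)
    exact (fc_uni (cv (Fml.isInj 0 1 2) 3) 3
      (l := [mkFn {y : Om1 // y < x} (fun y => onm P y.1) (fun y => onm P (e y))
        fun _ _ => True, onm P x])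
      (l' := [mkFn {y : Om1 // y < x} (fun y => onm P y.1) (fun y => onm P (e y))
        fun _ _ => True, c])
      (.cons (feq_refl _ _) (.cons (feq_symm hx) .nil)) (feq_refl (oall P ℕ) r) le_rfl).1 hinj

end Pool.Agent.Lib_helper33.NI
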