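import Pool.Agent.Lib_helper33.NI.Basic

/-!
# The colorings
-/

set_option linter.unusedSectionVars false

namespace Pool.Agent.Lib_helper33.NI

open Set Cardinal
open Pool.Agent.Lib_helper27.Q (Om1)

variable {K : Type} [LinearOrder K] [WellFoundedLT K] {e : K → Mod K}

theorem mem_act_of_le {p q : Pc e} (h : q ≤ p) {i : K} {M : Mod K} (hM : M ∈ p.1.act i) :
    M ∈ q.1.act i := h.2.1 i hM

theorem jq_down {g : Om1 → Om1 → ℕ} {γ : K} {z : Om1 × ℕ} {p q : Pc e} (hq : q ≤ p)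
    (h : JQ e g γ z p) : JQ e g γ z q := by
  obtain ⟨δ, h1, ⟨M, hM, hM'⟩, h2, h3⟩ := h
  exact ⟨δ, h1, ⟨M, mem_act_of_le hq hM, hM'⟩, fun r hr => h2 r (hr.trans hq), h3⟩

theorem jq_total' (hU : ∀ (p : Pc e) (γ : K) (x : Om1), ∃ q ≤ p, ∃ M ∈ q.1.act γ, x < M.1)
    (g : Om1 → Om1 → ℕ) (γ : K) (x : Om1) (p : Pc e) :
    ∃ q ≤ p, ∃ n, JQ e g γ (x, n) q := by
  have hne : {δ : Om1 | ∃ q ≤ p, ∃ M ∈ q.1.act γ, x < M.1 ∧ M.1 = δ}.Nonempty := by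
    obtain ⟨q, hq, M, hM, hx⟩ := hU p γ x
    exact ⟨M.1, q, hq, M, hM, hx, rfl⟩
  obtain ⟨q, hq, M, hM, hx, hM'⟩ := (wellFounded_lt (α := Om1)).min_mem _ hne
  refine ⟨q, hq, g M.1 x, M.1, hx, ⟨M, hM, rfl⟩, ?_, rfl⟩
  rintro r hr M2 hM2 ⟨h1, h2⟩
  rw [hM'] at h2
  exact (wellFounded_lt (α := Om1)).not_lt_min
    {δ : Om1 | ∃ q ≤ p, ∃ M ∈ q.1.act γ, x < M.1 ∧ M.1 = δ}
    (x := M2.1) ⟨r, hr.trans hq, M2, hM2, h1, rfl⟩ h2

/-- below a promise the coloring is injective -/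
theorem jq_inj {g : Om1 → Om1 → ℕ} (hg : GInj g) {γ : K} {p : Pc e} {c d : Om1}
    (hI : (γ, c, d) ∈ p.1.I) {x y : Om1} (hcx : c ≤ x) (hxd : x ≤ d) (hcy : c ≤ y) (hyd : y ≤ d)
    {n : ℕ} (hx : JQ e g γ (x, n) p) (hy : JQ e g γ (y, n) p) : x = y := by
  obtain ⟨δ, h1, ⟨M, hM, rfl⟩, h2, h3⟩ := hx
  obtain ⟨δ', h1', ⟨M', hM', rfl⟩, h2', h3'⟩ := hy
  have h1 : x < M.1 := h1
  have h1' : y < M'.1 := h1'
  have k1 : d < M.1 := by
    rcases p.2.prom γ c d hI M hM with h | h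
    · exact absurd (hcx.trans_lt h1) (not_lt.2 h.le)
    · exact h
  have k2 : d < M'.1 := by
    rcases p.2.prom γ c d hI M' hM' with h | h
    · exact absurd (hcy.trans_lt h1') (not_lt.2 h.le)
    · exact h
  have k3 : M.1 = M'.1 := by
    apply le_antisymm
    · by_contra h
      exact h2 p le_rfl M' hM' ⟨hxd.trans_lt k2, not_le.1 h⟩
    · by_contra h
      exact h2' p le_rfl M hM ⟨hyd.trans_lt k1, not_le.1 h⟩
  have h3 : g M.1 x = n := h3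
  have h3' : g M'.1 y = n := h3'
  rw [← k3] at h3'
  exact hg M.1 x h1 y (hyd.trans_lt k1) (h3.trans h3'.symm)

end Pool.Agent.Lib_helper33.NI
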