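import Pool.Agent.Lib_helper33.NI.Gamma

/-!
# Antichains have size at most the continuum
-/

set_option linter.unusedSectionVars false

namespace Pool.Agent.Lib_helper33.NI

open Set Cardinal
open Pool.Agent.Lib_helper27.Q (Om1)

variable {K : Type} [LinearOrder K] [WellFoundedLT K] {e : K → Mod K}

/-- there are only continuum many countable subsets of a proper initial segment -/
theorem mk_countable_sub (hK : Fra e) (z : K) :
    #{Y : Set K // Y.Countable ∧ ∀ y ∈ Y, y < z} ≤ 𝔠 := by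
  classical
  let f : {Y : Set K // Y.Countable ∧ ∀ y ∈ Y, y < z} → Option (ℕ → Iio z) := fun Y =>
    if h : Y.1.Nonempty then some fun n =>
      ⟨(Y.2.1.exists_eq_range h).choose n, Y.2.2 _
        ((Y.2.1.exists_eq_range h).choose_spec.symm.subset (mem_range_self n))⟩ else none
  have hf : Function.Injective f := by
    intro Y Y' hYY
    by_cases h : Y.1.Nonempty <;> by_cases h' : Y'.1.Nonempty
    · simp only [f, dif_pos h, dif_pos h', Option.some.injEq] at hYY
      refine Subtype.ext ?_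
      have e1 := (Y.2.1.exists_eq_range h).choose_spec
      have e2 := (Y'.2.1.exists_eq_range h').choose_spec
      rw [e1, e2]
      congr 1
      funext n
      exact congrArg Subtype.val (congrFun hYY n)
    · simp [f, dif_pos h, dif_neg h'] at hYY
    · simp [f, dif_neg h, dif_pos h'] at hYY
    · rw [not_nonempty_iff_eq_empty] at h h'
      exact Subtype.ext (h.trans h'.symm)
  refine (mk_le_of_injective hf).trans ?_
  rw [mk_option]
  refine add_le_of_le aleph0_le_c ?_ (one_le_aleph0.trans aleph0_le_c)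
  rw [← power_def, mk_nat]
  calc #(Iio z) ^ (ℵ₀ : Cardinal) ≤ 𝔠 ^ (ℵ₀ : Cardinal) := power_le_power_right (hK.seg z)
    _ = 𝔠 := continuum_power_aleph0

/-- KCC -/
theorem kcc' (hK : Fra e) {τ : Type} {ty : Pc e → τ} (hτ : #τ ≤ 𝔠)
    (hty : ∀ p q : Pc e, ty p = ty q → Coh (supp p.1) (supp q.1) → ∃ r, r ≤ p ∧ r ≤ q)
    (hclz : ∀ F : Set K → τ → K, ∃ z : K, ∀ Y : Set K, Y.Countable → (∀ y ∈ Y, y < z) →
      ∀ t, F Y t ≤ z) {A : Set (Pc e)}
    (hA : ∀ a ∈ A, ∀ b ∈ A, (∃ r, r ≤ a ∧ r ≤ b) → a = b) : #A ≤ 𝔠 := by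
  classical
  have hb : ∀ p : Pc e, ∃ b, ∀ x ∈ supp p.1, x < b := fun p =>
    hK.bdd _ (((supp_countable p).le_aleph0).trans aleph0_le_c)
  choose b hb using hb
  obtain ⟨b0, -⟩ := hK.bdd ∅ (by simp)
  let P : Set K → τ → Pc e → Prop := fun Y t p => p ∈ A ∧ ty p = t ∧ Y ⊆ supp p.1 ∧
    ∀ x ∈ Y, ∀ y ∈ supp p.1, y < x → y ∈ Y
  obtain ⟨z, hz⟩ := hclz fun Y t => if h : ∃ p, P Y t p then b h.choose else b0
  by_cases hcase : ∃ p ∈ A, ∃ x ∈ supp p.1, z ≤ x
  · exfalso
    obtain ⟨p, hp, x, hx, hzx⟩ := hcase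
    let Y : Set K := {y ∈ supp p.1 | y < z}
    have hY : Y.Countable := (supp_countable p).mono fun y hy => hy.1
    have hex : ∃ p', P Y (ty p) p' := ⟨p, hp, rfl, fun y hy => hy.1,
      fun x hx y hy hyx => ⟨hy, hyx.trans hx.2⟩⟩
    have h1 := hz Y hY (fun y hy => hy.2) (ty p)
    rw [dif_pos hex] at h1
    obtain ⟨h2, h3, h4, h5⟩ := hex.choose_spec
    set p' := hex.choose with hp'
    have h6 : ∀ y ∈ supp p'.1, y < z := fun y hy => (hb p' y hy).trans_le h1
    have h7 : Coh (supp p.1) (supp p'.1) := by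
      constructor
      · intro x hx hx' y hy hyx
        exact h4 ⟨hy, hyx.trans (h6 x hx')⟩
      · intro x hx hx' y hy hyx
        exact (h5 x ⟨hx, h6 x hx'⟩ y hy hyx).1
    have h8 := hA p hp p' h2 (hty p p' h3.symm h7)
    rw [h8] at hx
    exact absurd (h6 x hx) (not_lt.2 hzx)
  · push Not at hcase
    let f : A → {Y : Set K // Y.Countable ∧ ∀ y ∈ Y, y < z} × τ := fun p =>
      (⟨supp p.1.1, supp_countable p.1, hcase p.1 p.2⟩, ty p.1)
    have hf : Function.Injective f := by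
      intro p q hpq
      have h1 : supp p.1.1 = supp q.1.1 := congrArg (fun w => w.1.1) hpq
      have h2 : ty p.1 = ty q.1 := congrArg (fun w => w.2) hpq
      refine Subtype.ext (hA p.1 p.2 q.1 q.2 (hty _ _ h2 ?_))
      rw [h1]
      exact Coh.refl _
    refine (mk_le_of_injective hf).trans ?_
    rw [mk_prod, lift_id, lift_id]
    exact mul_le_of_le aleph0_le_c (mk_countable_sub hK z) hτ

end Pool.Agent.Lib_helper33.NI
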