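import Pool.Agent.Lib_helper33.NI.Jq

/-!
# The generic coloring kills a given C-sequence
-/

set_option linter.unusedSectionVars false

namespace Pool.Agent.Lib_helper33.NI

open Set Cardinal
open Pool.Agent.Lib_helper27.Q (Om1)

variable {K : Type} [LinearOrder K] [WellFoundedLT K] {e : K → Mod K}

theorem kap_odd (m : ℕ) : kap (2 * m + 1) = (Nat.unpair m).1 := by
  unfold kap
  have : (2 * m + 1 - 1) / 2 = m := by omega
  rw [this]

theorem kap_even (m : ℕ) : kap (2 * m + 1 + 1) = (Nat.unpair m).1 := by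
  unfold kap
  have : (2 * m + 1 + 1 - 1) / 2 = m := by omega
  rw [this]

/-- heights below a limit are bounded -/
theorem exists_bound (p : Pre K) (γ : K) {α : Om1} (hα : Lim α) :
    ∃ b < α, ∀ M ∈ p.act γ, M.1 < α → M.1 ≤ b := by
  classical
  obtain ⟨x, hx⟩ := hα.1
  let F : Finset Om1 := insert x ((p.S.image fun z => z.1.1).filter fun y => y < α)
  have hF : F.Nonempty := ⟨x, Finset.mem_insert_self _ _⟩
  refine ⟨F.max' hF, ?_, ?_⟩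
  · have h1 := F.max'_mem hF
    rcases Finset.mem_insert.1 h1 with h | h
    · rw [h]
      exact hx
    · exact (Finset.mem_filter.1 h).2
  · rintro M ⟨a, ha, _⟩ hM
    exact F.le_max' _ (Finset.mem_insert_of_mem (Finset.mem_filter.2
      ⟨Finset.mem_image.2 ⟨(M, a), ha, rfl⟩, hM⟩))

/-- KILL -/
theorem kill'
    (hres : ∀ {p : Pre K} (_ : IsCond e p) (γ : K), IsCond e (res γ p))
    (hresle : ∀ {γ : K} {p q : Pre K}, q.Le p → Below γ p → (res γ q).Le p)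
    (hgraft : ∀ {γ : K} {p q : Pre K}, IsCond e p → IsCond e q → q.Le (res γ p) →
      ∃ r, IsCond e r ∧ r.Le p ∧ r.Le (res γ q) ∧ r.act γ = p.act γ)
    (haddI : ∀ {p : Pre K} {j : K} {c d : Om1}, IsCond e p → (∀ M ∈ p.act j, M.1 < c ∨ d < M.1) →
      ∃ q, IsCond e q ∧ q.Le p ∧ (j, c, d) ∈ q.I)
    (hU : ∀ (p : Pc e) (γ : K) (x : Om1), ∃ q ≤ p, ∃ M ∈ q.1.act γ, x < M.1)
    {g : Om1 → Om1 → ℕ} (hg : GInj g) {p0 : Pc e}
    {c : Om1 → ℕ → Om1 → Pc e → Prop} (hc : CName p0 c)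
    (hgam : ∃ γ : K, Below γ p0.1 ∧ ∀ α, Lim α → ∀ k, ∀ p ≤ p0, ∃ q ≤ p,
      ∃ a : Pc e, q ≤ a ∧ Below γ a.1 ∧ ∃ v, c α k v a) :
    ∃ γ : K, ∀ α, Lim α → ∀ p ≤ p0, ∃ q ≤ p, ∃ k, PSI e g γ c α k q := by
  obtain ⟨γ, hγ0, hγ⟩ := hgam
  refine ⟨γ, fun α hα p hp => ?_⟩
  -- decide the first element and its color
  obtain ⟨p', hp', x₀, hx₀⟩ := hc.tot α 0 p hp hα
  obtain ⟨p1, hp1, n, hn⟩ := jq_total' hU g γ x₀ p'
  have hx₀1 := hc.down α 0 x₀ p' p1 hp1 hx₀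
  have hp10 : p1 ≤ p0 := hp1.trans (hp'.trans hp)
  obtain ⟨b, hbα, hb⟩ := exists_bound p1.1 γ hα
  -- the restriction
  let r0 : Pc e := ⟨res γ p1.1, hres p1.2 γ⟩
  have hr0 : r0 ≤ p0 := hresle hp10 hγ0
  obtain ⟨r1, hr1, k0, v, hv, hbv⟩ := hc.cof α b r0 hr0 hα hbα
  have hr10 : r1 ≤ p0 := hr1.trans hr0
  -- the index
  obtain ⟨m, hm, hmn⟩ : ∃ m, k0 ≤ m ∧ (Nat.unpair m).1 = n :=
    ⟨Nat.pair n k0, Nat.right_le_pair _ _, by simp⟩
  obtain ⟨r2, hr2, a0, hra0, ha0, v0, hv0⟩ := hγ α hα (2 * m) r1 hr10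
  obtain ⟨r3, hr3, a1, hra1, ha1, v1, hv1⟩ := hγ α hα (2 * m + 1) r2 (hr2.trans hr10)
  obtain ⟨r4, hr4, a2, hra2, ha2, v2, hv2⟩ := hγ α hα (2 * m + 1 + 1) r3
    (hr3.trans (hr2.trans hr10))
  have h42 : r4 ≤ r2 := hr4.trans hr3
  have h41 : r4 ≤ r1 := h42.trans hr2
  have h40 : r4 ≤ p0 := h41.trans hr10
  have w0 := hc.down α _ v0 a0 r4 (h42.trans hra0) hv0
  have w1 := hc.down α _ v1 a1 r4 (hr4.trans hra1) hv1
  have w2 := hc.down α _ v2 a2 r4 hra2 hv2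
  have wv := hc.down α _ v r1 r4 h41 hv
  have l01 : v0 < v1 := hc.mono α _ _ v0 v1 r4 h40 hα (Nat.lt_succ_self _) w0 w1
  have l12 : v1 < v2 := hc.mono α _ _ v1 v2 r4 h40 hα (Nat.lt_succ_self _) w1 w2
  have l2 : v2 < α := hc.lt α _ v2 r4 h40 hα w2
  have lb : b < v0 := by
    rcases (show k0 ≤ 2 * m by omega).lt_or_eq with h | h
    · exact hbv.trans (hc.mono α _ _ v v0 r4 h40 hα h wv w0)
    · rw [h] at wv
      rw [hc.uniq α _ v0 v r4 h40 hα w0 wv]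
      exact hbv
  -- graft
  obtain ⟨r, hr, hrp, hrr, hract⟩ := hgraft (γ := γ) p1.2 r4.2 (h41.trans hr1)
  obtain ⟨q2, hq2, hq2r, hq2I⟩ := haddI (j := γ) (c := v0) (d := v2) hr (by
    intro M hM
    rw [hract] at hM
    rcases lt_or_ge M.1 α with h | h
    · exact Or.inl ((hb M hM h).trans_lt lb)
    · exact Or.inr (l2.trans_le h))
  let Q : Pc e := ⟨q2, hq2⟩
  have hQp : Q ≤ p1 := Pre.Le.trans hq2r hrp
  have hQp' : Q ≤ p := hQp.trans (hp1.trans hp')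
  have hQ0 : Q ≤ p0 := hQp.trans hp10
  have hQ : ∀ a : Pc e, r4 ≤ a → Below γ a.1 → Q ≤ a := fun a h h' =>
    Pre.Le.trans hq2r (Pre.Le.trans hrr (hresle h h'))
  have u0 := hc.down α _ v0 a0 Q (hQ a0 (h42.trans hra0) ha0) hv0
  have u1 := hc.down α _ v1 a1 Q (hQ a1 (hr4.trans hra1) ha1) hv1
  have u2 := hc.down α _ v2 a2 Q (hQ a2 hra2 ha2) hv2
  have ux := hc.down α 0 x₀ p1 Q hQp hx₀1
  have uj := jq_down hQp hn
  by_cases hcase : ∃ s ≤ Q, ∃ y, v0 < y ∧ y < v1 ∧ JQ e g γ (y, n) s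
  · obtain ⟨s, hs, y, hy0, hy1, hy⟩ := hcase
    refine ⟨s, hs.trans hQp', 2 * m + 1 + 1, by omega, x₀, v2, v1, hc.down _ _ _ _ _ hs ux,
      hc.down _ _ _ _ _ hs u2, hc.down _ _ _ _ _ hs u1, ?_, ?_⟩
    · rw [kap_even, hmn]
      exact jq_down hs uj
    · intro y' hy1' hy2' t ht hjq
      rw [kap_even, hmn] at hjq
      have hI : (γ, v0, v2) ∈ t.1.I := (ht.trans hs).2.2 hq2I
      have := jq_inj hg hI hy0.le (hy1.trans l12).le (l01.trans hy1').le hy2'.le (jq_down ht hy) hjq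
      rw [this] at hy1
      exact lt_asymm hy1 hy1'
  · push Not at hcase
    refine ⟨Q, hQp', 2 * m + 1, by omega, x₀, v1, v0, ux, u1, u0, ?_, ?_⟩
    · rw [kap_odd, hmn]
      exact uj
    · intro y hy0 hy1 t ht hjq
      rw [kap_odd, hmn] at hjq
      exact hcase t ht y hy0 hy1 hjq

end Pool.Agent.Lib_helper33.NI
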