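import Pool.Agent.Lib_helper33.NI.Basic

/-! Block MODEL (helper76). -/

set_option linter.unusedSectionVars false

namespace Pool.Agent.Lib_helper33.NI.H76

open Set Cardinal
open Pool.Agent.Lib_helper27.Q (Om1)

variable {K : Type} [LinearOrder K] [WellFoundedLT K] {e : K → Mod K}

theorem mo_finset {α : Type} {s : Set α} (hs : s.Countable) :
    {t : Finset α | (t : Set α) ⊆ s}.Countable := by
  have h1 := Set.countable_ofPred_finite_subset hs
  have h2 : (fun t : Finset α => (t : Set α)) '' {t : Finset α | (t : Set α) ⊆ s} ⊆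
      {t : Set α | t.Finite ∧ t ⊆ s} := by
    rintro _ ⟨t, ht, rfl⟩
    exact ⟨t.finite_toSet, ht⟩
  exact Set.countable_of_injective_of_countable_image (Finset.coe_injective.injOn) (h1.mono h2)

theorem mo_iio (β : Om1) : (Iio β).Countable := by
  have h := mk_Iio_lt (α := Om1) β (by simp)
  rw [Pool.Agent.Lib_helper27.Q.mk_om1] at h
  exact Cardinal.le_aleph0_iff_set_countable.1
    (Order.lt_succ_iff.1 (h.trans_eq Cardinal.succ_aleph0.symm))

theorem mo_compl {B : Set Om1} (hB : B.Countable) : (Bᶜ).Nonempty := by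
  by_contra h
  rw [not_nonempty_iff_eq_empty, compl_empty_iff] at h
  rw [h] at hB
  have h1 := Cardinal.le_aleph0_iff_set_countable.2 hB
  rw [mk_univ, Pool.Agent.Lib_helper27.Q.mk_om1] at h1
  exact absurd h1 (not_le.2 aleph0_lt_aleph_one)

/-- the finite data with entries in `C` -/
def Tset (e : K → Mod K) (C : Set K × Set Om1) : Set (Pre K) :=
  {t | (∀ z ∈ t.S, z.1 ∈ e '' C.1 ∧ (z.2 = ⊤ ∨ ∃ x ∈ C.1, z.2 = (x : WithTop K))) ∧
    ∀ z ∈ t.I, z.1 ∈ C.1 ∧ z.2.1 ∈ C.2 ∧ z.2.2 ∈ C.2}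

theorem mo_tset {C : Set K × Set Om1} (h1 : C.1.Countable) (h2 : C.2.Countable) :
    (Tset e C).Countable := by
  set s1 : Set (Mod K × WithTop K) := (e '' C.1) ×ˢ ({⊤} ∪ (fun x : K => (x : WithTop K)) '' C.1)
    with hs1
  set s2 : Set (K × Om1 × Om1) := C.1 ×ˢ (C.2 ×ˢ C.2) with hs2
  have c1 : s1.Countable := (h1.image _).prod ((countable_singleton _).union (h1.image _))
  have c2 : s2.Countable := h1.prod (h2.prod h2)
  have c3 := (mo_finset c1).prod (mo_finset c2)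
  have h3 : (fun t : Pre K => (t.S, t.I)) '' (Tset e C) ⊆
      {t : Finset (Mod K × WithTop K) | (t : Set _) ⊆ s1} ×ˢ
      {t : Finset (K × Om1 × Om1) | (t : Set _) ⊆ s2} := by
    rintro _ ⟨t, ht, rfl⟩
    refine ⟨fun z hz => ?_, fun z hz => ?_⟩
    · obtain ⟨ha, hb⟩ := ht.1 z hz
      refine ⟨ha, ?_⟩
      rcases hb with hb | ⟨x, hx, hb⟩
      · exact Or.inl hb
      · exact Or.inr ⟨x, hx, hb.symm⟩
    · exact ht.2 z hz
  refine Set.countable_of_injective_of_countable_image ?_ (c3.mono h3)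
  rintro ⟨S, I⟩ - ⟨S', I'⟩ - h
  simp only [Prod.mk.injEq] at h
  obtain ⟨rfl, rfl⟩ := h
  rfl

theorem mo_mods (t : Pre K) : t.mods.Countable := by
  have : t.mods ⊆ Prod.fst '' (t.S : Set (Mod K × WithTop K)) := by
    rintro M ⟨a, ha⟩
    exact ⟨(M, a), ha, rfl⟩
  exact ((Finset.countable_toSet _).image _).mono this

/-- the points used by `t` -/
def outK (c : Mod K → K) (t : Pre K) : Set K :=
  c '' t.mods ∪ Prod.fst '' (t.I : Set (K × Om1 × Om1))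

/-- the ordinals used by `t` -/
def outO (t : Pre K) : Set Om1 :=
  (fun z : K × Om1 × Om1 => z.2.1) '' (t.I : Set (K × Om1 × Om1)) ∪
    (fun z : K × Om1 × Om1 => z.2.2) '' (t.I : Set (K × Om1 × Om1))

theorem mo_outK (c : Mod K → K) (t : Pre K) : (outK c t).Countable :=
  ((mo_mods t).image _).union ((Finset.countable_toSet _).image _)

theorem mo_outO (t : Pre K) : (outO t).Countable :=
  ((Finset.countable_toSet _).image _).union ((Finset.countable_toSet _).image _)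

/-- one step of the closure -/
def Stp (e : K → Mod K) (c : Mod K → K) (G : ℕ → Pre K → Pre K) (v : ℕ → Pre K → Om1)
    (C : Set K × Set Om1) : Set K × Set Om1 :=
  (C.1 ∪ (⋃ ξ ∈ C.1, (e ξ).2) ∪ ⋃ t ∈ Tset e C, ⋃ n : ℕ, outK c (G n t),
    C.2 ∪ (⋃ ξ ∈ C.1, {(e ξ).1}) ∪ (⋃ β ∈ C.2, Iio β) ∪
      ⋃ t ∈ Tset e C, ⋃ n : ℕ, (outO (G n t) ∪ {v n (G n t)}))

theorem mo_stp (hK : Fra e) (c : Mod K → K) (G : ℕ → Pre K → Pre K) (v : ℕ → Pre K → Om1)
    {C : Set K × Set Om1} (h1 : C.1.Countable) (h2 : C.2.Countable) :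
    (Stp e c G v C).1.Countable ∧ (Stp e c G v C).2.Countable := by
  have hT := mo_tset (e := e) h1 h2
  constructor
  · refine (h1.union (h1.biUnion fun ξ _ => hK.cnt ξ)).union (hT.biUnion fun t _ => ?_)
    exact countable_iUnion fun n => mo_outK c _
  · refine ((h2.union (h1.biUnion fun ξ _ => countable_singleton _)).union
      (h2.biUnion fun β _ => mo_iio β)).union (hT.biUnion fun t _ => ?_)
    exact countable_iUnion fun n => (mo_outO _).union (countable_singleton _)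

theorem mo_fin {α : Type} (s : Finset α) (P : ℕ → α → Prop) (hP : ∀ n m x, n ≤ m → P n x → P m x)
    (h : ∀ x ∈ s, ∃ n, P n x) : ∃ n, ∀ x ∈ s, P n x := by
  classical
  induction s using Finset.induction_on with
  | empty => exact ⟨0, fun x hx => absurd hx (Finset.notMem_empty x)⟩
  | insert a s ha ih =>
    obtain ⟨n, hn⟩ := ih fun x hx => h x (Finset.mem_insert_of_mem hx)
    obtain ⟨m, hm⟩ := h a (Finset.mem_insert_self _ _)
    refine ⟨max n m, fun x hx => ?_⟩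
    rcases Finset.mem_insert.1 hx with rfl | hx
    · exact hP m _ _ (le_max_right _ _) hm
    · exact hP n _ _ (le_max_left _ _) (hn x hx)

/-- the closure -/
theorem mo_closure (hK : Fra e) (c : Mod K → K) (G : ℕ → Pre K → Pre K) (v : ℕ → Pre K → Om1)
    {C₀ : Set K × Set Om1} (h1 : C₀.1.Countable) (h2 : C₀.2.Countable) :
    ∃ C : Set K × Set Om1, C.1.Countable ∧ C.2.Countable ∧ C₀.1 ⊆ C.1 ∧ C₀.2 ⊆ C.2 ∧
      (Stp e c G v C).1 ⊆ C.1 ∧ (Stp e c G v C).2 ⊆ C.2 := by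
  set F := Stp e c G v with hF
  set D : ℕ → Set K × Set Om1 := fun n => F^[n] C₀ with hD
  have hD0 : D 0 = C₀ := rfl
  have hDs : ∀ n, D (n + 1) = F (D n) := fun n => Function.iterate_succ_apply' F n C₀
  have hsub1 : ∀ C : Set K × Set Om1, C.1 ⊆ (F C).1 := fun C x hx => Or.inl (Or.inl hx)
  have hsub2 : ∀ C : Set K × Set Om1, C.2 ⊆ (F C).2 := fun C x hx => Or.inl (Or.inl (Or.inl hx))
  have hcnt : ∀ n, (D n).1.Countable ∧ (D n).2.Countable := by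
    intro n
    induction n with
    | zero => exact ⟨h1, h2⟩
    | succ n ih =>
      rw [hDs]
      exact mo_stp hK c G v ih.1 ih.2
  have hmono1 : ∀ n m, n ≤ m → (D n).1 ⊆ (D m).1 := by
    intro n m h
    induction m, h using Nat.le_induction with
    | base => exact subset_rfl
    | succ m _ ih =>
      rw [hDs]
      exact ih.trans (hsub1 _)
  have hmono2 : ∀ n m, n ≤ m → (D n).2 ⊆ (D m).2 := by
    intro n m h
    induction m, h using Nat.le_induction with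
    | base => exact subset_rfl
    | succ m _ ih =>
      rw [hDs]
      exact ih.trans (hsub2 _)
  set C : Set K × Set Om1 := (⋃ n, (D n).1, ⋃ n, (D n).2) with hC
  have hmem1 : ∀ x ∈ C.1, ∃ n, x ∈ (D n).1 := fun x hx => mem_iUnion.1 hx
  have hmem2 : ∀ x ∈ C.2, ∃ n, x ∈ (D n).2 := fun x hx => mem_iUnion.1 hx
  have hin1 : ∀ n, (D n).1 ⊆ C.1 := fun n x hx => mem_iUnion.2 ⟨n, hx⟩
  have hin2 : ∀ n, (D n).2 ⊆ C.2 := fun n x hx => mem_iUnion.2 ⟨n, hx⟩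
  -- finite data with entries in `C` have entries in some `D n`
  have hT : ∀ t ∈ Tset e C, ∃ n, t ∈ Tset e (D n) := by
    intro t ht
    obtain ⟨n, hn⟩ := mo_fin t.S (fun n z => z.1 ∈ e '' (D n).1 ∧
      (z.2 = ⊤ ∨ ∃ x ∈ (D n).1, z.2 = (x : WithTop K))) (by
        rintro n m z hnm ⟨ha, hb⟩
        refine ⟨image_mono (hmono1 n m hnm) ha, ?_⟩
        rcases hb with hb | ⟨x, hx, hb⟩
        · exact Or.inl hb
        · exact Or.inr ⟨x, hmono1 n m hnm hx, hb⟩) (by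
        intro z hz
        obtain ⟨⟨ξ, hξ, hξz⟩, hb⟩ := ht.1 z hz
        obtain ⟨n1, hn1⟩ := hmem1 ξ hξ
        rcases hb with hb | ⟨x, hx, hb⟩
        · exact ⟨n1, ⟨ξ, hn1, hξz⟩, Or.inl hb⟩
        · obtain ⟨n2, hn2⟩ := hmem1 x hx
          exact ⟨max n1 n2, ⟨ξ, hmono1 _ _ (le_max_left _ _) hn1, hξz⟩,
            Or.inr ⟨x, hmono1 _ _ (le_max_right _ _) hn2, hb⟩⟩)
    obtain ⟨m, hm⟩ := mo_fin t.I (fun n z => z.1 ∈ (D n).1 ∧ z.2.1 ∈ (D n).2 ∧ z.2.2 ∈ (D n).2) (by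
        rintro n m z hnm ⟨ha, hb, hc⟩
        exact ⟨hmono1 n m hnm ha, hmono2 n m hnm hb, hmono2 n m hnm hc⟩) (by
        intro z hz
        obtain ⟨ha, hb, hc⟩ := ht.2 z hz
        obtain ⟨n1, hn1⟩ := hmem1 _ ha
        obtain ⟨n2, hn2⟩ := hmem2 _ hb
        obtain ⟨n3, hn3⟩ := hmem2 _ hc
        exact ⟨max n1 (max n2 n3), hmono1 _ _ (le_max_left _ _) hn1,
          hmono2 _ _ ((le_max_left _ _).trans (le_max_right _ _)) hn2,
          hmono2 _ _ ((le_max_right _ _).trans (le_max_right _ _)) hn3⟩)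
    refine ⟨max n m, fun z hz => ?_, fun z hz => ?_⟩
    · obtain ⟨ha, hb⟩ := hn z hz
      refine ⟨image_mono (hmono1 n _ (le_max_left _ _)) ha, ?_⟩
      rcases hb with hb | ⟨x, hx, hb⟩
      · exact Or.inl hb
      · exact Or.inr ⟨x, hmono1 n _ (le_max_left _ _) hx, hb⟩
    · obtain ⟨ha, hb, hc⟩ := hm z hz
      exact ⟨hmono1 m _ (le_max_right _ _) ha, hmono2 m _ (le_max_right _ _) hb,
        hmono2 m _ (le_max_right _ _) hc⟩
  refine ⟨C, countable_iUnion fun n => (hcnt n).1, countable_iUnion fun n => (hcnt n).2,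
    hin1 0, hin2 0, ?_, ?_⟩
  · rintro x ((hx | hx) | hx)
    · exact hx
    · obtain ⟨ξ, hξ, hx⟩ := mem_iUnion₂.1 hx
      obtain ⟨n, hn⟩ := hmem1 ξ hξ
      refine hin1 (n + 1) ?_
      rw [hDs]
      exact Or.inl (Or.inr (mem_iUnion₂.2 ⟨ξ, hn, hx⟩))
    · obtain ⟨t, ht, hx⟩ := mem_iUnion₂.1 hx
      obtain ⟨n, hn⟩ := hT t ht
      refine hin1 (n + 1) ?_
      rw [hDs]
      exact Or.inr (mem_iUnion₂.2 ⟨t, hn, hx⟩)
  · rintro x (((hx | hx) | hx) | hx)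
    · exact hx
    · obtain ⟨ξ, hξ, hx⟩ := mem_iUnion₂.1 hx
      obtain ⟨n, hn⟩ := hmem1 ξ hξ
      refine hin2 (n + 1) ?_
      rw [hDs]
      exact Or.inl (Or.inl (Or.inr (mem_iUnion₂.2 ⟨ξ, hn, hx⟩)))
    · obtain ⟨β, hβ, hx⟩ := mem_iUnion₂.1 hx
      obtain ⟨n, hn⟩ := hmem2 β hβ
      refine hin2 (n + 1) ?_
      rw [hDs]
      exact Or.inl (Or.inr (mem_iUnion₂.2 ⟨β, hn, hx⟩))
    · obtain ⟨t, ht, hx⟩ := mem_iUnion₂.1 hx
      obtain ⟨n, hn⟩ := hT t ht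
      refine hin2 (n + 1) ?_
      rw [hDs]
      exact Or.inr (mem_iUnion₂.2 ⟨t, hn, hx⟩)

/-- MODEL -/
theorem exists_model (hK : Fra e) (G : ℕ → Pre K → Pre K) (v : ℕ → Pre K → Om1)
    (hG : ∀ n t, ∀ M ∈ (G n t).mods, M.2.Countable) (p : Pre K)
    (hp : ∀ M ∈ p.mods, M.2.Countable) (z : K) (x : Om1) :
    ∃ N : Mod K, Good e N ∧ Inside e p N ∧ z ∈ N.2 ∧ x < N.1 ∧
      ∀ n t, Inside e t N → MarkIn t N → Inside e (G n t) N ∧ v n (G n t) < N.1 := by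
  classical
  have hc : ∀ M : Mod K, ∃ ξ : K, M.2.Countable → e ξ = M := by
    intro M
    by_cases hM : M.2.Countable
    · obtain ⟨ξ, hξ⟩ := hK.onto M hM
      exact ⟨ξ, fun _ => hξ⟩
    · exact ⟨z, fun h => (hM h).elim⟩
  choose c hc using hc
  obtain ⟨C, hC1, hC2, h01, h02, hs1, hs2⟩ := mo_closure hK c G v
    (C₀ := ({z} ∪ outK c p, {x} ∪ outO p)) ((countable_singleton _).union (mo_outK c p))
    ((countable_singleton _).union (mo_outO p))
  obtain ⟨δ, hδ, hmin⟩ := WellFounded.has_min (wellFounded_lt (α := Om1)) _ (mo_compl hC2)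
  have hdown : ∀ β ∈ C.2, ∀ γ < β, γ ∈ C.2 := fun β hβ γ hγ =>
    hs2 (Or.inl (Or.inr (mem_iUnion₂.2 ⟨β, hβ, hγ⟩)))
  have hlt : ∀ β ∈ C.2, β < δ := by
    intro β hβ
    rcases lt_trichotomy β δ with h | h | h
    · exact h
    · exact absurd (h ▸ hβ) hδ
    · exact absurd (hdown β hβ δ h) hδ
  have hlt' : ∀ β < δ, β ∈ C.2 := by
    intro β hβ
    by_contra h
    exact hmin β h hβ
  have hins : ∀ t : Pre K, (∀ M ∈ t.mods, M.2.Countable) → outK c t ⊆ C.1 → outO t ⊆ C.2 →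
      Inside e t (δ, C.1) := by
    intro t ht h1 h2
    refine ⟨fun M hM => ⟨c M, h1 (Or.inl ⟨M, hM, rfl⟩), hc M (ht M hM)⟩, fun j a d hj => ?_⟩
    exact ⟨h1 (Or.inr ⟨(j, a, d), hj, rfl⟩), hlt _ (h2 (Or.inl ⟨(j, a, d), hj, rfl⟩)),
      hlt _ (h2 (Or.inr ⟨(j, a, d), hj, rfl⟩))⟩
  refine ⟨(δ, C.1), ⟨hC1, fun ξ hξ => ⟨?_, ?_⟩⟩, ?_, ?_, ?_, ?_⟩
  · exact hlt _ (hs2 (Or.inl (Or.inl (Or.inr (mem_iUnion₂.2 ⟨ξ, hξ, rfl⟩)))))
  · intro y hy
    exact hs1 (Or.inl (Or.inr (mem_iUnion₂.2 ⟨ξ, hξ, hy⟩)))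
  · exact hins p hp (fun y hy => h01 (Or.inr hy)) (fun y hy => h02 (Or.inr hy))
  · exact h01 (Or.inl rfl)
  · exact hlt _ (h02 (Or.inl rfl))
  · intro n t ht hmt
    have htT : t ∈ Tset e C := by
      refine ⟨fun w hw => ?_, fun w hw => ?_⟩
      · obtain ⟨ξ, hξ, hξw⟩ := ht.1 w.1 ⟨w.2, hw⟩
        exact ⟨⟨ξ, hξ, hξw⟩, hmt w.1 w.2 hw⟩
      · obtain ⟨h1, h2, h3⟩ := ht.2 w.1 w.2.1 w.2.2 hw
        exact ⟨h1, hlt' _ h2, hlt' _ h3⟩
    refine ⟨hins _ (hG n t) ?_ ?_, ?_⟩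
    · intro y hy
      exact hs1 (Or.inr (mem_iUnion₂.2 ⟨t, htT, mem_iUnion.2 ⟨n, hy⟩⟩))
    · intro y hy
      exact hs2 (Or.inr (mem_iUnion₂.2 ⟨t, htT, mem_iUnion.2 ⟨n, Or.inl hy⟩⟩))
    · exact hlt _ (hs2 (Or.inr (mem_iUnion₂.2 ⟨t, htT, mem_iUnion.2 ⟨n, Or.inr rfl⟩⟩)))

end Pool.Agent.Lib_helper33.NI.H76
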