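import Pool.Agent.Lib_helper33.NI.CNAME27

/-!
# Block NOG: the name of a function for which `C` does not guess

The statement `jq_down` (block JQ) is used only for monotonicity; it is an explicit hypothesis.
-/

set_option linter.unusedSectionVars false
set_option linter.unusedVariables false

namespace Pool.Agent.Lib_helper33.NI

open Set Cardinal
open Pool.Agent.Lib_helper27.Q (Om1)
open Pool.Agent.Lib_helper27 Pool.Agent.Lib_helper27.V Fml

section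

variable {K : Type} [LinearOrder K] [WellFoundedLT K] {e : K → Mod K}
    {g : Om1 → Om1 → ℕ} {γ : K} {p0 : Pc e} {C : Name (Pc e)}

theorem act_mono_pr {p q : Pc e} (h : q ≤ p) (i : K) : p.1.act i ⊆ q.1.act i := h.2.1 i

theorem jq_down_nog {z : Om1 × ℕ} {p q : Pc e} (hq : q ≤ p) (h : JQ e g γ z p) :
    JQ e g γ z q := by
  obtain ⟨δ, h1, ⟨M, hM, hM'⟩, h3, h4⟩ := h
  exact ⟨δ, h1, ⟨M, act_mono_pr hq γ hM, hM'⟩, fun r hr => h3 r (hr.trans hq), h4⟩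

theorem psi_down {α : Om1} {k : ℕ} {p q : Pc e} (hq : q ≤ p) (h : PSI e g γ (cnm_pr C) α k p) :
    PSI e g γ (cnm_pr C) α k q := by
  obtain ⟨h0, x₀, u, v, h1, h2, h3, h4, h5⟩ := h
  exact ⟨h0, x₀, u, v, Forces.mono nf_basic hq h1, Forces.mono nf_basic hq h2,
    Forces.mono nf_basic hq h3, jq_down_nog hq h4, fun y hy hy' r hr => h5 y hy hy' r (hr.trans hq)⟩

/-- `p` knows that the value of `f` at `z.1` is `z.2` -/
def FQ (g : Om1 → Om1 → ℕ) (γ : K) (C : Name (Pc e)) (z : Om1 × ℕ) (p : Pc e) : Prop :=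
  (Lim z.1 ∧ PSI e g γ (cnm_pr C) z.1 z.2 p ∧ ∀ q ≤ p, ∀ k < z.2, ¬ PSI e g γ (cnm_pr C) z.1 k q) ∨
    (¬ Lim z.1 ∧ z.2 = 0)

theorem fq_down : Down (P := Pc e) (FQ g γ C) := by
  intro z p q hq h
  rcases h with ⟨h1, h2, h3⟩ | h
  · exact Or.inl ⟨h1, psi_down hq h2, fun r hr => h3 r (hr.trans hq)⟩
  · exact Or.inr h

/-- the name of the function -/
noncomputable def fnm (g : Om1 → Om1 → ℕ) (γ : K) (C : Name (Pc e)) : Name (Pc e) :=
  mkFn (Om1 × ℕ) (fun z => onm (Pc e) z.1) (fun z => onm (Pc e) z.2) (FQ g γ C)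

theorem fnm_func (h : ∀ α, Lim α → ∀ p ≤ p0, ∃ q ≤ p, ∃ k, PSI e g γ (cnm_pr C) α k q) :
    Fc p0 (isFunc (fnm g γ C) (oall (Pc e) Om1) (oall (Pc e) ℕ)) := by
  classical
  refine fc_isFunc fq_down ?_ ?_ ?_
  · intro z r _ _
    exact ⟨onm_mem_oall _ r, onm_mem_oall _ r⟩
  · intro x q hq hx
    refine (fmem_oall.1 hx).bind ?_
    rintro r hr ⟨α, hα⟩
    intro s hs
    by_cases hl : Lim α
    · have hex : ∃ k, ∃ q' ≤ s, PSI e g γ (cnm_pr C) α k q' := by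
        obtain ⟨q', h1, k, h2⟩ := h α hl s (hs.trans (hr.trans hq))
        exact ⟨k, q', h1, h2⟩
      obtain ⟨q', h1, h2⟩ := Nat.find_spec hex
      refine ⟨q', h1, (α, Nat.find hex), Or.inl ⟨hl, h2, fun t ht k hk h3 => ?_⟩,
        feq_mono (h1.trans hs) hα⟩
      exact Nat.find_min hex hk ⟨t, ht.trans h1, h3⟩
    · exact ⟨s, le_rfl, (α, 0), Or.inr ⟨hl, rfl⟩, feq_mono hs hα⟩
  · rintro ⟨α, k⟩ ⟨β, l⟩ r hr h1 h2 h3
    have hab : α = β := onm_inj h3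
    subst hab
    rcases h1 with ⟨a1, a2, a3⟩ | ⟨a1, a2⟩
    · rcases h2 with ⟨b1, b2, b3⟩ | ⟨b1, b2⟩
      · rcases lt_trichotomy k l with hlt | heq | hgt
        · exact (b3 r le_rfl k hlt a2).elim
        · subst heq
          exact feq_refl _ _
        · exact (a3 r le_rfl l hgt b2).elim
      · exact (b1 a1).elim
    · rcases h2 with ⟨b1, b2, b3⟩ | ⟨b1, b2⟩
      · exact (a1 b1).elim
      · simp only at a2 b2
        subst a2
        subst b2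
        exact feq_refl _ _

theorem zero_isZero (p : Pc e) : Fc p (isZero (onm (Pc e) (0 : ℕ))) := by
  intro y q hq hy
  obtain ⟨r, hr, n, hn, _⟩ := (fmem_onm.1 hy).exists
  exact absurd hn (Nat.not_lt_zero n)

/-- the core: `PSI` at two limits with the same color contradicts the pattern -/
theorem nog_core (hC : Fc p0 (isCSeq (oall (Pc e) ℕ) (oall (Pc e) Om1) C)) {p : Pc e}
    (hp : p ≤ p0) {α β : Om1} (hα : Lim α) (hβ : Lim β) {m : ℕ}
    (h1 : PSI e g γ (cnm_pr C) α m p) (h2 : PSI e g γ (cnm_pr C) β m p) {k c d : Name (Pc e)}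
    (hk : feq k (onm (Pc e) m) p) (hc : Fc p (app C (onm (Pc e) α) c))
    (hd : Fc p (app C (onm (Pc e) β) d)) (hs : Fc p (isStar k c d)) : False := by
  obtain ⟨hm, x₀, u, v, _, a2, a3, _, a5⟩ := h1
  obtain ⟨_, y₀, u', v', b1, _, _, b4, _⟩ := h2
  have e1 := cnm_app hC hp hα hc a2
  have e2 := cnm_app hC hp hα hc a3
  have e3 := cnm_app hC hp hβ hd b1
  have f1 := (forces_imp nf_basic).1 (hs.1 (onm (Pc e) (m - 1)) (onm (Pc e) (0 : ℕ))
    (onm (Pc e) v) (onm (Pc e) y₀)) p le_rfl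
    ⟨fmem_congr_right (feq_symm hk) (onm_mem (Nat.sub_lt hm Nat.one_pos) p), zero_isZero p, e2, e3⟩
  have f2 := (forces_imp nf_basic).1 (hs.2.1 (onm (Pc e) (0 : ℕ))
    (onm (Pc e) u) (onm (Pc e) y₀)) p le_rfl
    ⟨zero_isZero p, app_congr' (feq_symm hk) (feq_refl _ _) e1, e3⟩
  exact a5 y₀ (onm_mem_iff.1 f1) (onm_mem_iff.1 f2) p le_rfl b4

theorem not_guessing_pr
    (hC : Fc p0 (isCSeq (oall (Pc e) ℕ) (oall (Pc e) Om1) C))
    (h : ∀ α, Lim α → ∀ p ≤ p0, ∃ q ≤ p, ∃ k, PSI e g γ (cnm_pr C) α k q) :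
    ¬ Fc p0 (isStarGuessing (oall (Pc e) ℕ) (oall (Pc e) Om1) C) := by
  intro hg
  have h1 := (forces_imp nf_basic).1 (hg (fnm g γ C)) p0 le_rfl (fnm_func h)
  obtain ⟨q1, hq1, a, _, h2⟩ := (forces_bex.1 h1).exists
  obtain ⟨q2, hq2, b, _, h3⟩ := (forces_bex.1 h2).exists
  obtain ⟨q3, hq3, k, _, h4⟩ := (forces_bex.1 h3).exists
  obtain ⟨q4, hq4, c, h5⟩ := (forces_ex.1 h4).exists
  obtain ⟨q5, hq5, d, h6⟩ := (forces_ex.1 h5).exists
  obtain ⟨⟨ha, hb, _⟩, ⟨hfa, hfb⟩, ⟨hca, hdb⟩, hst⟩ := h6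
  have h05 : q5 ≤ p0 := hq5.trans (hq4.trans (hq3.trans (hq2.trans hq1)))
  obtain ⟨q6, hq6, ⟨α, m⟩, hi, heα, hem⟩ := ((fc_app fq_down).1 hfa).exists
  obtain ⟨q7, hq7, ⟨β, n⟩, hj, heβ, hen⟩ :=
    ((fc_app fq_down).1 (Forces.mono nf_basic hq6 hfb)).exists
  simp only at heα hem heβ hen
  have hmn : m = n := onm_inj (feq_trans (feq_symm (feq_mono hq7 hem)) hen)
  subst hmn
  have h75 : q7 ≤ q5 := hq7.trans hq6
  have hα : Lim α := lim_of_forces_pr ((fc_uni (cv (Fml.isLimit 0) 1) 1 (l := []) (l' := [])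
    .nil (feq_mono hq7 heα) le_rfl).1 (Forces.mono nf_basic h75 ha))
  have hβ : Lim β := lim_of_forces_pr ((fc_uni (cv (Fml.isLimit 0) 1) 1 (l := []) (l' := [])
    .nil heβ le_rfl).1 (Forces.mono nf_basic h75 hb))
  have hca' : Fc q7 (app C (onm (Pc e) α) c) :=
    app_congr' (feq_mono hq7 heα) (feq_refl _ _) (Forces.mono nf_basic h75 hca)
  have hdb' : Fc q7 (app C (onm (Pc e) β) d) :=
    app_congr' heβ (feq_refl _ _) (Forces.mono nf_basic h75 hdb)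
  have hpα : PSI e g γ (cnm_pr C) α m q7 := by
    rcases hi with ⟨_, h2, _⟩ | ⟨h1, _⟩
    · exact psi_down hq7 h2
    · exact (h1 hα).elim
  have hpβ : PSI e g γ (cnm_pr C) β m q7 := by
    rcases hj with ⟨_, h2, _⟩ | ⟨h1, _⟩
    · exact h2
    · exact (h1 hβ).elim
  obtain ⟨q8, hq8, hs⟩ := (forces_or.1 (Forces.mono nf_basic h75 hst)).exists
  have h80 : q8 ≤ p0 := hq8.trans (h75.trans h05)
  rcases hs with hs | hs
  · exact nog_core hC h80 hα hβ (psi_down hq8 hpα) (psi_down hq8 hpβ) (feq_mono hq8 hen)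
      (Forces.mono nf_basic hq8 hca') (Forces.mono nf_basic hq8 hdb') hs
  · exact nog_core hC h80 hβ hα (psi_down hq8 hpβ) (psi_down hq8 hpα) (feq_mono hq8 hen)
      (Forces.mono nf_basic hq8 hdb') (Forces.mono nf_basic hq8 hca') hs

end

end Pool.Agent.Lib_helper33.NI
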