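import Pool.Agent.Lib_helper33.NI.Uni76

/-! Block TYPE (helper76). -/

set_option linter.unusedSectionVars false

namespace Pool.Agent.Lib_helper33.NI.H76

open Set Cardinal
open Pool.Agent.Lib_helper27.Q (Om1)

theorem ty_mk_prod {A B : Type} (ha : #A ≤ 𝔠) (hb : #B ≤ 𝔠) : #(A × B) ≤ 𝔠 := by
  rw [mk_prod, lift_id, lift_id]
  exact (mul_le_mul' ha hb).trans_eq continuum_mul_self

theorem ty_mk_finset {A : Type} (h : #A ≤ 𝔠) : #(Finset A) ≤ 𝔠 := by
  classical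
  have h1 : #(Finset A) ≤ #(List A) :=
    mk_le_of_surjective (f := List.toFinset) (fun s => ⟨s.toList, Finset.toList_toFinset s⟩)
  exact h1.trans ((mk_list_le_max A).trans (max_le aleph0_le_continuum h))

theorem ty_mk_fun {A : Type} (h : #A ≤ 𝔠) : #(ℕ → A) ≤ 𝔠 := by
  rw [← power_def, mk_nat]
  exact (power_le_power_right h).trans_eq continuum_power_aleph0

theorem ty_mk_set : #(Set (ℕ × ℕ)) ≤ 𝔠 := by
  rw [mk_set, mk_eq_aleph0, two_power_aleph0]

theorem ty_mk_om1 : #Om1 ≤ 𝔠 := by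
  rw [Pool.Agent.Lib_helper27.Q.mk_om1]
  exact aleph_one_le_continuum

/-- the types -/
abbrev Tau : Type := Set ℕ × Set (ℕ × ℕ) × Finset (Om1 × Set ℕ × Set ℕ) × Finset (ℕ × Om1 × Om1) ×
  (ℕ → Om1) × Set (ℕ × ℕ)

theorem mk_tau : #Tau ≤ 𝔠 := by
  have h1 : #(Set ℕ) ≤ 𝔠 := mk_set_nat.le
  refine ty_mk_prod h1 (ty_mk_prod ty_mk_set (ty_mk_prod (ty_mk_finset (ty_mk_prod ty_mk_om1
    (ty_mk_prod h1 h1))) (ty_mk_prod (ty_mk_finset (ty_mk_prod ?_ (ty_mk_prod ty_mk_om1 ty_mk_om1)))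
    (ty_mk_prod (ty_mk_fun ty_mk_om1) ty_mk_set))))
  rw [mk_nat]
  exact aleph0_le_continuum

variable {K : Type} [LinearOrder K] [WellFoundedLT K] {e : K → Mod K}

theorem supp_countable (p : Pc e) : (supp p.1).Countable := by
  have h1 : supp p.1 ⊆ (⋃ M ∈ (Prod.fst '' (p.1.S : Set (Mod K × WithTop K)) : Set (Mod K)), M.2) ∪
      Prod.fst '' (p.1.I : Set (K × Om1 × Om1)) := by
    rintro x (⟨M, ⟨a, ha⟩, hx⟩ | ⟨c, d, hx⟩)
    · exact Or.inl (mem_biUnion (⟨(M, a), ha, rfl⟩ : M ∈ Prod.fst '' _) hx)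
    · exact Or.inr ⟨(x, c, d), hx, rfl⟩
  refine Countable.mono h1 (Countable.union ?_ ?_)
  · refine Countable.biUnion ((Finset.countable_toSet _).image _) ?_
    rintro M ⟨⟨M', a⟩, ha, rfl⟩
    exact (p.2.sym.good M' ⟨a, ha⟩).cnt
  · exact (Finset.countable_toSet _).image _

open Classical in
/-- the type of `p` read off with the help of `u` -/
noncomputable def tyf (e : K → Mod K) (X : Set K) (u : K → ℕ) (p : Pre K) : Tau :=
  (u '' X, {z | ∃ x ∈ X, ∃ y ∈ X, x < y ∧ z = (u x, u y)},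
    p.S.image (fun z => (z.1.1, u '' z.1.2, u '' {i | i ∈ z.1.2 ∧ (i : WithTop K) < z.2})),
    p.I.image (fun z => (u z.1, z.2)),
    (fun n => if h : ∃ x, x ∈ X ∧ u x = n then (e h.choose).1 else Classical.arbitrary Om1),
    {z | ∃ x ∈ X, ∃ y ∈ X, y ∈ (e x).2 ∧ z = (u x, u y)})


/-- what is used of two conditions with the same type -/
structure Sim (e : K → Mod K) (p q : Pre K) (π : K → K) : Prop where
  oiso : OIso (supp p) (supp q) π
  iso : ∀ M ∈ p.mods, img π M ∈ q.mods ∧ Iso e M (img π M) π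
  sur : ∀ N ∈ q.mods, ∃ M ∈ p.mods, img π M = N
  act : ∀ i ∈ supp p, ∀ M ∈ p.act i, img π M ∈ q.act (π i)
  sact : ∀ i ∈ supp p, ∀ N ∈ q.act (π i), ∃ M ∈ p.act i, img π M = N

theorem act_mods {p : Pre K} {i : K} {M : Mod K} (h : M ∈ p.act i) : M ∈ p.mods := by
  obtain ⟨a, ha, _⟩ := h
  exact ⟨a, ha⟩

theorem act_mem {p : Pre K} {i : K} {M : Mod K} (h : M ∈ p.act i) : i ∈ M.2 := by
  obtain ⟨a, ha, h1, _⟩ := h
  exact h1

theorem mods_supp {p : Pre K} {M : Mod K} (h : M ∈ p.mods) : M.2 ⊆ supp p :=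
  fun _ hx => Or.inl ⟨M, h, hx⟩

theorem sim_of_ty {p q : Pc e} {u v : K → ℕ} (hu : InjOn u (supp p.1)) (hv : InjOn v (supp q.1))
    (h : tyf e (supp p.1) u p.1 = tyf e (supp q.1) v q.1) : ∃ π, Sim e p.1 q.1 π := by
  classical
  set X := supp p.1 with hX
  set Y := supp q.1 with hY
  simp only [tyf, Prod.mk.injEq] at h
  obtain ⟨hU, hL, hS, -, hC1, hC2⟩ := h
  have h1 : ∀ x, ∃ y, x ∈ X → y ∈ Y ∧ v y = u x := by
    intro x
    by_cases hx : x ∈ X
    · have : u x ∈ v '' Y := by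
        rw [← hU]
        exact ⟨x, hx, rfl⟩
      obtain ⟨y, hy, hyx⟩ := this
      exact ⟨y, fun _ => ⟨hy, hyx⟩⟩
    · exact ⟨x, fun h => (hx h).elim⟩
  choose π hπ using h1
  have hπY : ∀ x ∈ X, π x ∈ Y := fun x hx => (hπ x hx).1
  have hπv : ∀ x ∈ X, v (π x) = u x := fun x hx => (hπ x hx).2
  have hsurj : ∀ y ∈ Y, ∃ x ∈ X, π x = y := by
    intro y hy
    have : v y ∈ u '' X := by
      rw [hU]
      exact ⟨y, hy, rfl⟩
    obtain ⟨x, hx, hxy⟩ := this
    exact ⟨x, hx, hv (hπY x hx) hy (by rw [hπv x hx, hxy])⟩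
  have hinj : ∀ x ∈ X, ∀ y ∈ X, π x = π y → x = y := by
    intro x hx y hy hxy
    exact hu hx hy (by rw [← hπv x hx, ← hπv y hy, hxy])
  have hmono : ∀ x ∈ X, ∀ y ∈ X, x < y → π x < π y := by
    intro x hx y hy hxy
    have : (u x, u y) ∈ {z : ℕ × ℕ | ∃ x ∈ Y, ∃ y ∈ Y, x < y ∧ z = (v x, v y)} := by
      rw [← hL]
      exact ⟨x, hx, y, hy, hxy, rfl⟩
    obtain ⟨x', hx', y', hy', hlt, heq⟩ := this
    obtain ⟨h1, h2⟩ := Prod.mk.inj heq
    have e1 : π x = x' := hv (hπY x hx) hx' (by rw [hπv x hx, h1])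
    have e2 : π y = y' := hv (hπY y hy) hy' (by rw [hπv y hy, h2])
    rw [e1, e2]
    exact hlt
  have hO : OIso X Y π := ⟨hπY, hsurj, hmono⟩
  -- images
  have himg : ∀ A ⊆ X, ∀ B ⊆ Y, u '' A = v '' B → π '' A = B := by
    intro A hA B hB hAB
    ext y
    constructor
    · rintro ⟨x, hx, rfl⟩
      have : u x ∈ v '' B := by
        rw [← hAB]
        exact ⟨x, hx, rfl⟩
      obtain ⟨y, hy, hyx⟩ := this
      have : π x = y := hv (hπY x (hA hx)) (hB hy) (by rw [hπv x (hA hx), hyx])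
      rw [this]
      exact hy
    · intro hy
      have : v y ∈ u '' A := by
        rw [hAB]
        exact ⟨y, hy, rfl⟩
      obtain ⟨x, hx, hxy⟩ := this
      exact ⟨x, hx, hv (hπY x (hA hx)) (hB hy) (by rw [hπv x (hA hx), hxy])⟩
  have hpX : ∀ M ∈ p.1.mods, M.2 ⊆ X := fun M hM => mods_supp hM
  have hqY : ∀ M ∈ q.1.mods, M.2 ⊆ Y := fun M hM => mods_supp hM
  have hpq : ∀ M a, (M, a) ∈ p.1.S → ∃ a', (img π M, a') ∈ q.1.S ∧
      ∀ i ∈ M.2, ((i : WithTop K) < a → (π i : WithTop K) < a') := by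
    intro M a hMa
    have : (M.1, u '' M.2, u '' {i | i ∈ M.2 ∧ (i : WithTop K) < a}) ∈
        q.1.S.image (fun z => (z.1.1, v '' z.1.2, v '' {i | i ∈ z.1.2 ∧ (i : WithTop K) < z.2})) := by
      rw [← hS]
      exact Finset.mem_image.2 ⟨(M, a), hMa, rfl⟩
    obtain ⟨⟨N, a'⟩, hN, heq⟩ := Finset.mem_image.1 this
    simp only [Prod.mk.injEq] at heq
    obtain ⟨h1, h2, h3⟩ := heq
    have hMX := hpX M ⟨a, hMa⟩
    have hNY := hqY N ⟨a', hN⟩
    have h4 := himg _ hMX _ hNY h2.symm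
    have h5 := himg _ (fun x hx => hMX hx.1) _ (fun x hx => hNY hx.1) h3.symm
    have h6 : img π M = N := Prod.ext h1.symm h4
    refine ⟨a', by rw [h6]; exact hN, fun i hi hia => ?_⟩
    have : π i ∈ {i | i ∈ N.2 ∧ (i : WithTop K) < a'} := by
      rw [← h5]
      exact ⟨i, ⟨hi, hia⟩, rfl⟩
    exact this.2
  have hqp : ∀ N a', (N, a') ∈ q.1.S → ∃ M a, (M, a) ∈ p.1.S ∧ img π M = N ∧
      ∀ i ∈ M.2, ((π i : WithTop K) < a' → (i : WithTop K) < a) := by
    intro N a' hNa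
    have : (N.1, v '' N.2, v '' {i | i ∈ N.2 ∧ (i : WithTop K) < a'}) ∈
        p.1.S.image (fun z => (z.1.1, u '' z.1.2, u '' {i | i ∈ z.1.2 ∧ (i : WithTop K) < z.2})) := by
      rw [hS]
      exact Finset.mem_image.2 ⟨(N, a'), hNa, rfl⟩
    obtain ⟨⟨M, a⟩, hM, heq⟩ := Finset.mem_image.1 this
    simp only [Prod.mk.injEq] at heq
    obtain ⟨h1, h2, h3⟩ := heq
    have hMX := hpX M ⟨a, hM⟩
    have hNY := hqY N ⟨a', hNa⟩
    have h4 := himg _ hMX _ hNY h2
    have h5 := himg _ (fun x hx => hMX hx.1) _ (fun x hx => hNY hx.1) h3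
    have h6 : img π M = N := Prod.ext h1 h4
    refine ⟨M, a, hM, h6, fun i hi hia => ?_⟩
    have : π i ∈ {i | i ∈ N.2 ∧ (i : WithTop K) < a'} := by
      refine ⟨?_, hia⟩
      rw [← h4]
      exact ⟨i, hi, rfl⟩
    rw [← h5] at this
    obtain ⟨i', hi', hii⟩ := this
    have : i' = i := hinj i' (hMX hi'.1) i (hMX hi) hii
    rw [← this]
    exact hi'.2
  refine ⟨π, hO, ?_, ?_, ?_, ?_⟩
  · rintro M ⟨a, ha⟩
    obtain ⟨a', ha', -⟩ := hpq M a ha
    refine ⟨⟨a', ha'⟩, hO.restr (hpX M ⟨a, ha⟩), rfl, fun ξ hξ => ?_⟩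
    have hξX : ξ ∈ X := hpX M ⟨a, ha⟩ hξ
    have hπξ : π ξ ∈ Y := hπY ξ hξX
    have hg := (p.2.sym.good M ⟨a, ha⟩).cl ξ hξ
    have hg' := (q.2.sym.good _ ⟨a', ha'⟩).cl (π ξ) ⟨ξ, hξ, rfl⟩
    have hsub : (e ξ).2 ⊆ X := hg.2.trans (hpX M ⟨a, ha⟩)
    have hsub' : (e (π ξ)).2 ⊆ Y := hg'.2.trans (hqY _ ⟨a', ha'⟩)
    refine Prod.ext ?_ ?_
    · have h2 := congrFun hC1 (u ξ)
      have hex1 : ∃ x, x ∈ X ∧ u x = u ξ := ⟨ξ, hξX, rfl⟩
      have hex2 : ∃ x, x ∈ Y ∧ v x = u ξ := ⟨π ξ, hπξ, hπv ξ hξX⟩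
      rw [dif_pos hex1, dif_pos hex2] at h2
      have e1 : hex1.choose = ξ := hu hex1.choose_spec.1 hξX hex1.choose_spec.2
      have e2 : hex2.choose = π ξ :=
        hv hex2.choose_spec.1 hπξ (by rw [hex2.choose_spec.2, hπv ξ hξX])
      rw [e1, e2] at h2
      exact h2.symm
    · ext y'
      constructor
      · intro hy'
        have hy'Y := hsub' hy'
        have : (u ξ, v y') ∈ {z : ℕ × ℕ | ∃ x ∈ X, ∃ y ∈ X, y ∈ (e x).2 ∧ z = (u x, u y)} := by
          rw [hC2]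
          exact ⟨π ξ, hπξ, y', hy'Y, hy', by rw [hπv ξ hξX]⟩
        obtain ⟨x, hx, y, hy, hyx, heq⟩ := this
        obtain ⟨h1, h2⟩ := Prod.mk.inj heq
        have e1 : ξ = x := hu hξX hx h1
        subst e1
        exact ⟨y, hyx, hv (hπY y hy) hy'Y (by rw [hπv y hy, h2])⟩
      · rintro ⟨y, hy, rfl⟩
        have hyX := hsub hy
        have : (u ξ, u y) ∈ {z : ℕ × ℕ | ∃ x ∈ Y, ∃ y ∈ Y, y ∈ (e x).2 ∧ z = (v x, v y)} := by
          rw [← hC2]
          exact ⟨ξ, hξX, y, hyX, hy, rfl⟩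
        obtain ⟨x', hx', y', hy', hyx, heq⟩ := this
        obtain ⟨h1, h2⟩ := Prod.mk.inj heq
        have e1 : π ξ = x' := hv hπξ hx' (by rw [hπv ξ hξX, h1])
        have e2 : π y = y' := hv (hπY y hyX) hy' (by rw [hπv y hyX, h2])
        rw [e1, e2]
        exact hyx
  · rintro N ⟨a', ha'⟩
    obtain ⟨M, a, ha, h, -⟩ := hqp N a' ha'
    exact ⟨M, ⟨a, ha⟩, h⟩
  · rintro i hi M ⟨a, ha, hiM, hia⟩
    obtain ⟨a', ha', h⟩ := hpq M a ha
    exact ⟨a', ha', ⟨i, hiM, rfl⟩, h i hiM hia⟩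
  · rintro i hi N ⟨a', ha', hiN, hia⟩
    obtain ⟨M, a, ha, hMN, h⟩ := hqp N a' ha'
    rw [← hMN] at hiN
    obtain ⟨i', hi', hii⟩ := hiN
    have : i' = i := hinj i' (hpX M ⟨a, ha⟩ hi') i hi hii
    subst this
    exact ⟨M, ⟨a, ha, hi', h i' hi' hia⟩, hMN⟩

/-- TYPE: there are only continuum many types of conditions. -/
theorem exists_type (he : ∀ x, (e x).2.Countable) : ∃ (τ : Type) (ty : Pc e → τ), #τ ≤ 𝔠 ∧
    ∀ p q : Pc e, ty p = ty q → Coh (supp p.1) (supp q.1) → ∃ r, r ≤ p ∧ r ≤ q := by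
  classical
  have h1 : ∀ p : Pc e, ∃ u : K → ℕ, InjOn u (supp p.1) := fun p =>
    (countable_iff_exists_injOn).1 (supp_countable p)
  choose u hu using h1
  refine ⟨Tau, fun p => tyf e (supp p.1) (u p) p.1, mk_tau, fun p q hpq hco => ?_⟩
  obtain ⟨π, hS⟩ := sim_of_ty (hu p) (hu q) hpq
  set r : Pre K := ⟨p.1.S ∪ q.1.S, p.1.I ∪ q.1.I⟩ with hr
  have hm : r.mods = p.1.mods ∪ q.1.mods := by
    ext M
    constructor
    · rintro ⟨a, ha⟩
      rcases Finset.mem_union.1 ha with h | h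
      · exact Or.inl ⟨a, h⟩
      · exact Or.inr ⟨a, h⟩
    · rintro (⟨a, ha⟩ | ⟨a, ha⟩)
      · exact ⟨a, Finset.mem_union_left _ ha⟩
      · exact ⟨a, Finset.mem_union_right _ ha⟩
  have ha : ∀ i, r.act i = p.1.act i ∪ q.1.act i := by
    intro i
    ext M
    constructor
    · rintro ⟨a, ha, hiM, hia⟩
      rcases Finset.mem_union.1 ha with h | h
      · exact Or.inl ⟨a, h, hiM, hia⟩
      · exact Or.inr ⟨a, h, hiM, hia⟩
    · rintro (⟨a, ha, hiM, hia⟩ | ⟨a, ha, hiM, hia⟩)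
      · exact ⟨a, Finset.mem_union_left _ ha, hiM, hia⟩
      · exact ⟨a, Finset.mem_union_right _ ha, hiM, hia⟩
  have hfix : ∀ i ∈ supp p.1, i ∈ supp q.1 → π i = i := hS.oiso.fix hco
  have hcond : IsCond e r := by
    refine ⟨?_, ?_, ?_⟩
    · rw [hm]
      exact sym_union p.2.sym q.2.sym (fun M hM => mods_supp hM) (fun M hM => mods_supp hM)
        hS.oiso hco hS.iso hS.sur
    · intro i
      rw [ha i]
      by_cases hip : i ∈ supp p.1
      · by_cases hiq : i ∈ supp q.1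
        · have hi := hfix i hip hiq
          refine sym_union (p.2.symi i) (q.2.symi i) (fun M hM => mods_supp (act_mods hM))
            (fun M hM => mods_supp (act_mods hM)) hS.oiso hco (fun M hM => ?_) (fun N hN => ?_)
          · have := hS.act i hip M hM
            rw [hi] at this
            exact ⟨this, (hS.iso M (act_mods hM)).2⟩
          · have := hS.sact i hip N (by rw [hi]; exact hN)
            exact this
        · have : q.1.act i = ∅ := by
            rw [eq_empty_iff_forall_notMem]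
            intro M hM
            exact hiq (mods_supp (act_mods hM) (act_mem hM))
          rw [this, union_empty]
          exact p.2.symi i
      · have : p.1.act i = ∅ := by
          rw [eq_empty_iff_forall_notMem]
          intro M hM
          exact hip (mods_supp (act_mods hM) (act_mem hM))
        rw [this, empty_union]
        exact q.2.symi i
    · intro j c d hj M hM
      rw [ha j] at hM
      rcases Finset.mem_union.1 hj with hj | hj
      · rcases hM with hM | hM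
        · exact p.2.prom j c d hj M hM
        · have hjX : j ∈ supp p.1 := Or.inr ⟨c, d, hj⟩
          have hjY : j ∈ supp q.1 := mods_supp (act_mods hM) (act_mem hM)
          obtain ⟨M0, hM0, rfl⟩ := hS.sact j hjX M (by rw [hfix j hjX hjY]; exact hM)
          exact p.2.prom j c d hj M0 hM0
      · rcases hM with hM | hM
        · have hjY : j ∈ supp q.1 := Or.inr ⟨c, d, hj⟩
          have hjX : j ∈ supp p.1 := mods_supp (act_mods hM) (act_mem hM)
          have := hS.act j hjX M hM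
          rw [hfix j hjX hjY] at this
          have h3 := q.2.prom j c d hj (img π M) this
          exact h3
        · exact q.2.prom j c d hj M hM
  refine ⟨⟨r, hcond⟩, ⟨?_, ?_, ?_⟩, ⟨?_, ?_, ?_⟩⟩
  · rw [hm]
    exact subset_union_left
  · intro i
    rw [ha i]
    exact subset_union_left
  · exact Finset.subset_union_left
  · rw [hm]
    exact subset_union_right
  · intro i
    rw [ha i]
    exact subset_union_right
  · exact Finset.subset_union_right

end Pool.Agent.Lib_helper33.NI.H76
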