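import Pool.Agent.Lib_helper33.NI.Gen
import Pool.Agent.Lib_helper33.NI.Kill
import Pool.Agent.Lib_helper33.NI.Frame
import Pool.Agent.Lib_helper33.NI.Cond76
import Pool.Agent.Lib_helper33.NI.Type76
import Pool.Agent.Lib_helper33.NI.Model76
import Pool.Agent.Lib_helper33.NI.NOG27
import Pool.Agent.Lib_helper33.NI.HART27
import Pool.Agent.Lib_helper27.V.Zfc

/-!
# A model of ZFC in which no C-sequence guesses the types `0^k 1 0 1^k`
-/

set_option linter.unusedSectionVars false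
set_option linter.unusedVariables false

namespace Pool.Agent.Lib_helper33.NI

open Set Cardinal
open Pool.Agent.Lib_helper27.Q (Om1)

section

variable {K : Type} [LinearOrder K] [WellFoundedLT K] {e : K → Mod K}

theorem kcc (hK : Fra e) {A : Set (Pc e)}
    (hA : ∀ a ∈ A, ∀ b ∈ A, (∃ r, r ≤ a ∧ r ≤ b) → a = b) : #A ≤ 𝔠 := by
  obtain ⟨τ, ty, hτ, hty⟩ := H76.exists_type (e := e) hK.cnt
  exact kcc' hK hτ hty (exists_closed hK hτ) hA

theorem proper (hK : Fra e) : Proper' (Pc e) := by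
  obtain ⟨z₀, -⟩ := hK.bdd ∅ (by simp)
  obtain ⟨x₀⟩ : Nonempty Om1 := inferInstance
  exact proper' (H76.exists_model hK) H76.exists_addN H76.exists_canon z₀ x₀

theorem exists_higher (hK : Fra e) (p : Pc e) (γ : K) (x : Om1) :
    ∃ q ≤ p, ∃ M ∈ q.1.act γ, x < M.1 :=
  exists_higher' (H76.exists_model hK) H76.exists_addN p γ x

theorem exists_gamma (hK : Fra e) {p0 : Pc e} {c : Om1 → ℕ → Om1 → Pc e → Prop}
    (hc : CName p0 c) : ∃ γ : K, Below γ p0.1 ∧ ∀ α, Lim α → ∀ k, ∀ p ≤ p0, ∃ q ≤ p,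
      ∃ a : Pc e, q ≤ a ∧ Below γ a.1 ∧ ∃ v, c α k v a :=
  exists_gamma' hK (fun _ hA => kcc hK hA) hc

theorem kill (hK : Fra e) {g : Om1 → Om1 → ℕ} (hg : GInj g) {p0 : Pc e}
    {c : Om1 → ℕ → Om1 → Pc e → Prop} (hc : CName p0 c) :
    ∃ γ : K, ∀ α, Lim α → ∀ p ≤ p0, ∃ q ≤ p, ∃ k, PSI e g γ c α k q :=
  kill' H76.res_cond H76.res_le H76.exists_graft H76.exists_addI (exists_higher hK) hg hc
    (exists_gamma hK hc)

end

section final

open Pool.Agent.Lib_helper27 Pool.Agent.Lib_helper27.V Fml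

instance {K : Type} [LinearOrder K] (e : K → Mod K) : Nonempty (Pc e) := by
  refine ⟨⟨⟨∅, ∅⟩, ?_, ?_, ?_⟩⟩
  · have : (⟨∅, ∅⟩ : Pre K).mods = ∅ := by
      ext M
      simp [Pre.mods]
    rw [this]
    exact ⟨fun _ h => h.elim, fun _ h => h.elim, fun _ h => h.elim, fun _ h => h.elim⟩
  · intro i
    have : (⟨∅, ∅⟩ : Pre K).act i = ∅ := by
      ext M
      simp [Pre.act]
    rw [this]
    exact ⟨fun _ h => h.elim, fun _ h => h.elim, fun _ h => h.elim, fun _ h => h.elim⟩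
  · intro j c d h
    simp at h

theorem forces_noStarGuessing {K : Type} [LinearOrder K] [WellFoundedLT K] {e : K → Mod K}
    (hK : Fra e) (p : Pc e) : Fc p noStarGuessing := by
  obtain ⟨g, hg⟩ := exists_ginj
  refine forces_ex.2 (Loc.pure fun q _ => ⟨oall _ ℕ, forces_ex.2 (Loc.pure fun r _ =>
    ⟨oall _ Om1, omega_isOmega r, hart_proper_pr (proper hK) r, fun C => ?_⟩)⟩)
  refine (forces_imp nf_basic).2 fun s _ hs => ?_
  intro t ht hcon
  have hC := Forces.mono nf_basic ht hs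
  obtain ⟨γ, hγ⟩ := kill hK hg (cname_of_forces_pr hC)
  exact not_guessing_pr hC hγ hcon

/-- There is a model of ZFC in which no C-sequence is guessing for the types `0^k 1 0 1^k`. -/
theorem main : ∃ (M : Type 1) (E : M → M → Prop), IsModelOfZFC E ∧ Holds E noStarGuessing := by
  obtain ⟨K, _, _, e, hK⟩ := exists_fra
  refine ⟨Ext (Pc e), extE (Pc e), ext_zfc, ?_⟩
  have h : Lk (noStarGuessing : Fml (Ext (Pc e))) (noStarGuessing : Fml (Name (Pc e))) :=
    DF.lk (cv noStarGuessing 0) 0 fun _ => oall (Pc e) ℕ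
  exact (los h).2 (T_of_forces (forces_noStarGuessing hK))

end final

end Pool.Agent.Lib_helper33.NI
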