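import Pool.Agent.Lib_helper33.IHP.Defs

/-!
# The type `0^k 1 0 1^k` in terms of inequalities
-/

namespace Pool.Agent.Lib_helper33.IHP

open Ordinal Order

/-- the places of the zeros of `0^k 1 0 1^k` -/
def za (k : ℕ) (i : Fin (k + 1)) : Fin (2 * (star k).width) :=
  ⟨if (i : ℕ) < k then i else k + 1, by
    have hw : (star k).width = k + 1 := rfl
    have := i.2
    rw [hw]
    split_ifs <;> omega⟩

/-- the places of the ones of `0^k 1 0 1^k` -/
def zb (k : ℕ) (i : Fin (k + 1)) : Fin (2 * (star k).width) :=
  ⟨if (i : ℕ) = 0 then k else k + 1 + i, by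
    have hw : (star k).width = k + 1 := rfl
    have := i.2
    rw [hw]
    split_ifs <;> omega⟩

theorem za_mono (k : ℕ) : StrictMono (za k) := by
  intro i j hij
  have h : (i : ℕ) < j := hij
  show (za k i : ℕ) < za k j
  simp only [za]
  have := j.2
  split_ifs <;> omega

theorem zb_mono (k : ℕ) : StrictMono (zb k) := by
  intro i j hij
  have h : (i : ℕ) < j := hij
  show (zb k i : ℕ) < zb k j
  simp only [zb]
  split_ifs <;> omega

theorem star_zero (k : ℕ) (i : Fin (2 * (star k).width)) :
    (star k).t i = 0 ↔ (i : ℕ) < k ∨ (i : ℕ) = k + 1 := by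
  show (if (i : ℕ) < k ∨ (i : ℕ) = k + 1 then (0 : Fin 2) else 1) = 0 ↔ _
  split_ifs with h
  · simp [h]
  · simp [h]

theorem star_one (k : ℕ) (i : Fin (2 * (star k).width)) :
    (star k).t i = 1 ↔ ¬ ((i : ℕ) < k ∨ (i : ℕ) = k + 1) := by
  rw [← star_zero]
  constructor <;> intro h <;> omega

theorem range_za (k : ℕ) : Set.range (za k) = {i | (star k).t i = 0} := by
  ext i
  change _ ↔ (star k).t i = 0
  rw [star_zero]
  constructor
  · rintro ⟨j, rfl⟩
    have := j.2
    show (if (j : ℕ) < k then (j : ℕ) else k + 1) < k ∨ (if (j : ℕ) < k then (j : ℕ) else k + 1) = k + 1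
    split_ifs with h
    · exact Or.inl h
    · exact Or.inr rfl
  · rintro (h | h)
    · refine ⟨⟨i, by omega⟩, Fin.ext ?_⟩
      show (if (i : ℕ) < k then (i : ℕ) else k + 1) = i
      rw [if_pos h]
    · refine ⟨⟨k, by omega⟩, Fin.ext ?_⟩
      show (if k < k then k else k + 1) = (i : ℕ)
      rw [if_neg (lt_irrefl k), h]

theorem range_zb (k : ℕ) : Set.range (zb k) = {i | (star k).t i = 1} := by
  have hw : (star k).width = k + 1 := rfl
  ext i
  change _ ↔ (star k).t i = 1
  rw [star_one]
  constructor
  · rintro ⟨j, rfl⟩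
    show ¬ ((if (j : ℕ) = 0 then k else k + 1 + j) < k ∨ (if (j : ℕ) = 0 then k else k + 1 + j) = k + 1)
    split_ifs with h <;> omega
  · intro h
    have hi : (i : ℕ) < 2 * (k + 1) := i.2
    by_cases hk : (i : ℕ) = k
    · refine ⟨⟨0, by omega⟩, Fin.ext ?_⟩
      show (if (0 : ℕ) = 0 then k else k + 1 + 0) = (i : ℕ)
      rw [if_pos rfl, hk]
    · refine ⟨⟨i - (k + 1), by omega⟩, Fin.ext ?_⟩
      show (if (i : ℕ) - (k + 1) = 0 then k else k + 1 + ((i : ℕ) - (k + 1))) = (i : ℕ)
      rw [if_neg (by omega)]
      omega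

theorem image_lt (k : ℕ) (a : ℕ → Ordinal.{0}) :
    a '' {i | i < k + 1} = Set.range fun i : Fin (k + 1) => a i := by
  ext x
  constructor
  · rintro ⟨i, hi, rfl⟩
    exact ⟨⟨i, hi⟩, rfl⟩
  · rintro ⟨i, rfl⟩
    exact ⟨i, i.2, rfl⟩

/-- For the first `k + 1` elements of increasing sequences `a`, `b`: the type is `0^k 1 0 1^k` iff
`a(k - 1) < b(0) < a(k) < b(1)`, in the form used in the formula `isStar`. -/
theorem star_iff (k : ℕ) (a b : ℕ → Ordinal.{0}) (ha : StrictMono a) (hb : StrictMono b) :
    HasType (star k) (a '' {i | i < k + 1}) (b '' {i | i < k + 1}) ↔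
      (∀ i, i < k → a i < b 0) ∧ b 0 < a k ∧ ∀ i, i < k ∨ i = k → 0 < i → a k < b i := by
  have hw : (star k).width = k + 1 := rfl
  have ha' : StrictMono fun i : Fin (k + 1) => a i := fun i j h => ha h
  have hb' : StrictMono fun i : Fin (k + 1) => b i := fun i j h => hb h
  rw [image_lt, image_lt]
  constructor
  · rintro ⟨e, he, hA, hB⟩
    rw [← range_za, ← Set.range_comp] at hA
    rw [← range_zb, ← Set.range_comp] at hB
    have h1 : (fun i : Fin (k + 1) => a i) = e ∘ za k :=
      (StrictMono.range_inj ha' (he.comp (za_mono k))).1 hA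
    have h2 : (fun i : Fin (k + 1) => b i) = e ∘ zb k :=
      (StrictMono.range_inj hb' (he.comp (zb_mono k))).1 hB
    have ea : ∀ i (hi : i < k + 1), a i = e (za k ⟨i, hi⟩) := fun i hi => congrFun h1 ⟨i, hi⟩
    have eb : ∀ i (hi : i < k + 1), b i = e (zb k ⟨i, hi⟩) := fun i hi => congrFun h2 ⟨i, hi⟩
    refine ⟨fun i hi => ?_, ?_, fun i hi hi0 => ?_⟩
    · rw [ea i (by omega), eb 0 (by omega)]
      apply he
      show (if i < k then i else k + 1) < (if (0 : ℕ) = 0 then k else k + 1 + 0)
      rw [if_pos hi, if_pos rfl]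
      exact hi
    · rw [ea k (by omega), eb 0 (by omega)]
      apply he
      show (if (0 : ℕ) = 0 then k else k + 1 + 0) < (if k < k then k else k + 1)
      rw [if_pos rfl, if_neg (lt_irrefl k)]
      omega
    · rw [ea k (by omega), eb i (by omega)]
      apply he
      show (if k < k then k else k + 1) < (if i = 0 then k else k + 1 + i)
      rw [if_neg (lt_irrefl k), if_neg (by omega)]
      omega
  · rintro ⟨h1, h2, h3⟩
    let e : Fin (2 * (star k).width) → Ordinal.{0} := fun i =>
      if (i : ℕ) < k then a i else if (i : ℕ) = k then b 0 else if (i : ℕ) = k + 1 then a k else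
        b (i - (k + 1))
    have he : StrictMono e := by
      intro i j hij
      have h : (i : ℕ) < j := hij
      have hj : (j : ℕ) < 2 * (k + 1) := j.2
      show (if (i : ℕ) < k then a i else if (i : ℕ) = k then b 0 else if (i : ℕ) = k + 1 then a k else
        b (i - (k + 1))) < (if (j : ℕ) < k then a j else if (j : ℕ) = k then b 0 else
        if (j : ℕ) = k + 1 then a k else b (j - (k + 1)))
      by_cases c1 : (i : ℕ) < k
      · rw [if_pos c1]
        by_cases d1 : (j : ℕ) < k
        · rw [if_pos d1]
          exact ha h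
        · rw [if_neg d1]
          by_cases d2 : (j : ℕ) = k
          · rw [if_pos d2]
            exact h1 i c1
          · rw [if_neg d2]
            by_cases d3 : (j : ℕ) = k + 1
            · rw [if_pos d3]
              exact ha c1
            · rw [if_neg d3]
              exact (h1 i c1).trans (hb (by omega))
      · rw [if_neg c1, if_neg (show ¬ (j : ℕ) < k by omega), if_neg (show ¬ (j : ℕ) = k by omega)]
        by_cases c2 : (i : ℕ) = k
        · rw [if_pos c2]
          by_cases d3 : (j : ℕ) = k + 1
          · rw [if_pos d3]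
            exact h2
          · rw [if_neg d3]
            exact hb (by omega)
        · rw [if_neg c2, if_neg (show ¬ (j : ℕ) = k + 1 by omega)]
          by_cases c3 : (i : ℕ) = k + 1
          · rw [if_pos c3]
            exact h3 _ (by omega) (by omega)
          · rw [if_neg c3]
            exact hb (by omega)
    refine ⟨e, he, ?_, ?_⟩
    · rw [← range_za, ← Set.range_comp]
      congr 1
      funext i
      have hi := i.2
      show a i = e (za k i)
      by_cases c : (i : ℕ) < k
      · have hz : (za k i : ℕ) = i := by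
          show (if (i : ℕ) < k then (i : ℕ) else k + 1) = i
          rw [if_pos c]
        simp only [e, hz]
        rw [if_pos c]
      · have hz : (za k i : ℕ) = k + 1 := by
          show (if (i : ℕ) < k then (i : ℕ) else k + 1) = k + 1
          rw [if_neg c]
        simp only [e, hz]
        rw [if_neg (by omega), if_neg (by omega), if_pos trivial]
        congr 1
        omega
    · rw [← range_zb, ← Set.range_comp]
      congr 1
      funext i
      have hi := i.2
      show b i = e (zb k i)
      by_cases c : (i : ℕ) = 0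
      · have hz : (zb k i : ℕ) = k := by
          show (if (i : ℕ) = 0 then k else k + 1 + i) = k
          rw [if_pos c]
        simp only [e, hz]
        rw [if_neg (lt_irrefl k), if_pos trivial, c]
      · have hz : (zb k i : ℕ) = k + 1 + i := by
          show (if (i : ℕ) = 0 then k else k + 1 + i) = k + 1 + i
          rw [if_neg c]
        simp only [e, hz]
        rw [if_neg (by omega), if_neg (by omega), if_neg (by omega)]
        congr 1
        omega

end Pool.Agent.Lib_helper33.IHP
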