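import Pool.Agent.Lib_helper33.NI.Basic

/-! Blocks UNI and CANON (helper76). -/

set_option linter.unusedSectionVars false

namespace Pool.Agent.Lib_helper33.NI.H76

open Set Cardinal

open Pool.Agent.Lib_helper27.Q (Om1)

variable {K : Type} [LinearOrder K] [WellFoundedLT K] {e : K → Mod K}

theorem uni_iso {S T : Set (Mod K)} {X Y : Set K} {π : K → K} (hS : Sym e S)
    (hSX : ∀ M ∈ S, M.2 ⊆ X) (hTY : ∀ M ∈ T, M.2 ⊆ Y) (hπ : OIso X Y π) (hXY : Coh X Y)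
    (h1 : ∀ M ∈ S, img π M ∈ T ∧ Iso e M (img π M) π) (h2 : ∀ N ∈ T, ∃ M ∈ S, img π M = N)
    {M N : Mod K} (hM : M ∈ S) (hN : N ∈ T) (hht : M.1 = N.1) :
    Coh M.2 N.2 ∧ ∃ φ, Iso e M N φ := by
  obtain ⟨M', hM', rfl⟩ := h2 N hN
  obtain ⟨hco, θ, hθ⟩ := hS.iso M hM M' hM' hht
  refine ⟨⟨?_, ?_⟩, π ∘ θ, hθ.comp (h1 M' hM').2⟩
  · intro x hx hxN y hy hyx
    have hxX := hSX M hM hx
    have hxY := hTY _ hN hxN
    obtain ⟨x', hx', hxx⟩ := hxN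
    have hfix := hπ.fix hXY x hxX hxY
    have hx'x : x' = x := hπ.inj (hSX M' hM' hx') hxX (by rw [hxx, hfix])
    subst hx'x
    have hyM' := hco.1 x' hx hx' y hy hyx
    have hyX := hSX M hM hy
    have hyY := hXY.1 x' hxX hxY y hyX hyx
    exact ⟨y, hyM', hπ.fix hXY y hyX hyY⟩
  · intro x hx hxN y hy hyx
    have hxX := hSX M hM hx
    have hxY := hTY _ hN hxN
    obtain ⟨x', hx', hxx⟩ := hxN
    have hfix := hπ.fix hXY x hxX hxY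
    have hx'x : x' = x := hπ.inj (hSX M' hM' hx') hxX (by rw [hxx, hfix])
    subst hx'x
    have hyY := hTY _ hN hy
    have hyX := hXY.2 x' hxX hxY y hyY hyx
    have hyfix := hπ.fix hXY y hyX hyY
    obtain ⟨y', hy', hyy⟩ := hy
    have hy'y : y' = y := hπ.inj (hSX M' hM' hy') hyX (by rw [hyy, hyfix])
    subst hy'y
    exact hco.2 x' hx hx' y' hy' hyx

theorem uni_mem {S T : Set (Mod K)} {X Y : Set K} {π : K → K} (hS : Sym e S)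
    (hSX : ∀ M ∈ S, M.2 ⊆ X) (hTY : ∀ M ∈ T, M.2 ⊆ Y) (hπ : OIso X Y π) (hXY : Coh X Y)
    (h2 : ∀ N ∈ T, ∃ M ∈ S, img π M = N)
    {M W : Mod K} (hM : M ∈ S) (hW : W ∈ S ∪ T) (hWM : In e W M) : W ∈ S := by
  rcases hW with hW | hW
  · exact hW
  obtain ⟨W0, hW0, rfl⟩ := h2 W hW
  have hsub := hWM.sub (hS.good M hM)
  have hid : img π W0 = W0 := by
    refine img_id fun x hx => ?_
    have hx1 : π x ∈ (img π W0).2 := ⟨x, hx, rfl⟩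
    have hx2 : π x ∈ X := hSX M hM (hsub hx1)
    have hx3 : π x ∈ Y := hTY _ hW hx1
    exact hπ.inj hx2 (hSX W0 hW0 hx) (hπ.fix hXY _ hx2 hx3)
  rw [hid]
  exact hW0

theorem uni_cop {S T : Set (Mod K)} {X Y : Set K} {π : K → K} (hS : Sym e S) (hT : Sym e T)
    (hSX : ∀ M ∈ S, M.2 ⊆ X) (hTY : ∀ M ∈ T, M.2 ⊆ Y) (hπ : OIso X Y π) (hXY : Coh X Y)
    (h1 : ∀ M ∈ S, img π M ∈ T ∧ Iso e M (img π M) π) (h2 : ∀ N ∈ T, ∃ M ∈ S, img π M = N)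
    {M N W : Mod K} {φ : K → K} (hM : M ∈ S) (hN : N ∈ S ∪ T) (hφ : Iso e M N φ)
    (hW : W ∈ S ∪ T) (hWM : In e W M) : img φ W ∈ S ∪ T := by
  have hWS := uni_mem hS hSX hTY hπ hXY h2 hM hW hWM
  rcases hN with hN | hN
  · exact Or.inl (hS.cop M hM N hN φ hφ W hWS hWM)
  obtain ⟨N0, hN0, rfl⟩ := h2 N hN
  obtain ⟨ψ, hψ, hψ1, hψ2⟩ := (h1 N0 hN0).2.exists_symm (hS.good N0 hN0)
  have h3 := hS.cop M hM N0 hN0 (ψ ∘ φ) (hφ.comp hψ) W hWS hWM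
  have h4 := (h1 _ h3).1
  rw [img_img] at h4
  have h5 : img φ W = img (π ∘ ψ ∘ φ) W := by
    refine img_congr fun x hx => ?_
    have : φ x ∈ (img π N0).2 := hφ.maps x (hWM.sub (hS.good M hM) hx)
    exact (hψ2 _ this).symm
  rw [h5]
  exact Or.inr h4

theorem uni_up {S T : Set (Mod K)} {π : K → K} (hS : Sym e S)
    (h2 : ∀ N ∈ T, ∃ M ∈ S, img π M = N)
    {M N : Mod K} (hM : M ∈ S) (hN : N ∈ S ∪ T) (hht : M.1 < N.1) :
    ∃ N' ∈ S ∪ T, N'.1 = N.1 ∧ In e M N' := by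
  rcases hN with hN | hN
  · obtain ⟨N', h, h'⟩ := hS.up M hM N hN hht
    exact ⟨N', Or.inl h, h'⟩
  · obtain ⟨N0, hN0, rfl⟩ := h2 N hN
    obtain ⟨N', h, h'⟩ := hS.up M hM N0 hN0 hht
    exact ⟨N', Or.inl h, h'⟩

/-- UNI -/
theorem sym_union {S T : Set (Mod K)} {X Y : Set K} {π : K → K} (hS : Sym e S) (hT : Sym e T)
    (hSX : ∀ M ∈ S, M.2 ⊆ X) (hTY : ∀ M ∈ T, M.2 ⊆ Y) (hπ : OIso X Y π) (hXY : Coh X Y)
    (h1 : ∀ M ∈ S, img π M ∈ T ∧ Iso e M (img π M) π) (h2 : ∀ N ∈ T, ∃ M ∈ S, img π M = N) :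
    Sym e (S ∪ T) := by
  obtain ⟨ψ, hψ, hψπ, hπψ⟩ := hπ.exists_symm
  have hinv : ∀ M ∈ S, img ψ (img π M) = M := by
    intro M hM
    rw [img_img]
    exact img_id fun x hx => hψπ x (hSX M hM hx)
  have h1' : ∀ N ∈ T, img ψ N ∈ S ∧ Iso e N (img ψ N) ψ := by
    intro N hN
    obtain ⟨M, hM, rfl⟩ := h2 N hN
    rw [hinv M hM]
    refine ⟨hM, ?_⟩
    obtain ⟨χ, hχ, hχ1, hχ2⟩ := (h1 M hM).2.exists_symm (hS.good M hM)
    refine hχ.congr (hT.good _ hN) ?_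
    rintro _ ⟨x, hx, rfl⟩
    rw [hψπ x (hSX M hM hx), hχ1 x hx]
  have h2' : ∀ M ∈ S, ∃ N ∈ T, img ψ N = M := fun M hM => ⟨img π M, (h1 M hM).1, hinv M hM⟩
  refine ⟨?_, ?_, ?_, ?_⟩
  · rintro M (hM | hM)
    · exact hS.good M hM
    · exact hT.good M hM
  · rintro M (hM | hM) N (hN | hN) hht
    · exact hS.iso M hM N hN hht
    · exact uni_iso hS hSX hTY hπ hXY h1 h2 hM hN hht
    · exact uni_iso hT hTY hSX hψ hXY.symm h1' h2' hM hN hht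
    · exact hT.iso M hM N hN hht
  · rintro M (hM | hM) N hN φ hφ W hW hWM
    · exact uni_cop hS hT hSX hTY hπ hXY h1 h2 hM hN hφ hW hWM
    · exact (uni_cop hT hS hTY hSX hψ hXY.symm h1' h2' hM hN.symm hφ hW.symm hWM).symm
  · rintro M (hM | hM) N hN hht
    · exact uni_up hS h2 hM hN hht
    · obtain ⟨N', h, h'⟩ := uni_up hT h2' hM hN.symm hht
      exact ⟨N', h.symm, h'⟩

/-- CANON -/
theorem exists_canon (M : Mod K) (a : WithTop K) : ∃ b : WithTop K,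
    (b = ⊤ ∨ ∃ x ∈ M.2, b = (x : WithTop K)) ∧ ∀ i ∈ M.2, (i : WithTop K) < b ↔ (i : WithTop K) < a := by
  by_cases h : ∃ x, x ∈ M.2 ∧ a ≤ (x : WithTop K)
  · have hwf : {x : K | x ∈ M.2 ∧ a ≤ (x : WithTop K)}.Nonempty := h
    obtain ⟨x, hx, hmin⟩ := WellFounded.has_min (wellFounded_lt (α := K)) _ hwf
    refine ⟨x, Or.inr ⟨x, hx.1, rfl⟩, fun i hi => ?_⟩
    rw [WithTop.coe_lt_coe]
    constructor
    · intro hix
      by_contra hcon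
      exact hmin i ⟨hi, not_lt.1 hcon⟩ hix
    · intro hia
      exact WithTop.coe_lt_coe.1 (lt_of_lt_of_le hia hx.2)
  · push Not at h
    exact ⟨⊤, Or.inl rfl, fun i hi => ⟨fun _ => h i hi, fun _ => WithTop.coe_lt_top i⟩⟩

end Pool.Agent.Lib_helper33.NI.H76
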